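import Pool.Agent.T2H58.ST.Stm

set_option autoImplicit false

open MeasureTheory Filter Topology Finset

namespace Pool.Agent.T2H58.ST

open Pool.Agent.T2H98.RT (P tw S A quads gam S_MUL S_OR S_KAP S_DIV S_LIM)

namespace HAR

theorem HH_le (M : ℕ) : HH M ≤ 1 + Real.log M := by
  have h := harmonic_le_one_add_log M
  have e : ((harmonic M : ℚ) : ℝ) = HH M := by
    unfold HH
    rw [harmonic_eq_sum_Icc]
    push_cast
    refine Finset.sum_congr rfl (fun i _ => ?_)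
    rw [one_div]
  rw [e] at h
  exact h

theorem log_le (δ : ℝ) (hδ : 0 < δ) (x : ℝ) (hx : 1 ≤ x) : Real.log x ≤ x ^ δ / δ :=
  Real.log_le_rpow_div (by linarith) hδ

end HAR

theorem pHAR : S_HAR := by
  intro k ε hε
  refine ⟨1 + k / ε, by positivity, ?_⟩
  intro R hR
  have hR1 : (1 : ℝ) ≤ R := by exact_mod_cast hR
  have h1 := HAR.HH_le (R ^ k)
  have h2 := HAR.log_le ε hε R hR1
  have h3 : (1 : ℝ) ≤ (R : ℝ) ^ ε := Real.one_le_rpow hR1 hε.le
  push_cast at h1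
  rw [Real.log_pow] at h1
  calc HH (R ^ k) ≤ 1 + k * Real.log R := h1
    _ ≤ (R : ℝ) ^ ε + k * ((R : ℝ) ^ ε / ε) :=
        add_le_add h3 (mul_le_mul_of_nonneg_left h2 (Nat.cast_nonneg _))
    _ = (1 + k / ε) * (R : ℝ) ^ ε := by ring

end Pool.Agent.T2H58.ST
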