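import Pool.Agent.T2H58.ST.Stm2

/-! Project ST, package ABEL: Abel summation in all variables. -/

set_option autoImplicit false

open MeasureTheory Filter Topology Finset

namespace Pool.Agent.T2H58.ST

namespace ABEL

theorem tele (v : ℕ → ℂ) (n m : ℕ) (h : n ≤ m) :
    ∑ i ∈ Ico n m, (v i - v (i + 1)) = v n - v m := by
  induction m, h using Nat.le_induction with
  | base => simp
  | succ m hm ih =>
    rw [sum_Ico_succ_top hm, ih]
    ring

/-- the cut-off weight -/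
noncomputable def vv (w : ℕ → ℂ) (N n : ℕ) : ℂ := if n ≤ N then w n else 0

/-- the differences -/
noncomputable def uu (w : ℕ → ℂ) (N n : ℕ) : ℂ := vv w N n - vv w N (n + 1)

theorem w_eq (w : ℕ → ℂ) (N n : ℕ) (h : n ≤ N) : w n = ∑ i ∈ Icc n N, uu w N i := by
  have e : Icc n N = Ico n (N + 1) := by
    ext i
    rw [mem_Icc, mem_Ico]
    omega
  unfold uu
  rw [e, tele (vv w N) n (N + 1) (by omega)]
  unfold vv
  rw [if_pos h, if_neg (by omega), sub_zero]

theorem sum_uu (w : ℕ → ℂ) (N : ℕ) (h : 1 ≤ N) :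
    ∑ i ∈ Ioc 0 N, ‖uu w N i‖ = ‖w N‖ + ∑ n ∈ Ico 1 N, ‖w (n + 1) - w n‖ := by
  have e : Ioc 0 N = Ico 1 (N + 1) := by
    ext i
    rw [mem_Ioc, mem_Ico]
    omega
  rw [e, sum_Ico_succ_top h, add_comm]
  congr 1
  · unfold uu vv
    rw [if_pos le_rfl, if_neg (by omega), sub_zero]
  · refine sum_congr rfl fun i hi => ?_
    rw [mem_Ico] at hi
    unfold uu vv
    rw [if_pos (by omega), if_pos (by omega), norm_sub_rev]

end ABEL

open ABEL in
theorem pABEL : S_ABEL := by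
  intro k w g N M hN hM
  have h1 : ∑ v ∈ box 0 N, (∏ j, w j (v j)) * g v =
      ∑ v' ∈ box 0 N, (∏ j, uu (w j) (N j) (v' j)) * ∑ v ∈ box 0 v', g v := by
    have e1 : ∀ v ∈ box 0 N, (∏ j, w j (v j)) * g v =
        ∑ v' ∈ Fintype.piFinset (fun j => Icc (v j) (N j)),
          (∏ j, uu (w j) (N j) (v' j)) * g v := by
      intro v hv
      unfold box at hv
      rw [Fintype.mem_piFinset] at hv
      rw [← sum_mul, ← prod_univ_sum]
      congr 1
      exact prod_congr rfl fun j _ => w_eq (w j) (N j) (v j) (mem_Ioc.1 (hv j)).2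
    rw [sum_congr rfl e1]
    simp only [mul_sum]
    refine sum_comm' fun v v' => ?_
    unfold box
    simp only [Fintype.mem_piFinset, mem_Ioc, mem_Icc, Pi.zero_apply]
    constructor
    · rintro ⟨a1, a2⟩
      exact ⟨fun j => ⟨(a1 j).1, (a2 j).1⟩, fun j => ⟨lt_of_lt_of_le (a1 j).1 (a2 j).1, (a2 j).2⟩⟩
    · rintro ⟨a1, a2⟩
      exact ⟨fun j => ⟨(a1 j).1, (a1 j).2.trans (a2 j).2⟩, fun j => ⟨(a1 j).2, (a2 j).2⟩⟩
  rw [h1]
  refine (norm_sum_le _ _).trans ?_
  have h2 : ∀ v' ∈ box 0 N, ‖(∏ j, uu (w j) (N j) (v' j)) * ∑ v ∈ box 0 v', g v‖ ≤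
      (∏ j, ‖uu (w j) (N j) (v' j)‖) * M := by
    intro v' hv'
    unfold box at hv'
    rw [Fintype.mem_piFinset] at hv'
    rw [norm_mul, norm_prod]
    exact mul_le_mul_of_nonneg_left (hM v' fun j => (mem_Ioc.1 (hv' j)).2)
      (prod_nonneg fun _ _ => norm_nonneg _)
  refine (sum_le_sum h2).trans (le_of_eq ?_)
  rw [← sum_mul]
  congr 1
  have h3 := prod_univ_sum (fun j : Fin k ⊕ Fin k => Ioc 0 (N j))
    (fun j n => ‖uu (w j) (N j) n‖)
  unfold box
  simp only [Pi.zero_apply]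
  rw [← h3]
  exact prod_congr rfl fun j _ => sum_uu (w j) (N j) (hN j)

end Pool.Agent.T2H58.ST
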