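import Pool.Agent.T2H58.ST.Stm

/-!
# Package BC: Borel-Cantelli
-/

set_option autoImplicit false

open MeasureTheory Filter Topology Finset

namespace Pool.Agent.T2H58.ST

open Pool.Agent.T2H98.RT (P tw S A quads gam S_MUL S_OR S_KAP S_DIV S_LIM)

theorem pBC : S_BC := by
  intro Y C ε hε hY hC
  obtain ⟨X, hX⟩ : ∃ X : ℕ → (ℕ → ℝ) → ENNReal,
      ∀ j θ, X j θ = ENNReal.ofReal (Y j θ / ((2 : ℝ) ^ j) ^ (1 + 2 * ε)) := ⟨_, fun _ _ => rfl⟩
  have hX' : ∀ j, X j = fun θ => ENNReal.ofReal (Y j θ / ((2 : ℝ) ^ j) ^ (1 + 2 * ε)) :=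
    fun j => funext (hX j)
  have hpow : ∀ j : ℕ, 0 < ((2 : ℝ) ^ j) ^ (1 + 2 * ε) := fun j =>
    Real.rpow_pos_of_pos (by positivity) _
  have hXm : ∀ j, AEMeasurable (X j) P := fun j => by
    rw [hX']
    exact ((hY j).1.aestronglyMeasurable.aemeasurable.div_const _).ennreal_ofReal
  have hint : ∀ j, ∫⁻ θ, X j θ ∂P ≤ ENNReal.ofReal (|C| * ((2 : ℝ) ^ (-ε)) ^ j) := by
    intro j
    rw [hX']
    rw [← ofReal_integral_eq_lintegral_ofReal ((hY j).1.div_const _)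
      (ae_of_all _ fun θ => div_nonneg ((hY j).2 θ) (hpow j).le)]
    apply ENNReal.ofReal_le_ofReal
    rw [integral_div, div_le_iff₀ (hpow j)]
    refine (hC j).trans ?_
    have e : ((2 : ℝ) ^ (-ε)) ^ j * ((2 : ℝ) ^ j) ^ (1 + 2 * ε) = ((2 : ℝ) ^ j) ^ (1 + ε) := by
      rw [← Real.rpow_natCast ((2 : ℝ) ^ (-ε)) j, ← Real.rpow_natCast 2 j,
        ← Real.rpow_mul (by norm_num), ← Real.rpow_mul (by norm_num),
        ← Real.rpow_mul (by norm_num), ← Real.rpow_add (by norm_num)]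
      congr 1
      ring
    rw [mul_assoc, e]
    exact mul_le_mul_of_nonneg_right (le_abs_self C) (by positivity)
  have hr1 : (2 : ℝ) ^ (-ε) < 1 :=
    Real.rpow_lt_one_of_one_lt_of_neg one_lt_two (by linarith)
  have hsum : Summable (fun j : ℕ => |C| * ((2 : ℝ) ^ (-ε)) ^ j) :=
    (summable_geometric_of_lt_one (by positivity) hr1).mul_left _
  have htot : ∫⁻ θ, ∑' j, X j θ ∂P ≠ ⊤ := by
    rw [lintegral_tsum hXm]
    refine ne_top_of_le_ne_top ?_ (ENNReal.tsum_le_tsum hint)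
    rw [← ENNReal.ofReal_tsum_of_nonneg (fun j => by positivity) hsum]
    exact ENNReal.ofReal_ne_top
  have hae : ∀ᵐ θ ∂P, ∑' j, X j θ < ⊤ :=
    ae_lt_top' (AEMeasurable.tsum hXm) htot
  filter_upwards [hae] with θ hθ
  refine ⟨(∑' j, X j θ).toReal + 1, by positivity, fun j => ?_⟩
  have h1 : X j θ ≤ ∑' j, X j θ := ENNReal.le_tsum j
  have h2 : Y j θ / ((2 : ℝ) ^ j) ^ (1 + 2 * ε) ≤ (∑' j, X j θ).toReal := by
    have h3 := ENNReal.toReal_mono hθ.ne h1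
    rw [hX, ENNReal.toReal_ofReal (div_nonneg ((hY j).2 θ) (hpow j).le)] at h3
    exact h3
  rw [div_le_iff₀ (hpow j)] at h2
  have h3 := (hpow j).le
  linarith

end Pool.Agent.T2H58.ST
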