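import Pool.Agent.T2H58.ST.Stm

set_option autoImplicit false

open MeasureTheory Filter Topology Finset

namespace Pool.Agent.T2H58.ST

open Pool.Agent.T2H98.RT (P tw S A quads gam S_MUL S_OR S_KAP S_DIV S_LIM)

namespace CFB

lemma norm_term (v : ℕ) (a : ℝ) (hv : 1 ≤ v) : ‖(v : ℂ) ^ (-((a : ℂ) * Complex.I))‖ = 1 := by
  rw [Complex.norm_natCast_cpow_of_pos (by omega)]
  simp

lemma norm_cf {k : ℕ} (a : Fin k → ℝ) (N m : ℕ) :
    ‖cf a N m‖ ≤ (Pool.Agent.T2H98.RT.b k N m : ℝ) := by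
  unfold cf Pool.Agent.T2H98.RT.b
  refine (norm_sum_le _ _).trans ?_
  rw [Finset.card_eq_sum_ones, Nat.cast_sum]
  refine Finset.sum_le_sum ?_
  intro v hv
  rw [Finset.mem_filter, Fintype.mem_piFinset] at hv
  rw [norm_prod]
  rw [Finset.prod_eq_one]
  · simp
  · intro j _
    exact norm_term (v j) (a j) (Finset.mem_Icc.1 (hv.1 j)).1

end CFB

theorem pCFB (h1 : S_DIV) : S_CFB := by
  intro k
  constructor
  · intro ε hε
    obtain ⟨C, hC, h2, -⟩ := h1 k ε hε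
    refine ⟨2 * C, by positivity, ?_⟩
    intro a N₁ N₂ m _ hm
    have hm0 : (0 : ℝ) ≤ (m : ℝ) ^ ε := by positivity
    have e1 : ‖cf a N₂ m‖ ≤ C * (m : ℝ) ^ ε := (CFB.norm_cf a N₂ m).trans (h2 N₂ m hm)
    have e2 : ‖cf a N₁ m‖ ≤ C * (m : ℝ) ^ ε := (CFB.norm_cf a N₁ m).trans (h2 N₁ m hm)
    constructor
    · refine (norm_sub_le _ _).trans ?_
      linarith
    · refine e1.trans ?_
      nlinarith [mul_nonneg hC.le hm0]
  · intro a N₁ N₂ m hN hm hno
    unfold cf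
    refine Finset.sum_congr ?_ (fun _ _ => rfl)
    ext v
    simp only [Finset.mem_filter, Fintype.mem_piFinset, Finset.mem_Icc]
    constructor
    · rintro ⟨hv, hp⟩
      refine ⟨fun j => ⟨(hv j).1, ?_⟩, hp⟩
      by_contra hcon
      push Not at hcon
      refine hno ⟨v j, Finset.mem_Ioc.2 ⟨hcon, (hv j).2⟩, ?_⟩
      rw [← hp]
      exact Finset.dvd_prod_of_mem v (Finset.mem_univ j)
    · rintro ⟨hv, hp⟩
      exact ⟨fun j => ⟨(hv j).1, (hv j).2.trans hN⟩, hp⟩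

end Pool.Agent.T2H58.ST
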