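import Pool.Agent.T2H58.ST.Stm

/-! package CH1 -/

set_option autoImplicit false

open MeasureTheory Filter Topology Finset

namespace Pool.Agent.T2H58.ST

theorem pCH1 : S_CH1 := by
  intro ρ h0 hs htri m N hN
  set f : ℕ → ℕ := fun i => (N / 2 ^ i) * 2 ^ i with hf
  have hstep : ∀ i, i ≤ m → ρ (f (i + 1)) (f i) ^ 2 ≤
      ∑ l ∈ range (2 ^ (m - i)), ρ (l * 2 ^ i) ((l + 1) * 2 ^ i) ^ 2 := by
    intro i hi
    have hpos : 0 < 2 ^ i := by positivity
    obtain ⟨q, hq⟩ : ∃ q, q = N / 2 ^ i := ⟨_, rfl⟩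
    have hq1 : N / 2 ^ (i + 1) = q / 2 := by
      rw [pow_succ, ← Nat.div_div_eq_div_mul, hq]
    have hfi : f i = q * 2 ^ i := by simp only [hf, hq]
    have hfi1 : f (i + 1) = (2 * (q / 2)) * 2 ^ i := by
      show N / 2 ^ (i + 1) * 2 ^ (i + 1) = _
      rw [hq1, pow_succ]; ring
    have hql : q ≤ 2 ^ (m - i) := by
      rw [hq]
      apply Nat.div_le_of_le_mul
      calc N ≤ 2 ^ m := hN
        _ = 2 ^ i * 2 ^ (m - i) := by rw [← pow_add]; congr 1; omega
    rcases Nat.mod_two_eq_zero_or_one q with h | h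
    · have h2 : 2 * (q / 2) = q := by omega
      rw [hfi, hfi1, h2, hs]
      simp only [ne_eq, OfNat.ofNat_ne_zero, not_false_eq_true, zero_pow]
      exact Finset.sum_nonneg fun _ _ => sq_nonneg _
    · have h2 : 2 * (q / 2) + 1 = q := by omega
      have h3 : 2 * (q / 2) < 2 ^ (m - i) := by omega
      rw [hfi, hfi1]
      conv_lhs => rw [show q * 2 ^ i = (2 * (q / 2) + 1) * 2 ^ i by rw [h2]]
      exact Finset.single_le_sum (f := fun l => ρ (l * 2 ^ i) ((l + 1) * 2 ^ i) ^ 2)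
        (fun _ _ => sq_nonneg _) (mem_range.2 h3)
  have htel : ∀ n, ρ (f n) (f 0) ≤ ∑ i ∈ range n, ρ (f (i + 1)) (f i) := by
    intro n
    induction n with
    | zero => simp [hs]
    | succ n ih =>
      rw [Finset.sum_range_succ]
      have := htri (f (n + 1)) (f n) (f 0)
      linarith
  have hf0 : f 0 = N := by simp [hf]
  have hfm : f (m + 1) = 0 := by
    have : N / 2 ^ (m + 1) = 0 := by
      apply Nat.div_eq_of_lt
      calc N ≤ 2 ^ m := hN
        _ < 2 ^ (m + 1) := Nat.pow_lt_pow_right (by norm_num) (by omega)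
    simp only [hf, this, zero_mul]
  have h1 := htel (m + 1)
  rw [hf0, hfm] at h1
  calc ρ 0 N ^ 2 ≤ (∑ i ∈ range (m + 1), ρ (f (i + 1)) (f i)) ^ 2 :=
        pow_le_pow_left₀ (h0 _ _) h1 2
    _ ≤ ((range (m + 1)).card : ℝ) * ∑ i ∈ range (m + 1), ρ (f (i + 1)) (f i) ^ 2 :=
        sq_sum_le_card_mul_sum_sq
    _ ≤ _ := by
        rw [Finset.card_range]
        push_cast
        apply mul_le_mul_of_nonneg_left _ (by positivity)
        exact Finset.sum_le_sum fun i hi => hstep i (by have := mem_range.1 hi; omega)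

end Pool.Agent.T2H58.ST
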