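import Pool.Agent.T2H58.ST.Stm

/-! package CH2 -/

set_option autoImplicit false

open MeasureTheory Filter Topology Finset

namespace Pool.Agent.T2H58.ST

theorem pCH2 (h1 : S_CH1) : S_CH2 := by
  intro G m m' hG0 hG1 N T hN hT
  have hA : ‖G N T‖ ^ 2 ≤ ((m : ℝ) + 1) *
      ∑ i ∈ range (m + 1), ∑ l ∈ range (2 ^ (m - i)), ‖G ((l + 1) * 2 ^ i) T - G (l * 2 ^ i) T‖ ^ 2 := by
    have := h1 (fun x y => ‖G y T - G x T‖) (fun _ _ => norm_nonneg _) (fun x => by simp)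
      (fun x y z => by
        show ‖G z T - G x T‖ ≤ ‖G y T - G x T‖ + ‖G z T - G y T‖
        calc ‖G z T - G x T‖ = ‖(G y T - G x T) + (G z T - G y T)‖ := by congr 1; ring
          _ ≤ _ := norm_add_le _ _) m N hN
    simpa [hG0] using this
  refine hA.trans ?_
  apply mul_le_mul_of_nonneg_left _ (by positivity)
  rw [Finset.mul_sum]
  apply Finset.sum_le_sum
  intro i _
  rw [Finset.mul_sum]
  apply Finset.sum_le_sum
  intro l _
  have := h1 (fun x y => ‖(G ((l + 1) * 2 ^ i) y - G (l * 2 ^ i) y) - (G ((l + 1) * 2 ^ i) x - G (l * 2 ^ i) x)‖)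
      (fun _ _ => norm_nonneg _) (fun x => by simp)
      (fun x y z => by
        show ‖(G ((l + 1) * 2 ^ i) z - G (l * 2 ^ i) z) - (G ((l + 1) * 2 ^ i) x - G (l * 2 ^ i) x)‖ ≤
          ‖(G ((l + 1) * 2 ^ i) y - G (l * 2 ^ i) y) - (G ((l + 1) * 2 ^ i) x - G (l * 2 ^ i) x)‖ +
          ‖(G ((l + 1) * 2 ^ i) z - G (l * 2 ^ i) z) - (G ((l + 1) * 2 ^ i) y - G (l * 2 ^ i) y)‖
        calc _ = ‖((G ((l + 1) * 2 ^ i) y - G (l * 2 ^ i) y) - (G ((l + 1) * 2 ^ i) x - G (l * 2 ^ i) x)) +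
          ((G ((l + 1) * 2 ^ i) z - G (l * 2 ^ i) z) - (G ((l + 1) * 2 ^ i) y - G (l * 2 ^ i) y))‖ := by
              congr 1; ring
          _ ≤ _ := norm_add_le _ _) m' T hT
  simpa [hG1] using this

end Pool.Agent.T2H58.ST
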