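import Pool.Agent.T2H58.ST.Stm

/-! # Package EUN: the increments on unit intervals -/

set_option autoImplicit false

open MeasureTheory Filter Topology Finset

namespace Pool.Agent.T2H58.ST

open Pool.Agent.T2H98.RT (P tw S A quads gam S_MUL S_OR S_KAP S_DIV S_LIM)

namespace EUN

/-- Cauchy-Schwarz on a probability space -/
lemma sq_integral_le {α : Type*} [MeasurableSpace α] {μ : Measure α} [IsProbabilityMeasure μ]
    {g : α → ℝ} (h1 : Integrable g μ) (h2 : Integrable (fun x => g x ^ 2) μ) :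
    (∫ x, g x ∂μ) ^ 2 ≤ ∫ x, g x ^ 2 ∂μ := by
  obtain ⟨m, hm⟩ : ∃ m : ℝ, m = ∫ x, g x ∂μ := ⟨_, rfl⟩
  have h3 : 0 ≤ ∫ x, (g x - m) ^ 2 ∂μ := integral_nonneg fun x => sq_nonneg _
  have h4 : ∀ x, (g x - m) ^ 2 = g x ^ 2 - 2 * m * g x + m ^ 2 := fun x => by ring
  simp_rw [h4] at h3
  have h5 : ∫ x, (g x ^ 2 - 2 * m * g x + m ^ 2) ∂μ =
      ∫ x, (g x ^ 2 - 2 * m * g x) ∂μ + ∫ _x, m ^ 2 ∂μ :=
    integral_add (h2.sub (h1.const_mul _)) (integrable_const _)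
  have h6 : ∫ x, (g x ^ 2 - 2 * m * g x) ∂μ = ∫ x, g x ^ 2 ∂μ - ∫ x, 2 * m * g x ∂μ :=
    integral_sub h2 (h1.const_mul _)
  rw [h5, h6, integral_const_mul, ← hm] at h3
  simp at h3
  rw [← hm]
  nlinarith

end EUN

open EUN in
theorem pEUN (h1 : S_VPT) (h2 : S_MEAS) : S_EUN := by
  intro k a a' ε hk hε
  obtain ⟨C, hC, hv⟩ := h1 k a a' ε hk hε
  refine ⟨C, hC, fun N₁ N₂ R u h12 h2R hR => ?_⟩
  obtain ⟨hc1, ⟨B1, hB1, hb1⟩, -, -⟩ := h2 k a a' N₁ N₂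
  obtain ⟨hc2, ⟨B2, hB2, hb2⟩, -, -⟩ := h2 k a a' N₂ N₁
  set g : (ℕ → ℝ) → ℝ → ℝ := fun θ t => ‖EE a a' θ N₂ t - EE a a' θ N₁ t‖ with hg
  have hgc : Continuous (fun q : (ℕ → ℝ) × ℝ => g q.1 q.2) := (hc2.sub hc1).norm
  have hgb : ∀ θ t, |g θ t| ≤ B2 + B1 := fun θ t => by
    simp only [hg, abs_norm]
    exact (norm_sub_le _ _).trans (add_le_add (hb2 θ t) (hb1 θ t))
  have hg2b : ∀ θ t, |g θ t ^ 2| ≤ (B2 + B1) ^ 2 := fun θ t => by
    rw [abs_pow]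
    exact pow_le_pow_left₀ (abs_nonneg _) (hgb θ t) 2
  set ν : Measure ℝ := volume.restrict (Set.Ioc u (u + 1)) with hν
  have hνp : IsProbabilityMeasure ν := ⟨by
    rw [hν, Measure.restrict_apply_univ, Real.volume_Ioc]
    simp⟩
  have hgt : ∀ θ, Integrable (g θ) ν := fun θ =>
    Integrable.of_bound (hgc.comp (Continuous.prodMk_right θ)).aestronglyMeasurable (B2 + B1)
      (Eventually.of_forall fun t => by rw [Real.norm_eq_abs]; exact hgb θ t)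
  have hgt2 : ∀ θ, Integrable (fun t => g θ t ^ 2) ν := fun θ =>
    Integrable.of_bound ((hgc.pow 2).comp (Continuous.prodMk_right θ)).aestronglyMeasurable
      ((B2 + B1) ^ 2) (Eventually.of_forall fun t => by rw [Real.norm_eq_abs]; exact hg2b θ t)
  have hprod : Integrable (fun q : (ℕ → ℝ) × ℝ => g q.1 q.2 ^ 2) (P.prod ν) :=
    Integrable.of_bound (hgc.pow 2).aestronglyMeasurable ((B2 + B1) ^ 2)
      (Eventually.of_forall fun q => by rw [Real.norm_eq_abs]; exact hg2b q.1 q.2)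
  have hle : u ≤ u + 1 := by linarith
  have hstep1 : ∀ θ, (∫ t in u..(u + 1), ‖EE a a' θ N₂ t - EE a a' θ N₁ t‖) ^ 2 ≤
      ∫ t, g θ t ^ 2 ∂ν := fun θ => by
    rw [intervalIntegral.integral_of_le hle]
    exact sq_integral_le (hgt θ) (hgt2 θ)
  have hint1 : Integrable (fun θ => ∫ t, g θ t ^ 2 ∂ν) P := hprod.integral_prod_left
  calc ∫ θ, (∫ t in u..(u + 1), ‖EE a a' θ N₂ t - EE a a' θ N₁ t‖) ^ 2 ∂P
      ≤ ∫ θ, ∫ t, g θ t ^ 2 ∂ν ∂P :=
        integral_mono_of_nonneg (Eventually.of_forall fun θ => sq_nonneg _) hint1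
          (Eventually.of_forall hstep1)
    _ = ∫ t, ∫ θ, g θ t ^ 2 ∂P ∂ν := integral_integral_swap hprod
    _ ≤ ∫ _t, C * (R : ℝ) ^ ε * HI N₁ N₂ ∂ν := by
        refine integral_mono_of_nonneg
          (Eventually.of_forall fun t => integral_nonneg fun θ => sq_nonneg _)
          (integrable_const _) (Eventually.of_forall fun t => ?_)
        exact hv N₁ N₂ R t h12 h2R hR
    _ = C * (R : ℝ) ^ ε * HI N₁ N₂ := by simp

end Pool.Agent.T2H58.ST
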