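import Pool.Agent.T2H58.ST.Stm
import Pool.Agent.T2H98.RT.PW

/-! Project ST, package EXPN: the product of the shifted sums. -/

set_option autoImplicit false

open MeasureTheory Filter Topology Finset

namespace Pool.Agent.T2H58.ST

open Pool.Agent.T2H98.RT (P tw S A quads gam S_MUL S_OR S_KAP S_DIV S_LIM)

namespace EXPN

open Pool.Agent.T2H98.RT.PW (g g_prod cpow_eq)

lemma split (θ : ℕ → ℝ) (t a : ℝ) (n : ℕ) (hn : n ≠ 0) :
    tw θ n * (n : ℂ) ^ (-(1 / 2 : ℂ) - ((t + a : ℝ) : ℂ) * Complex.I) =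
      g θ t n * (n : ℂ) ^ (-((a : ℂ) * Complex.I)) := by
  unfold g
  rw [mul_assoc, ← Complex.cpow_add _ _ (by exact_mod_cast hn : (n : ℂ) ≠ 0)]
  congr 2
  push_cast
  ring

lemma maps {k : ℕ} {N M : ℕ} (hM : N ^ k ≤ M) (v : Fin k → ℕ)
    (hv : v ∈ Fintype.piFinset (fun _ : Fin k => Finset.Icc 1 N)) : ∏ i, v i ∈ Finset.Icc 1 M := by
  rw [Fintype.mem_piFinset] at hv
  rw [Finset.mem_Icc]
  constructor
  · refine Nat.one_le_iff_ne_zero.mpr (Finset.prod_ne_zero_iff.mpr fun i _ => ?_)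
    have := (Finset.mem_Icc.mp (hv i)).1
    omega
  · calc ∏ i, v i ≤ ∏ _i : Fin k, N :=
          Finset.prod_le_prod' fun i _ => (Finset.mem_Icc.mp (hv i)).2
      _ = N ^ k := by simp
      _ ≤ M := hM

lemma cf_zero {k : ℕ} (a : Fin k → ℝ) (N m : ℕ) (hm : N ^ k < m) : cf a N m = 0 := by
  unfold cf
  refine Finset.sum_eq_zero fun v hv => ?_
  rw [Finset.mem_filter] at hv
  have := (Finset.mem_Icc.mp (maps le_rfl v hv.1)).2
  omega

lemma expand (hMUL : S_MUL) {k : ℕ} (a : Fin k → ℝ) (N M : ℕ) (hM : N ^ k ≤ M) (θ : ℕ → ℝ) (t : ℝ) :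
    PS a θ N t = DC θ (fun m => cf a N m / (Real.sqrt m : ℂ)) M t := by
  classical
  unfold PS S
  rw [Finset.prod_univ_sum]
  have hne : ∀ v ∈ Fintype.piFinset (fun _ : Fin k => Finset.Icc 1 N), ∀ i, v i ≠ 0 := by
    intro v hv i
    rw [Fintype.mem_piFinset] at hv
    have := (Finset.mem_Icc.mp (hv i)).1
    omega
  have h2 : ∀ v ∈ Fintype.piFinset (fun _ : Fin k => Finset.Icc 1 N),
      (∏ j, (tw θ (v j) * (v j : ℂ) ^ (-(1 / 2 : ℂ) - ((t + a j : ℝ) : ℂ) * Complex.I))) =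
        g θ t (∏ i, v i) * ∏ j, (v j : ℂ) ^ (-((a j : ℂ) * Complex.I)) := by
    intro v hv
    rw [← g_prod hMUL θ t v (hne v hv) Finset.univ, ← Finset.prod_mul_distrib]
    exact Finset.prod_congr rfl fun j _ => split θ t (a j) (v j) (hne v hv j)
  rw [Finset.sum_congr rfl h2, ← Finset.sum_fiberwise_of_maps_to (fun v hv => maps hM v hv)]
  unfold DC
  refine Finset.sum_congr rfl fun m hm => ?_
  have hm0 : m ≠ 0 := by
    have := (Finset.mem_Icc.mp hm).1
    omega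
  have h3 : ∑ v ∈ (Fintype.piFinset (fun _ : Fin k => Finset.Icc 1 N)).filter (fun v => ∏ i, v i = m),
      g θ t (∏ i, v i) * ∏ j, (v j : ℂ) ^ (-((a j : ℂ) * Complex.I)) = g θ t m * cf a N m := by
    unfold cf
    rw [Finset.mul_sum]
    exact Finset.sum_congr rfl fun v hv => by rw [(Finset.mem_filter.mp hv).2]
  rw [h3]
  unfold g
  rw [cpow_eq t m hm0]
  push_cast
  ring

end EXPN

theorem pEXPN (h1 : S_MUL) : S_EXPN := by
  intro k a a' N M _ hM
  refine ⟨fun θ t => EXPN.expand h1 a N M hM θ t, ?_⟩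
  unfold dg ip
  have hsub : Finset.Icc 1 (N ^ k) ⊆ Finset.Icc 1 M := Finset.Icc_subset_Icc_right hM
  rw [Finset.sum_subset hsub (fun m hm hm' => by
    have h2 : N ^ k < m := by
      rw [Finset.mem_Icc] at hm hm'
      omega
    rw [EXPN.cf_zero a N m h2, zero_mul, zero_div])]
  refine Finset.sum_congr rfl fun m _ => ?_
  have hs : (Real.sqrt m : ℂ) * (Real.sqrt m : ℂ) = m := by
    rw [← Complex.ofReal_mul, Real.mul_self_sqrt (Nat.cast_nonneg m)]
    simp
  rw [map_div₀, Complex.conj_ofReal, div_mul_div_comm, hs]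

end Pool.Agent.T2H58.ST
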