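import Pool.Agent.T2H58.ST.Stm

/-! Project ST, package FIN1: the almost sure square-root error. -/

set_option autoImplicit false

open MeasureTheory Filter Topology Finset

namespace Pool.Agent.T2H58.ST

open Pool.Agent.T2H98.RT (P tw S A quads gam S_MUL S_OR S_KAP S_DIV S_LIM)

namespace FIN1

lemma pow_id (B j : ℕ) (ε : ℝ) : ((2 : ℝ) ^ (B * j)) ^ (ε / (B + 1)) * ((2 : ℝ) ^ j) ^ (1 + ε / (B + 1)) =
    ((2 : ℝ) ^ j) ^ (1 + ε) := by
  have hB : (B : ℝ) + 1 ≠ 0 := by positivity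
  rw [← Real.rpow_natCast 2 (B * j), ← Real.rpow_natCast 2 j, ← Real.rpow_mul (by norm_num),
    ← Real.rpow_mul (by norm_num), ← Real.rpow_mul (by norm_num), ← Real.rpow_add (by norm_num)]
  congr 1
  push_cast
  field_simp
  ring

lemma sqrt_bound {x K : ℝ} {y e : ℝ} (hK : 0 ≤ K) (hy : 0 ≤ y)
    (h : x ^ 2 ≤ K * y ^ (1 + 2 * e)) : x ≤ Real.sqrt K * y ^ (1 / 2 + e) := by
  have h1 : (y ^ (1 / 2 + e)) ^ 2 = y ^ (1 + 2 * e) := by
    rw [← Real.rpow_natCast, ← Real.rpow_mul hy]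
    congr 1
    push_cast
    ring
  have h2 : x ^ 2 ≤ (Real.sqrt K * y ^ (1 / 2 + e)) ^ 2 := by
    rw [mul_pow, Real.sq_sqrt hK, h1]
    exact h
  exact le_of_sq_le_sq h2 (by positivity)

lemma cont_of (F : (ℕ → ℝ) → ℝ → ℂ) (hc : Continuous (fun q : (ℕ → ℝ) × ℝ => F q.1 q.2)) (θ : ℕ → ℝ) :
    Continuous (fun t : ℝ => F θ t) :=
  hc.comp (Continuous.prodMk continuous_const continuous_id)

end FIN1

theorem pFIN1 (h1 : S_YB) (h2 : S_ZB) (h3 : S_BC) (h4 : S_MEAS) : S_FIN1 := by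
  intro k a a' hk B ε hε
  have hε' : 0 < ε / (B + 1) := by positivity
  obtain ⟨C, hC, hY⟩ := h1 k a a' _ hk hε'
  obtain ⟨C', hC', hZ⟩ := h2 k a a' _ hk hε'
  choose Y hYi hY0 hYe hYb using fun j : ℕ => hY (B * j) j
  choose Z hZi hZ0 hZe hZb using fun j : ℕ => hZ (B * j) j
  have hYae := h3 Y C ε hε (fun j => ⟨hYi j, hY0 j⟩) (by
    intro j
    refine (hYe j).trans (le_of_eq ?_)
    rw [mul_assoc, FIN1.pow_id])
  have hZae := h3 Z C' ε hε (fun j => ⟨hZi j, hZ0 j⟩) (by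
    intro j
    refine (hZe j).trans (le_of_eq ?_)
    rw [mul_assoc, FIN1.pow_id])
  filter_upwards [hYae, hZae] with θ hYθ hZθ
  obtain ⟨K, hK, hKY⟩ := hYθ
  obtain ⟨K', hK', hKZ⟩ := hZθ
  refine ⟨(Real.sqrt K + Real.sqrt K') * 2 ^ (1 / 2 + ε), by positivity, ?_⟩
  intro T N hT hNT
  have hT0 : 0 ≤ T := by linarith
  have hcont : Continuous (fun t : ℝ => EE a a' θ N t) :=
    FIN1.cont_of (fun θ t => EE a a' θ N t) (h4 k a a' N N).1 θ
  -- the dyadic level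
  set n : ℕ := ⌊T⌋₊ with hn
  have hn1 : 1 ≤ n := Nat.le_floor (by exact_mod_cast hT)
  have hnT : (n : ℝ) ≤ T := Nat.floor_le hT0
  have hTn : T < n + 1 := Nat.lt_floor_add_one T
  set j : ℕ := Nat.log 2 n + 1 with hj
  have hnj : n < 2 ^ j := Nat.lt_pow_succ_log_self (by norm_num) n
  have hjn : 2 ^ (Nat.log 2 n) ≤ n := Nat.pow_log_le_self 2 (by omega)
  have hjT : (2 : ℝ) ^ j ≤ 2 * T := by
    have : ((2 ^ (Nat.log 2 n) : ℕ) : ℝ) ≤ T := le_trans (by exact_mod_cast hjn) hnT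
    rw [hj, pow_succ]
    push_cast at this
    linarith
  have hTj : T ≤ (2 : ℝ) ^ j := by
    have : ((n + 1 : ℕ) : ℝ) ≤ ((2 ^ j : ℕ) : ℝ) := by exact_mod_cast hnj
    push_cast at this
    linarith
  have hNj : N ≤ 2 ^ (B * j) := by
    have : (N : ℝ) ≤ ((2 ^ (B * j) : ℕ) : ℝ) := by
      push_cast
      rw [mul_comm B j, pow_mul]
      exact hNT.trans (pow_le_pow_left₀ hT0 hTj B)
    exact_mod_cast this
  have y1 : ‖∫ t in (0:ℝ)..(n : ℝ), EE a a' θ N t‖ ^ 2 ≤ K * ((2:ℝ) ^ j) ^ (1 + 2 * ε) :=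
    (hYb j θ N n hNj hnj.le).trans (hKY j)
  have z1 : (∫ t in (n : ℝ)..((n : ℝ) + 1), ‖EE a a' θ N t‖) ^ 2 ≤ K' * ((2:ℝ) ^ j) ^ (1 + 2 * ε) :=
    (hZb j θ N n hNj hnj).trans (hKZ j)
  have y2 := FIN1.sqrt_bound hK.le (by positivity) y1
  have z0 : 0 ≤ ∫ t in (n : ℝ)..((n : ℝ) + 1), ‖EE a a' θ N t‖ :=
    intervalIntegral.integral_nonneg (by linarith) fun t _ => norm_nonneg _
  have z2 := FIN1.sqrt_bound hK'.le (by positivity) z1
  have hsplit : (∫ t in (0:ℝ)..T, EE a a' θ N t) =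
      (∫ t in (0:ℝ)..(n : ℝ), EE a a' θ N t) + ∫ t in (n : ℝ)..T, EE a a' θ N t :=
    (intervalIntegral.integral_add_adjacent_intervals (hcont.intervalIntegrable _ _)
      (hcont.intervalIntegrable _ _)).symm
  have hlast : ‖∫ t in (n : ℝ)..T, EE a a' θ N t‖ ≤ ∫ t in (n : ℝ)..((n : ℝ) + 1), ‖EE a a' θ N t‖ := by
    refine (intervalIntegral.norm_integral_le_integral_norm hnT).trans ?_
    refine intervalIntegral.integral_mono_interval le_rfl hnT hTn.le ?_ ?_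
    · exact Eventually.of_forall fun t => norm_nonneg _
    · exact hcont.norm.intervalIntegrable _ _
  have hpow : ((2:ℝ) ^ j) ^ (1 / 2 + ε) ≤ 2 ^ (1 / 2 + ε) * T ^ (1 / 2 + ε) := by
    rw [← Real.mul_rpow (by norm_num) hT0]
    exact Real.rpow_le_rpow (by positivity) hjT (by positivity)
  rw [hsplit]
  calc ‖(∫ t in (0:ℝ)..(n : ℝ), EE a a' θ N t) + ∫ t in (n : ℝ)..T, EE a a' θ N t‖
      ≤ Real.sqrt K * ((2:ℝ) ^ j) ^ (1 / 2 + ε) + Real.sqrt K' * ((2:ℝ) ^ j) ^ (1 / 2 + ε) :=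
        (norm_add_le _ _).trans (add_le_add y2 (hlast.trans z2))
    _ = (Real.sqrt K + Real.sqrt K') * ((2:ℝ) ^ j) ^ (1 / 2 + ε) := by ring
    _ ≤ (Real.sqrt K + Real.sqrt K') * (2 ^ (1 / 2 + ε) * T ^ (1 / 2 + ε)) := by gcongr
    _ = (Real.sqrt K + Real.sqrt K') * 2 ^ (1 / 2 + ε) * T ^ (1 / 2 + ε) := by ring

end Pool.Agent.T2H58.ST
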