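import Pool.Agent.T2H58.ST.Stm

/-! package FUB: almost every `θ` works for almost every shift vector. -/

set_option autoImplicit false

open MeasureTheory Filter Topology Finset

namespace Pool.Agent.T2H58.ST

open Pool.Agent.T2H98.RT (P tw S A quads gam S_MUL S_OR S_KAP S_DIV S_LIM)

namespace FUB

lemma cont_S (hM : S_MUL) (N : ℕ) : Continuous (fun q : (ℕ → ℝ) × ℝ => S q.1 N q.2) := by
  unfold Pool.Agent.T2H98.RT.S
  refine continuous_finsetSum _ fun n hn => ?_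
  have hn1 : 1 ≤ n := (mem_Icc.1 hn).1
  have h0 : (n : ℂ) ≠ 0 := by exact_mod_cast (by omega : n ≠ 0)
  refine ((hM.2.2.2 n).comp continuous_fst).mul ?_
  refine Continuous.const_cpow ?_ (Or.inl h0)
  exact continuous_const.sub ((Complex.continuous_ofReal.comp continuous_snd).mul continuous_const)

lemma cont_cf {k : ℕ} (N m : ℕ) : Continuous (fun a : Fin k → ℝ => cf a N m) := by
  unfold cf
  refine continuous_finsetSum _ fun v hv => continuous_finsetProd _ fun j _ => ?_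
  have hv1 : 1 ≤ v j := by
    have := (mem_filter.1 hv).1
    rw [Fintype.mem_piFinset] at this
    exact (mem_Icc.1 (this j)).1
  have h0 : (v j : ℂ) ≠ 0 := by exact_mod_cast (by omega : v j ≠ 0)
  refine Continuous.const_cpow ?_ (Or.inl h0)
  exact ((Complex.continuous_ofReal.comp (continuous_apply j)).mul continuous_const).neg

lemma cont_dg {k : ℕ} (N : ℕ) : Continuous (fun q : (Fin k → ℝ) × (Fin k → ℝ) => dg q.1 q.2 N) := by
  unfold dg
  refine continuous_finsetSum _ fun m _ => ?_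
  refine Continuous.div_const ?_ _
  exact ((cont_cf N m).comp continuous_fst).mul
    (Complex.continuous_conj.comp ((cont_cf N m).comp continuous_snd))

lemma cont_PS (hM : S_MUL) {k : ℕ} (N : ℕ) :
    Continuous (fun q : ((ℕ → ℝ) × (Fin k → ℝ)) × ℝ => PS q.1.2 q.1.1 N q.2) := by
  unfold PS
  refine continuous_finsetProd _ fun j _ => ?_
  have h1 : Continuous (fun q : ((ℕ → ℝ) × (Fin k → ℝ)) × ℝ => ((q.1.1, q.2 + q.1.2 j) : (ℕ → ℝ) × ℝ)) := by
    fun_prop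
  have h2 := (cont_S hM N).comp h1
  simpa only [Function.comp_def] using h2

lemma cont_EE (hM : S_MUL) {k : ℕ} (N : ℕ) :
    Continuous (fun q : ((ℕ → ℝ) × ((Fin k → ℝ) × (Fin k → ℝ))) × ℝ => EE q.1.2.1 q.1.2.2 q.1.1 N q.2) := by
  have h1 : Continuous (fun q : ((ℕ → ℝ) × ((Fin k → ℝ) × (Fin k → ℝ))) × ℝ =>
      (((q.1.1, q.1.2.1), q.2) : ((ℕ → ℝ) × (Fin k → ℝ)) × ℝ)) := by fun_prop
  have h2 : Continuous (fun q : ((ℕ → ℝ) × ((Fin k → ℝ) × (Fin k → ℝ))) × ℝ =>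
      (((q.1.1, q.1.2.2), q.2) : ((ℕ → ℝ) × (Fin k → ℝ)) × ℝ)) := by fun_prop
  have h3 : Continuous (fun q : ((ℕ → ℝ) × ((Fin k → ℝ) × (Fin k → ℝ))) × ℝ => q.1.2) := by fun_prop
  have e1 := (cont_PS hM N).comp h1
  have e2 := Complex.continuous_conj.comp ((cont_PS hM N).comp h2)
  have e3 := (cont_dg N).comp h3
  simp only [Function.comp_def] at e1 e2 e3
  unfold EE
  exact (e1.mul e2).sub e3

lemma cont_int (hM : S_MUL) {k : ℕ} (N : ℕ) (T : ℝ) :
    Continuous (fun q : (ℕ → ℝ) × ((Fin k → ℝ) × (Fin k → ℝ)) =>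
      ∫ t in (0:ℝ)..T, EE q.2.1 q.2.2 q.1 N t) := by
  apply intervalIntegral.continuous_parametric_intervalIntegral_of_continuous'
  have := cont_EE (k := k) hM N
  simpa only [Function.uncurry_def] using this

/-- the estimate -/
def Est {k : ℕ} (a a' : Fin k → ℝ) (θ : ℕ → ℝ) (B : ℕ) (ε K : ℝ) : Prop :=
  ∀ (T : ℝ) (N : ℕ), 1 ≤ T → (N : ℝ) ≤ T ^ B → ‖∫ t in (0:ℝ)..T, EE a a' θ N t‖ ≤ K * T ^ (1 / 2 + ε)

lemma closed (hM : S_MUL) {k : ℕ} (B : ℕ) (ε K : ℝ) :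
    IsClosed {q : (ℕ → ℝ) × ((Fin k → ℝ) × (Fin k → ℝ)) | Est q.2.1 q.2.2 q.1 B ε K} := by
  unfold Est
  simp only [Set.ofPred_forall]
  refine isClosed_iInter fun T => isClosed_iInter fun N => isClosed_iInter fun _ => isClosed_iInter fun _ => ?_
  exact isClosed_le (cont_int hM N T).norm continuous_const

lemma Est_iff {k : ℕ} (a a' : Fin k → ℝ) (θ : ℕ → ℝ) :
    (∀ (B : ℕ) (ε : ℝ), 0 < ε → ∃ K : ℝ, 0 < K ∧ Est a a' θ B ε K) ↔
      ∀ B n : ℕ, ∃ K : ℕ, Est a a' θ B (1 / ((n : ℝ) + 1)) K := by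
  constructor
  · intro h B n
    obtain ⟨K, hK, h1⟩ := h B (1 / ((n : ℝ) + 1)) (by positivity)
    obtain ⟨m, hm⟩ := exists_nat_ge K
    refine ⟨m, fun T N hT hN => (h1 T N hT hN).trans ?_⟩
    apply mul_le_mul_of_nonneg_right hm
    have : 0 < T := by linarith
    positivity
  · intro h B ε hε
    obtain ⟨n, hn⟩ := exists_nat_one_div_lt hε
    obtain ⟨K, hK⟩ := h B n
    refine ⟨(K : ℝ) + 1, by positivity, fun T N hT hN => (hK T N hT hN).trans ?_⟩
    have hT0 : 0 < T := by linarith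
    apply mul_le_mul (by linarith) _ (by positivity) (by positivity)
    apply Real.rpow_le_rpow_of_exponent_le hT
    linarith

lemma meas (hM : S_MUL) (k : ℕ) :
    MeasurableSet {q : (ℕ → ℝ) × ((Fin k → ℝ) × (Fin k → ℝ)) |
      ∀ (B : ℕ) (ε : ℝ), 0 < ε → ∃ K : ℝ, 0 < K ∧ Est q.2.1 q.2.2 q.1 B ε K} := by
  simp only [Est_iff]
  simp only [Set.ofPred_forall, Set.ofPred_exists]
  refine MeasurableSet.iInter fun B => MeasurableSet.iInter fun n => MeasurableSet.iUnion fun K => ?_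
  exact (closed hM B _ _).measurableSet

end FUB

/-- for fixed shifts, with all `B`, `ε` after the exceptional set -/
theorem fixed (hF : S_FIN1) (k : ℕ) (hk : 1 ≤ k) (a a' : Fin k → ℝ) :
    ∀ᵐ θ ∂P, ∀ (B : ℕ) (ε : ℝ), 0 < ε → ∃ K : ℝ, 0 < K ∧ FUB.Est a a' θ B ε K := by
  have h : ∀ B n : ℕ, ∀ᵐ θ ∂P, ∃ K : ℝ, 0 < K ∧ FUB.Est a a' θ B (1 / ((n : ℝ) + 1)) K := by
    intro B n
    exact hF k a a' hk B (1 / ((n : ℝ) + 1)) (by positivity)
  have h2 : ∀ᵐ θ ∂P, ∀ B n : ℕ, ∃ K : ℝ, 0 < K ∧ FUB.Est a a' θ B (1 / ((n : ℝ) + 1)) K := by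
    rw [ae_all_iff]; intro B
    rw [ae_all_iff]; intro n
    exact h B n
  filter_upwards [h2] with θ hθ
  rw [FUB.Est_iff]
  intro B n
  obtain ⟨K, hK, h1⟩ := hθ B n
  obtain ⟨m, hm⟩ := exists_nat_ge K
  refine ⟨m, fun T N hT hN => (h1 T N hT hN).trans ?_⟩
  apply mul_le_mul_of_nonneg_right hm
  have : 0 < T := by linarith
  positivity

/-- almost every `θ` works for almost all shifts -/
theorem fub (hM : S_MUL) (hF : S_FIN1) :
    ∀ᵐ θ ∂P, ∀ k : ℕ, 1 ≤ k → ∀ᵐ q : (Fin k → ℝ) × (Fin k → ℝ),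
      ∀ (B : ℕ) (ε : ℝ), 0 < ε → ∃ K : ℝ, 0 < K ∧ FUB.Est q.1 q.2 θ B ε K := by
  rw [ae_all_iff]
  intro k
  by_cases hk : 1 ≤ k
  · have h := (Measure.ae_ae_comm (μ := P) (ν := (volume : Measure ((Fin k → ℝ) × (Fin k → ℝ))))
      (p := fun θ q => ∀ (B : ℕ) (ε : ℝ), 0 < ε → ∃ K : ℝ, 0 < K ∧ FUB.Est q.1 q.2 θ B ε K) (FUB.meas hM k)).2
      (Filter.Eventually.of_forall fun q => fixed hF k hk q.1 q.2)
    filter_upwards [h] with θ hθ _
    exact hθ
  · exact Filter.Eventually.of_forall fun θ h => absurd h hk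

end Pool.Agent.T2H58.ST
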