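import Pool.Agent.T2H58.ST.Stm

/-! package LEV -/

set_option autoImplicit false

open MeasureTheory Filter Topology Finset

namespace Pool.Agent.T2H58.ST

namespace LEV

lemma part (i n : ℕ) : ∑ l ∈ range n, HI (l * 2 ^ i) ((l + 1) * 2 ^ i) = HI 0 (n * 2 ^ i) := by
  induction n with
  | zero => simp [HI]
  | succ n ih =>
    rw [Finset.sum_range_succ, ih]
    unfold HI
    rw [← Finset.sum_union]
    · congr 1
      rw [Finset.Ioc_union_Ioc_eq_Ioc (Nat.zero_le _) (by gcongr; omega)]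
    · rw [Finset.disjoint_left]
      intro x hx hx'
      simp only [mem_Ioc] at hx hx'
      omega

lemma HI0 (M : ℕ) : HI 0 M = HH M := by
  unfold HI HH
  congr 1

lemma HH_le (m : ℕ) : HH (2 ^ m) ≤ (m : ℝ) + 1 := by
  have h := harmonic_le_one_add_log (2 ^ m)
  have h2 : ((harmonic (2 ^ m) : ℚ) : ℝ) = HH (2 ^ m) := by
    rw [harmonic_eq_sum_Icc]
    unfold HH
    push_cast
    simp [one_div]
  rw [h2] at h
  have h3 : Real.log ((2 ^ m : ℕ) : ℝ) = m * Real.log 2 := by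
    push_cast
    rw [Real.log_pow]
  rw [h3] at h
  have h4 : Real.log 2 ≤ 1 := by
    have := Real.log_two_lt_d9
    linarith
  have : (m : ℝ) * Real.log 2 ≤ m * 1 := by
    apply mul_le_mul_of_nonneg_left h4 (Nat.cast_nonneg _)
  linarith

end LEV

theorem pLEV : S_LEV := by
  constructor
  · intro m
    have : ∀ i ∈ range (m + 1), ∑ l ∈ range (2 ^ (m - i)), HI (l * 2 ^ i) ((l + 1) * 2 ^ i) = HH (2 ^ m) := by
      intro i hi
      have hi' : i ≤ m := by have := mem_range.1 hi; omega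
      rw [LEV.part, LEV.HI0]
      congr 1
      rw [← pow_add]
      congr 1
      omega
    rw [Finset.sum_congr rfl this]
    simp
  · intro ε hε
    -- (m+1)^4 ≤ C 2^{mε}
    have hb : 1 < (2 : ℝ) ^ ε := Real.one_lt_rpow (by norm_num) hε
    have ht : Tendsto (fun n : ℕ => (n : ℝ) ^ 4 / ((2 : ℝ) ^ ε) ^ n) atTop (𝓝 0) :=
      tendsto_pow_const_div_const_pow_of_one_lt 4 hb
    obtain ⟨K, hK⟩ := ht.bddAbove_range
    have hK' : ∀ n : ℕ, (n : ℝ) ^ 4 / ((2 : ℝ) ^ ε) ^ n ≤ K := fun n => hK ⟨n, rfl⟩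
    refine ⟨|K| * (2 : ℝ) ^ ε + 1, by positivity, fun m => ?_⟩
    have h1 := hK' (m + 1)
    have h2 : ((m : ℝ) + 1) ^ 4 ≤ K * ((2 : ℝ) ^ ε) ^ (m + 1) := by
      rw [div_le_iff₀ (by positivity)] at h1
      push_cast at h1
      exact h1
    have h3 : ((2 : ℝ) ^ m) ^ ε = ((2 : ℝ) ^ ε) ^ m := by
      rw [← Real.rpow_natCast, ← Real.rpow_natCast, ← Real.rpow_mul (by norm_num), ← Real.rpow_mul (by norm_num), mul_comm]
    have h4 : 0 < ((2 : ℝ) ^ ε) ^ m := by positivity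
    calc ((m : ℝ) + 1) ^ 3 * HH (2 ^ m) ≤ ((m : ℝ) + 1) ^ 3 * ((m : ℝ) + 1) := by
          apply mul_le_mul_of_nonneg_left (LEV.HH_le m) (by positivity)
      _ = ((m : ℝ) + 1) ^ 4 := by ring
      _ ≤ K * ((2 : ℝ) ^ ε) ^ (m + 1) := h2
      _ ≤ |K| * ((2 : ℝ) ^ ε) ^ (m + 1) := by
          apply mul_le_mul_of_nonneg_right (le_abs_self K) (by positivity)
      _ = |K| * (2 : ℝ) ^ ε * ((2 : ℝ) ^ ε) ^ m := by rw [pow_succ]; ring
      _ ≤ (|K| * (2 : ℝ) ^ ε + 1) * ((2 : ℝ) ^ m) ^ ε := by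
          rw [h3]
          apply mul_le_mul_of_nonneg_right (by linarith) h4.le

end Pool.Agent.T2H58.ST
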