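import Pool.Agent.T2H58.ST.Stm

set_option autoImplicit false

open MeasureTheory Filter Topology Finset

namespace Pool.Agent.T2H58.ST

open Pool.Agent.T2H98.RT (P tw S A quads gam S_MUL S_OR S_KAP S_DIV S_LIM)

namespace LOGW

theorem log_ratio (r s : ℕ) (hr : 1 ≤ r) (hrs : r < s) :
    1 / (Real.log s - Real.log r) / s ≤ 1 / ((s - r : ℕ) : ℝ) := by
  have hr0 : (0 : ℝ) < r := by exact_mod_cast (by omega : 0 < r)
  have hs0 : (0 : ℝ) < s := by exact_mod_cast (by omega : 0 < s)
  have hd : (0 : ℝ) < (s : ℝ) - r := by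
    have : (r : ℝ) < s := by exact_mod_cast hrs
    linarith
  have h1 : ((s : ℝ) - r) / s ≤ Real.log s - Real.log r := by
    rw [← Real.log_div hs0.ne' hr0.ne']
    have h := Real.one_sub_inv_le_log_of_pos (div_pos hs0 hr0)
    calc ((s : ℝ) - r) / s = 1 - (s / r : ℝ)⁻¹ := by field_simp
      _ ≤ _ := h
  have h2 : 0 < ((s : ℝ) - r) / s := div_pos hd hs0
  rw [Nat.cast_sub hrs.le, div_div, div_le_div_iff₀ (mul_pos (lt_of_lt_of_le h2 h1) hs0) hd]
  rw [div_le_iff₀ hs0] at h1
  linarith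

theorem log_ratio' (r s : ℕ) (hs : 1 ≤ s) (hrs : s < r) :
    1 / (Real.log r - Real.log s) / s ≤ 1 / ((r - s : ℕ) : ℝ) + 1 / (s : ℝ) := by
  have hr0 : (0 : ℝ) < r := by exact_mod_cast (by omega : 0 < r)
  have hs0 : (0 : ℝ) < s := by exact_mod_cast (by omega : 0 < s)
  have hd : (0 : ℝ) < (r : ℝ) - s := by
    have : (s : ℝ) < r := by exact_mod_cast hrs
    linarith
  have h1 : ((r : ℝ) - s) / r ≤ Real.log r - Real.log s := by
    rw [← Real.log_div hr0.ne' hs0.ne']
    have h := Real.one_sub_inv_le_log_of_pos (div_pos hr0 hs0)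
    calc ((r : ℝ) - s) / r = 1 - (r / s : ℝ)⁻¹ := by field_simp
      _ ≤ _ := h
  have h2 : 0 < ((r : ℝ) - s) / r := div_pos hd hr0
  have h3 : 1 / (Real.log r - Real.log s) ≤ r / ((r : ℝ) - s) := by
    rw [div_le_div_iff₀ (lt_of_lt_of_le h2 h1) hd]
    rw [div_le_iff₀ hr0] at h1
    linarith
  calc 1 / (Real.log r - Real.log s) / s ≤ r / ((r : ℝ) - s) / s :=
        div_le_div_of_nonneg_right h3 hs0.le
    _ = 1 / ((r - s : ℕ) : ℝ) + 1 / (s : ℝ) := by
        rw [Nat.cast_sub hrs.le]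
        field_simp
        ring

/-- sum over the `s > r` -/
theorem sum_gt (M r : ℕ) :
    ∑ s ∈ (Icc 1 M).filter (fun s => r < s), 1 / ((s - r : ℕ) : ℝ) ≤ HH M := by
  unfold HH
  rw [← Finset.sum_image (f := fun g : ℕ => 1 / (g : ℝ)) (g := fun s => s - r)
    (s := (Icc 1 M).filter (fun s => r < s))]
  · refine Finset.sum_le_sum_of_subset_of_nonneg ?_ (fun i _ _ => by positivity)
    intro d hd
    simp only [Finset.mem_image, Finset.mem_filter, Finset.mem_Icc] at hd
    obtain ⟨s, ⟨⟨h1, h2⟩, h3⟩, rfl⟩ := hd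
    rw [Finset.mem_Icc]
    omega
  · intro a ha b hb hab
    simp only [Finset.coe_filter, Finset.mem_Icc, Set.mem_ofPred_eq] at ha hb hab
    omega

/-- sum over the `s < r` -/
theorem sum_lt (M r : ℕ) (hr : r ≤ M) :
    ∑ s ∈ (Icc 1 M).filter (fun s => s < r), 1 / ((r - s : ℕ) : ℝ) ≤ HH M := by
  unfold HH
  rw [← Finset.sum_image (f := fun g : ℕ => 1 / (g : ℝ)) (g := fun s => r - s)
    (s := (Icc 1 M).filter (fun s => s < r))]
  · refine Finset.sum_le_sum_of_subset_of_nonneg ?_ (fun i _ _ => by positivity)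
    intro d hd
    simp only [Finset.mem_image, Finset.mem_filter, Finset.mem_Icc] at hd
    obtain ⟨s, ⟨⟨h1, h2⟩, h3⟩, rfl⟩ := hd
    rw [Finset.mem_Icc]
    omega
  · intro a ha b hb hab
    simp only [Finset.coe_filter, Finset.mem_Icc, Set.mem_ofPred_eq] at ha hb hab
    omega

theorem sum_sub (M : ℕ) (p : ℕ → Prop) [DecidablePred p] :
    ∑ s ∈ (Icc 1 M).filter p, 1 / (s : ℝ) ≤ HH M := by
  unfold HH
  exact Finset.sum_le_sum_of_subset_of_nonneg (Finset.filter_subset _ _)
    (fun i _ _ => by positivity)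

end LOGW

theorem pLOGW : S_LOGW := by
  intro M
  refine ⟨⟨?_, ?_, ?_⟩, ⟨?_, ?_, ?_⟩⟩
  · intro m n
    unfold Wl
    positivity
  · intro g r s hg hr hs
    unfold Wl
    have hg0 : ((g : ℕ) : ℝ) ≠ 0 := by exact_mod_cast (by omega : g ≠ 0)
    have hr0 : ((r : ℕ) : ℝ) ≠ 0 := by exact_mod_cast (by omega : r ≠ 0)
    have hs0 : ((s : ℕ) : ℝ) ≠ 0 := by exact_mod_cast (by omega : s ≠ 0)
    push_cast
    rw [Real.log_mul hg0 hr0, Real.log_mul hg0 hs0]
    congr 2
    ring
  · intro r hr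
    rw [Finset.mem_Icc] at hr
    have hsplit : (Icc 1 M).filter (fun s => s ≠ r) =
        (Icc 1 M).filter (fun s => r < s) ∪ (Icc 1 M).filter (fun s => s < r) := by
      ext s
      simp only [Finset.mem_filter, Finset.mem_union]
      constructor
      · rintro ⟨h1, h2⟩
        rcases lt_or_gt_of_ne h2 with h | h
        · exact Or.inr ⟨h1, h⟩
        · exact Or.inl ⟨h1, h⟩
      · rintro (⟨h1, h2⟩ | ⟨h1, h2⟩)
        · exact ⟨h1, by omega⟩
        · exact ⟨h1, by omega⟩
    have hdisj : Disjoint ((Icc 1 M).filter (fun s => r < s)) ((Icc 1 M).filter (fun s => s < r)) := by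
      rw [Finset.disjoint_filter]
      intro s _ h1
      omega
    rw [hsplit, Finset.sum_union hdisj]
    have h1 : ∑ s ∈ (Icc 1 M).filter (fun s => r < s), Wl r s / (s : ℝ) ≤ HH M := by
      refine le_trans (Finset.sum_le_sum ?_) (LOGW.sum_gt M r)
      intro s hs
      rw [Finset.mem_filter, Finset.mem_Icc] at hs
      unfold Wl
      have hlog : Real.log r < Real.log s := by
        refine Real.log_lt_log ?_ ?_
        · exact_mod_cast (by omega : 0 < r)
        · exact_mod_cast hs.2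
      rw [abs_sub_comm, abs_of_pos (sub_pos.mpr hlog)]
      exact LOGW.log_ratio r s hr.1 hs.2
    have h2 : ∑ s ∈ (Icc 1 M).filter (fun s => s < r), Wl r s / (s : ℝ) ≤ HH M + HH M := by
      refine le_trans (Finset.sum_le_sum (g := fun s => 1 / ((r - s : ℕ) : ℝ) + 1 / (s : ℝ)) ?_) ?_
      · intro s hs
        rw [Finset.mem_filter, Finset.mem_Icc] at hs
        unfold Wl
        have hlog : Real.log s < Real.log r := by
          refine Real.log_lt_log ?_ ?_
          · exact_mod_cast (by omega : 0 < s)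
          · exact_mod_cast hs.2
        rw [abs_of_pos (sub_pos.mpr hlog)]
        exact LOGW.log_ratio' r s hs.1.1 hs.2
      · rw [Finset.sum_add_distrib]
        exact add_le_add (LOGW.sum_lt M r hr.2) (LOGW.sum_sub M _)
    linarith
  · intro m n
    norm_num
  · intro g r s _ _ _
    rfl
  · intro r _
    exact LOGW.sum_sub M _

end Pool.Agent.T2H58.ST
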