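import Pool.Agent.T2H58.ST.Stm
import Pool.Agent.T2H98.RT.QUAD

/-! package QB (helper16) -/

set_option autoImplicit false

open MeasureTheory Filter Topology Finset

namespace Pool.Agent.T2H58.ST

open Pool.Agent.T2H98.RT (P tw S A quads gam S_MUL S_OR S_KAP S_DIV S_LIM)

namespace QB

open Pool.Agent.T2H98.RT.QUAD (red struct mem_quads inj mapsTo)

open Classical in
/-- the summand in the new variables -/
noncomputable def Fw (W : ℕ → ℕ → ℝ) (U : Finset ℕ) (K : ℝ) (w : (ℕ × ℕ) × (ℕ × ℕ)) : ℝ :=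
  K ^ 4 * (if w.1.1 * w.2.1 ∈ U then 1 / ((w.1.1 : ℝ) * w.2.1) else 0) * (1 / (w.1.2 : ℝ)) *
    (W w.2.1 w.2.2 / (w.2.2 : ℝ))

lemma Fw_nonneg (W : ℕ → ℕ → ℝ) (hW : ∀ m n, 0 ≤ W m n) (U : Finset ℕ) (K : ℝ) (hK : 0 ≤ K)
    (w : (ℕ × ℕ) × (ℕ × ℕ)) : 0 ≤ Fw W U K w := by
  unfold Fw
  have := hW w.2.1 w.2.2
  split_ifs <;> positivity

lemma summand (W : ℕ → ℕ → ℝ) (M : ℕ) (U : Finset ℕ) (K L : ℝ) (c d : ℕ → ℝ) (hK : 0 ≤ K)
    (hW : Wt W M L) (h0 : ∀ m, 0 ≤ c m ∧ 0 ≤ d m)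
    (h1 : ∀ m ∈ Icc 1 M, c m ≤ K / Real.sqrt m ∧ d m ≤ K / Real.sqrt m)
    (h2 : ∀ m ∈ Icc 1 M, m ∉ U → c m = 0) {q : (ℕ × ℕ) × (ℕ × ℕ)} (hq : q ∈ quads M) :
    c q.1.1 * d q.1.2 * (c q.2.1 * d q.2.2) * W q.1.1 q.1.2 ≤ Fw W U K (red q) := by
  obtain ⟨⟨m, n⟩, ⟨m', n'⟩⟩ := q
  have hmap := mapsTo M _ hq
  obtain ⟨⟨g1, g2⟩, ⟨g3, g4⟩, g5, g6⟩ := mem_quads hq
  simp only at g1 g2 g3 g4 g5 g6
  obtain ⟨s1, s2, s3, s4⟩ := struct g1.1 g2.1 g3.1 g4.1 g5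
  unfold red at hmap ⊢
  unfold Fw
  simp only [mem_product, mem_filter, mem_Icc] at hmap
  simp only
  obtain ⟨g, hg⟩ : ∃ g, g = m.gcd n := ⟨_, rfl⟩
  obtain ⟨g', hg'⟩ : ∃ g', g' = m'.gcd n' := ⟨_, rfl⟩
  obtain ⟨r, hr⟩ : ∃ r, r = m / m.gcd n := ⟨_, rfl⟩
  obtain ⟨s, hs⟩ : ∃ s, s = n / m.gcd n := ⟨_, rfl⟩
  rw [← hr, ← hs, ← hg, ← hg'] at hmap ⊢
  rw [← hr, ← hg] at s1
  rw [← hs, ← hg] at s2
  rw [← hr, ← hg'] at s3
  rw [← hs, ← hg'] at s4
  have p1 : (0 : ℝ) < g := by exact_mod_cast (by omega : 0 < g)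
  have p2 : (0 : ℝ) < g' := by exact_mod_cast (by omega : 0 < g')
  have p3 : (0 : ℝ) < r := by exact_mod_cast (by omega : 0 < r)
  have p4 : (0 : ℝ) < s := by exact_mod_cast (by omega : 0 < s)
  have e1 : (m : ℝ) = g * r := by exact_mod_cast s1
  have e2 : (n : ℝ) = g * s := by exact_mod_cast s2
  have e3 : (m' : ℝ) = g' * r := by exact_mod_cast s3
  have e4 : (n' : ℝ) = g' * s := by exact_mod_cast s4
  have hWmn : W m n = W r s := by
    rw [s1, s2]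
    exact hW.2.1 g r s (by omega) (by omega) (by omega)
  have hW0 := hW.1 r s
  have hm : m ∈ Icc 1 M := by rw [mem_Icc]; exact g1
  have hn : n ∈ Icc 1 M := by rw [mem_Icc]; exact g2
  have hm' : m' ∈ Icc 1 M := by rw [mem_Icc]; exact g3
  have hn' : n' ∈ Icc 1 M := by rw [mem_Icc]; exact g4
  by_cases hU : m ∈ U
  · rw [← s1, if_pos hU, hWmn]
    have hsq : Real.sqrt m * Real.sqrt n * (Real.sqrt m' * Real.sqrt n') = g * g' * (r * s) := by
      rw [← Real.sqrt_mul (by positivity), ← Real.sqrt_mul (by positivity),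
        ← Real.sqrt_mul (by positivity), e1, e2,
        e3, e4, show ((g : ℝ) * r * (g * s) * (g' * r * (g' * s))) = (g * g' * (r * s)) ^ 2 by ring,
        Real.sqrt_sq (by positivity)]
    have b1 : c m * d n * (c m' * d n') ≤
        K / Real.sqrt m * (K / Real.sqrt n) * (K / Real.sqrt m' * (K / Real.sqrt n')) := by
      have x1 := (h1 m hm).1
      have x2 := (h1 n hn).2
      have x3 := (h1 m' hm').1
      have x4 := (h1 n' hn').2
      have y1 := (h0 m).1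
      have y2 := (h0 n).2
      have y3 := (h0 m').1
      have y4 := (h0 n').2
      apply mul_le_mul
      · exact mul_le_mul x1 x2 y2 (by positivity)
      · exact mul_le_mul x3 x4 y4 (by positivity)
      · positivity
      · positivity
    have b2 : K / Real.sqrt m * (K / Real.sqrt n) * (K / Real.sqrt m' * (K / Real.sqrt n')) =
        K ^ 4 * (1 / ((g : ℝ) * r)) * (1 / (g' : ℝ)) * (1 / (s : ℝ)) := by
      have : K / Real.sqrt m * (K / Real.sqrt n) * (K / Real.sqrt m' * (K / Real.sqrt n')) =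
          K ^ 4 / (Real.sqrt m * Real.sqrt n * (Real.sqrt m' * Real.sqrt n')) := by
        rw [div_mul_div_comm, div_mul_div_comm, div_mul_div_comm]
        ring
      rw [this, hsq]
      field_simp
    calc c m * d n * (c m' * d n') * W r s ≤
          K ^ 4 * (1 / ((g : ℝ) * r)) * (1 / (g' : ℝ)) * (1 / (s : ℝ)) * W r s :=
          mul_le_mul_of_nonneg_right (b1.trans (le_of_eq b2)) hW0
      _ = _ := by ring
  · rw [h2 m hm hU]
    rw [zero_mul, zero_mul, zero_mul]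
    have := hW.1 r s
    split_ifs <;> positivity

/-- the sum over the factorisations -/
lemma divs (M : ℕ) (U : Finset ℕ) (hU : U ⊆ Icc 1 M) :
    ∑ q ∈ ((Icc 1 M) ×ˢ (Icc 1 M)).filter (fun q : ℕ × ℕ => q.1 * q.2 ∈ U),
      1 / ((q.1 : ℝ) * q.2) ≤ ∑ m ∈ U, (m.divisors.card : ℝ) / m := by
  have hmap : ∀ q ∈ ((Icc 1 M) ×ˢ (Icc 1 M)).filter (fun q : ℕ × ℕ => q.1 * q.2 ∈ U),
      q.1 * q.2 ∈ U := fun q hq => (mem_filter.1 hq).2
  rw [← sum_fiberwise_of_maps_to hmap]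
  refine sum_le_sum fun m hm => ?_
  have hm1 : 1 ≤ m := (mem_Icc.1 (hU hm)).1
  have h1 : ∀ q ∈ (((Icc 1 M) ×ˢ (Icc 1 M)).filter (fun q : ℕ × ℕ => q.1 * q.2 ∈ U)).filter
      (fun q => q.1 * q.2 = m), 1 / ((q.1 : ℝ) * q.2) = 1 / (m : ℝ) := by
    intro q hq
    have := (mem_filter.1 hq).2
    rw [← this]
    push_cast
    rfl
  rw [sum_congr rfl h1, sum_const, nsmul_eq_mul, mul_one_div]
  apply div_le_div_of_nonneg_right _ (by positivity)
  have h2 : ((((Icc 1 M) ×ˢ (Icc 1 M)).filter (fun q : ℕ × ℕ => q.1 * q.2 ∈ U)).filter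
      (fun q => q.1 * q.2 = m)).card ≤ m.divisors.card := by
    apply card_le_card_of_injOn (fun q => q.1)
    · intro q hq
      rw [mem_coe, mem_filter] at hq
      show q.1 ∈ (m.divisors : Set ℕ)
      rw [mem_coe, Nat.mem_divisors]
      exact ⟨⟨q.2, hq.2.symm⟩, by omega⟩
    · intro q hq q' hq' h
      rw [mem_coe, mem_filter, mem_filter, mem_product, mem_Icc, mem_Icc] at hq hq'
      simp only at h
      have h3 : q.1 * q.2 = q.1 * q'.2 := by rw [hq.2, h, hq'.2]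
      exact Prod.ext h (Nat.eq_of_mul_eq_mul_left (by omega) h3)
  exact_mod_cast h2

end QB

open QB Pool.Agent.T2H98.RT.QUAD in
theorem pQB : S_QB := by
  classical
  intro W M U K L c d hK hL hW hU h0 h1 h2
  have hF0 := Fw_nonneg W hW.1 U K hK
  -- change of variables
  have s1 : QW W c d M ≤ ∑ w ∈ ((Icc 1 M) ×ˢ (Icc 1 M)) ×ˢ
      ((Icc 1 M) ×ˢ (Icc 1 M)).filter (fun q : ℕ × ℕ => q.1 ≠ q.2), Fw W U K w := by
    unfold QW
    refine (sum_le_sum fun q hq => summand W M U K L c d hK hW h0 h1 h2 hq).trans ?_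
    rw [← sum_image (f := fun w => Fw W U K w) (inj M)]
    apply sum_le_sum_of_subset_of_nonneg
    · intro w hw
      rw [mem_image] at hw
      obtain ⟨q, hq, rfl⟩ := hw
      exact mapsTo M q hq
    · intro w _ _
      exact hF0 w
  refine s1.trans ?_
  -- iterated sums
  have s2 : ∑ w ∈ ((Icc 1 M) ×ˢ (Icc 1 M)) ×ˢ
      ((Icc 1 M) ×ˢ (Icc 1 M)).filter (fun q : ℕ × ℕ => q.1 ≠ q.2), Fw W U K w =
      ∑ g ∈ Icc 1 M, ∑ g' ∈ Icc 1 M, ∑ r ∈ Icc 1 M, ∑ s ∈ (Icc 1 M).filter (fun s => s ≠ r),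
        Fw W U K ((g, g'), (r, s)) := by
    rw [sum_product, sum_product]
    refine sum_congr rfl fun g _ => sum_congr rfl fun g' _ => ?_
    rw [sum_filter, sum_product]
    refine sum_congr rfl fun r _ => ?_
    rw [sum_filter]
    refine sum_congr rfl fun s _ => ?_
    simp only [ne_comm]
  rw [s2]
  have hK4 : 0 ≤ K ^ 4 := by positivity
  have s3 : ∀ g ∈ Icc 1 M, ∀ g' ∈ Icc 1 M, ∀ r ∈ Icc 1 M,
      ∑ s ∈ (Icc 1 M).filter (fun s => s ≠ r), Fw W U K ((g, g'), (r, s)) ≤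
      K ^ 4 * L * (1 / (g' : ℝ)) * (if g * r ∈ U then 1 / ((g : ℝ) * r) else 0) := by
    intro g _ g' _ r hr
    unfold Fw
    simp only
    rw [← mul_sum]
    have h3 := hW.2.2 r hr
    have h4 : 0 ≤ K ^ 4 * (if g * r ∈ U then 1 / ((g : ℝ) * r) else 0) * (1 / (g' : ℝ)) := by
      split_ifs <;> positivity
    calc _ ≤ K ^ 4 * (if g * r ∈ U then 1 / ((g : ℝ) * r) else 0) * (1 / (g' : ℝ)) * L :=
          mul_le_mul_of_nonneg_left h3 h4
      _ = _ := by ring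
  refine (sum_le_sum fun g hg => sum_le_sum fun g' hg' => sum_le_sum fun r hr =>
    s3 g hg g' hg' r hr).trans ?_
  have s4 : ∑ g ∈ Icc 1 M, ∑ g' ∈ Icc 1 M, ∑ r ∈ Icc 1 M,
      K ^ 4 * L * (1 / (g' : ℝ)) * (if g * r ∈ U then 1 / ((g : ℝ) * r) else 0) =
      K ^ 4 * L * HH M * ∑ q ∈ ((Icc 1 M) ×ˢ (Icc 1 M)).filter (fun q : ℕ × ℕ => q.1 * q.2 ∈ U),
        1 / ((q.1 : ℝ) * q.2) := by
    rw [sum_filter, sum_product, mul_sum]
    refine sum_congr rfl fun g _ => ?_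
    unfold HH
    have e1 : ∀ g' ∈ Icc 1 M, ∑ r ∈ Icc 1 M,
        K ^ 4 * L * (1 / (g' : ℝ)) * (if g * r ∈ U then 1 / ((g : ℝ) * r) else 0) =
        K ^ 4 * L * (1 / (g' : ℝ)) * ∑ r ∈ Icc 1 M, (if g * r ∈ U then 1 / ((g : ℝ) * r) else 0) := by
      intro g' _
      rw [mul_sum]
    rw [sum_congr rfl e1, ← sum_mul, ← mul_sum]
  rw [s4]
  refine mul_le_mul_of_nonneg_left (divs M U hU) ?_
  have : 0 ≤ HH M := by unfold HH; positivity
  positivity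

end Pool.Agent.T2H58.ST
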