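import Pool.Agent.T2H58.ST.Stm

/-! Package QINC of project ST (helper58), by helper94. -/

set_option autoImplicit false

open MeasureTheory Filter Topology Finset

namespace Pool.Agent.T2H58.ST

open Pool.Agent.T2H98.RT (P tw S A quads gam S_MUL S_OR S_KAP S_DIV S_LIM)

theorem pQINC (h1 : S_CFB) (h2 : S_UB) (h3 : S_QB) (h4 : S_HAR) : S_QINC := by
  intro k ε hk hε
  have hk0 : (0 : ℝ) < k := by exact_mod_cast hk
  obtain ⟨δ, hδ⟩ : ∃ δ : ℝ, δ = ε / (6 * k) := ⟨_, rfl⟩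
  have hδpos : 0 < δ := by rw [hδ]; positivity
  obtain ⟨hb, hz⟩ := h1 k
  obtain ⟨C1, hC1, hb⟩ := hb δ hδpos
  obtain ⟨C2, hC2, hH⟩ := h4 k (ε / 6) (by positivity)
  obtain ⟨C3, hC3, hU⟩ := h2 δ hδpos
  refine ⟨C1 ^ 4 * C2 * C3, by positivity, ?_⟩
  intro a a' N₁ N₂ N₃ R h12 h2R h3R hR W L hL hW
  have hRpos : (0 : ℝ) < R := by exact_mod_cast hR
  obtain ⟨ρ, hρ⟩ : ∃ ρ : ℝ, ρ = (R : ℝ) ^ (ε / 6) := ⟨_, rfl⟩
  have hρpos : 0 < ρ := by rw [hρ]; exact Real.rpow_pos_of_pos hRpos _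
  have hpow : (((R ^ k : ℕ) : ℝ)) ^ δ = ρ := by
    push_cast
    rw [← Real.rpow_natCast, ← Real.rpow_mul hRpos.le, hρ]
    congr 1
    rw [hδ]
    field_simp
  have hρ6 : ρ ^ 6 = (R : ℝ) ^ ε := by
    rw [hρ, ← Real.rpow_natCast, ← Real.rpow_mul hRpos.le]
    congr 1
    push_cast
    ring
  have hM : 1 ≤ R ^ k := Nat.one_le_pow _ _ hR
  have hcm : ∀ m ∈ Icc 1 (R ^ k), (m : ℝ) ^ δ ≤ ρ := by
    intro m hm
    rw [Finset.mem_Icc] at hm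
    rw [← hpow]
    exact Real.rpow_le_rpow (Nat.cast_nonneg _) (by exact_mod_cast hm.2) hδpos.le
  have hnorm : ∀ (z : ℂ) (m : ℕ), ‖z / (Real.sqrt m : ℂ)‖ = ‖z‖ / Real.sqrt m := by
    intro z m
    rw [norm_div, Complex.norm_real, Real.norm_of_nonneg (Real.sqrt_nonneg _)]
  have main := h3 W (R ^ k) ((Icc 1 (R ^ k)).filter (fun m => ∃ n ∈ Ioc N₁ N₂, n ∣ m)) (C1 * ρ) L
    (fun m => ‖cf a N₂ m / (Real.sqrt m : ℂ) - cf a N₁ m / (Real.sqrt m : ℂ)‖)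
    (fun m => ‖cf a' N₃ m / (Real.sqrt m : ℂ)‖) (by positivity) hL hW (Finset.filter_subset _ _)
    (fun m => ⟨norm_nonneg _, norm_nonneg _⟩)
    (by
      intro m hm
      have hm1 := (Finset.mem_Icc.mp hm).1
      constructor
      · rw [← sub_div, hnorm]
        exact div_le_div_of_nonneg_right ((hb a N₁ N₂ m h12 hm1).1.trans
          (mul_le_mul_of_nonneg_left (hcm m hm) hC1.le)) (Real.sqrt_nonneg _)
      · rw [hnorm]
        exact div_le_div_of_nonneg_right ((hb a' N₃ N₃ m le_rfl hm1).2.trans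
          (mul_le_mul_of_nonneg_left (hcm m hm) hC1.le)) (Real.sqrt_nonneg _))
    (by
      intro m hm hmU
      have hm1 := (Finset.mem_Icc.mp hm).1
      have h : ¬ ∃ n ∈ Ioc N₁ N₂, n ∣ m := fun h => hmU (Finset.mem_filter.mpr ⟨hm, h⟩)
      rw [hz a N₁ N₂ m h12 hm1 h, sub_self, norm_zero])
  refine main.trans ?_
  have e1 := hH R hR
  have e2 := hU N₁ N₂ (R ^ k) h12 hM
  rw [← hρ] at e1
  rw [hpow] at e2
  have n1 : 0 ≤ HH (R ^ k) := Finset.sum_nonneg fun _ _ => by positivity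
  have n2 : 0 ≤ HI N₁ N₂ := Finset.sum_nonneg fun _ _ => by positivity
  have n3 : 0 ≤ ∑ m ∈ (Icc 1 (R ^ k)).filter (fun m => ∃ n ∈ Ioc N₁ N₂, n ∣ m),
      (m.divisors.card : ℝ) / m := Finset.sum_nonneg fun _ _ => by positivity
  have e3 : HH (R ^ k) * ∑ m ∈ (Icc 1 (R ^ k)).filter (fun m => ∃ n ∈ Ioc N₁ N₂, n ∣ m),
      (m.divisors.card : ℝ) / m ≤ (C2 * ρ) * (C3 * ρ * HI N₁ N₂) :=
    mul_le_mul e1 e2 n3 (by positivity)
  have e4 : (C1 * ρ) ^ 4 * L * HH (R ^ k) *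
      ∑ m ∈ (Icc 1 (R ^ k)).filter (fun m => ∃ n ∈ Ioc N₁ N₂, n ∣ m), (m.divisors.card : ℝ) / m =
      ((C1 * ρ) ^ 4 * L) * (HH (R ^ k) *
      ∑ m ∈ (Icc 1 (R ^ k)).filter (fun m => ∃ n ∈ Ioc N₁ N₂, n ∣ m),
        (m.divisors.card : ℝ) / m) := by ring
  rw [e4]
  refine (mul_le_mul_of_nonneg_left e3 (by positivity)).trans (le_of_eq ?_)
  rw [← hρ6]
  ring

end Pool.Agent.T2H58.ST
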