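import Pool.Agent.T2H58.ST.Stm
import Pool.Agent.H510R2.Div

set_option autoImplicit false

open MeasureTheory Filter Topology Finset

namespace Pool.Agent.T2H58.ST

open Pool.Agent.T2H98.RT (P tw S A quads gam S_MUL S_OR S_KAP S_DIV S_LIM)

namespace UB

theorem HH_le (M : ℕ) : HH M ≤ 1 + Real.log M := by
  have h := harmonic_le_one_add_log M
  have e : ((harmonic M : ℚ) : ℝ) = HH M := by
    unfold HH
    rw [harmonic_eq_sum_Icc]
    push_cast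
    refine Finset.sum_congr rfl (fun i _ => ?_)
    rw [one_div]
  rw [e] at h
  exact h

theorem HH_le' (δ : ℝ) (hδ : 0 < δ) (M : ℕ) (hM : 1 ≤ M) : HH M ≤ (1 + 1 / δ) * (M : ℝ) ^ δ := by
  have hM1 : (1 : ℝ) ≤ M := by exact_mod_cast hM
  have h1 := HH_le M
  have h2 : Real.log M ≤ (M : ℝ) ^ δ / δ := Real.log_le_rpow_div (by linarith) hδ
  have h3 : (1 : ℝ) ≤ (M : ℝ) ^ δ := Real.one_le_rpow hM1 hδ.le
  calc HH M ≤ 1 + Real.log M := h1
    _ ≤ (M : ℝ) ^ δ + (M : ℝ) ^ δ / δ := add_le_add h3 h2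
    _ = (1 + 1 / δ) * (M : ℝ) ^ δ := by ring

/-- the multiples of `n` -/
theorem sum_mult (n M : ℕ) (hn : 1 ≤ n) :
    ∑ m ∈ (Icc 1 M).filter (fun m => n ∣ m), 1 / (m : ℝ) ≤ 1 / (n : ℝ) * HH M := by
  unfold HH
  rw [Finset.mul_sum]
  have h : (Icc 1 M).filter (fun m => n ∣ m) ⊆ (Icc 1 M).image (fun l => n * l) := by
    intro m hm
    rw [Finset.mem_filter, Finset.mem_Icc] at hm
    obtain ⟨⟨h1, h2⟩, l, rfl⟩ := hm
    rw [Finset.mem_image]
    refine ⟨l, ?_, rfl⟩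
    rw [Finset.mem_Icc]
    constructor
    · by_contra hl
      have : l = 0 := by omega
      subst this
      omega
    · exact le_trans (Nat.le_mul_of_pos_left l (by omega)) h2
  refine (Finset.sum_le_sum_of_subset_of_nonneg h (fun i _ _ => by positivity)).trans ?_
  rw [Finset.sum_image]
  · refine le_of_eq (Finset.sum_congr rfl (fun l _ => ?_))
    push_cast
    rw [one_div_mul_one_div]
  · intro a _ b _ hab
    exact Nat.eq_of_mul_eq_mul_left (by omega : 0 < n) hab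

end UB

theorem pUB (_h1 : S_DIV) : S_UB := by
  intro ε hε
  obtain ⟨C, hC, hd⟩ := Pool.Agent.H510R2.divisor_bound (ε / 2) (by positivity)
  refine ⟨C * (1 + 1 / (ε / 2)), by positivity, ?_⟩
  intro N₁ N₂ M _ hM
  have hM1 : (1 : ℝ) ≤ M := by exact_mod_cast hM
  have hM0 : (0 : ℝ) < M := by linarith
  -- step 1: the divisor bound
  have s1 : ∑ m ∈ (Icc 1 M).filter (fun m => ∃ n ∈ Ioc N₁ N₂, n ∣ m), (m.divisors.card : ℝ) / m ≤
      ∑ m ∈ (Icc 1 M).filter (fun m => ∃ n ∈ Ioc N₁ N₂, n ∣ m),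
        (C * (M : ℝ) ^ (ε / 2)) * (1 / (m : ℝ)) := by
    refine Finset.sum_le_sum (fun m hm => ?_)
    rw [Finset.mem_filter, Finset.mem_Icc] at hm
    have h1 := hd m hm.1.1
    have h2 : (m : ℝ) ^ (ε / 2) ≤ (M : ℝ) ^ (ε / 2) :=
      Real.rpow_le_rpow (Nat.cast_nonneg _) (by exact_mod_cast hm.1.2) (by positivity)
    rw [div_eq_mul_one_div]
    refine mul_le_mul_of_nonneg_right ?_ (by positivity)
    exact h1.trans (mul_le_mul_of_nonneg_left h2 hC.le)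
  -- step 2: union bound
  have s2 : ∑ m ∈ (Icc 1 M).filter (fun m => ∃ n ∈ Ioc N₁ N₂, n ∣ m), 1 / (m : ℝ) ≤
      ∑ n ∈ Ioc N₁ N₂, ∑ m ∈ (Icc 1 M).filter (fun m => n ∣ m), 1 / (m : ℝ) := by
    have e1 : ∑ n ∈ Ioc N₁ N₂, ∑ m ∈ (Icc 1 M).filter (fun m => n ∣ m), 1 / (m : ℝ) =
        ∑ m ∈ Icc 1 M, ∑ n ∈ (Ioc N₁ N₂).filter (fun n => n ∣ m), 1 / (m : ℝ) := by
      refine Finset.sum_comm' ?_
      intro a b
      simp only [Finset.mem_filter]
      tauto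
    rw [e1, Finset.sum_filter]
    refine Finset.sum_le_sum (fun m _ => ?_)
    split_ifs with h
    · obtain ⟨n, hn, hnm⟩ := h
      exact Finset.single_le_sum (f := fun _ => 1 / (m : ℝ)) (fun i _ => by positivity)
        (Finset.mem_filter.mpr ⟨hn, hnm⟩)
    · exact Finset.sum_nonneg (fun i _ => by positivity)
  have s3 : ∑ n ∈ Ioc N₁ N₂, ∑ m ∈ (Icc 1 M).filter (fun m => n ∣ m), 1 / (m : ℝ) ≤
      HI N₁ N₂ * HH M := by
    unfold HI
    rw [Finset.sum_mul]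
    refine Finset.sum_le_sum (fun n hn => ?_)
    rw [Finset.mem_Ioc] at hn
    exact UB.sum_mult n M (by omega)
  have s4 := UB.HH_le' (ε / 2) (by positivity) M hM
  have hHI : 0 ≤ HI N₁ N₂ := Finset.sum_nonneg (fun i _ => by positivity)
  have hpow : (M : ℝ) ^ (ε / 2) * (M : ℝ) ^ (ε / 2) = (M : ℝ) ^ ε := by
    rw [← Real.rpow_add hM0]
    congr 1
    ring
  calc _ ≤ _ := s1
    _ = (C * (M : ℝ) ^ (ε / 2)) *
        ∑ m ∈ (Icc 1 M).filter (fun m => ∃ n ∈ Ioc N₁ N₂, n ∣ m), 1 / (m : ℝ) := by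
        rw [Finset.mul_sum]
    _ ≤ (C * (M : ℝ) ^ (ε / 2)) * (HI N₁ N₂ * HH M) :=
        mul_le_mul_of_nonneg_left (s2.trans s3) (by positivity)
    _ ≤ (C * (M : ℝ) ^ (ε / 2)) * (HI N₁ N₂ * ((1 + 1 / (ε / 2)) * (M : ℝ) ^ (ε / 2))) := by
        refine mul_le_mul_of_nonneg_left ?_ (by positivity)
        exact mul_le_mul_of_nonneg_left s4 hHI
    _ = C * (1 + 1 / (ε / 2)) * ((M : ℝ) ^ (ε / 2) * (M : ℝ) ^ (ε / 2)) * HI N₁ N₂ := by ring
    _ = C * (1 + 1 / (ε / 2)) * (M : ℝ) ^ ε * HI N₁ N₂ := by rw [hpow]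

end Pool.Agent.T2H58.ST
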