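import Pool.Agent.T2H58.ST.Stm
import Pool.Agent.T2H98.RT.VAR1

/-! package VARC (helper16) -/

set_option autoImplicit false

open MeasureTheory Filter Topology Finset

namespace Pool.Agent.T2H58.ST

open Pool.Agent.T2H98.RT (P tw S A quads gam S_MUL S_OR S_KAP S_DIV S_LIM)

namespace VARC

open Pool.Agent.T2H98.RT.VAR1 (ff off ff_cont ff_norm ff_int term_integrable log_ne)

/-- the integrated exponential -/
noncomputable def kap (u v : ℝ) (q : ℕ × ℕ) : ℂ :=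
  ∫ t in u..v, Complex.exp (-(t * ((Real.log q.1 - Real.log q.2 : ℝ) : ℂ) * Complex.I))

lemma kap_norm {u v : ℝ} (huv : u < v) (q : ℕ × ℕ) : ‖kap u v q‖ =
    ‖∫ t in (0:ℝ)..(v - u), Complex.exp (-(t * ((Real.log q.1 - Real.log q.2 : ℝ) : ℂ) *
      Complex.I))‖ := by
  unfold kap
  set a : ℝ := Real.log q.1 - Real.log q.2
  have h1 : (∫ t in u..v, Complex.exp (-(t * (a : ℂ) * Complex.I))) =
      ∫ t in (0:ℝ)..(v - u), Complex.exp (-(((t + u : ℝ) : ℂ) * (a : ℂ) * Complex.I)) := by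
    rw [intervalIntegral.integral_comp_add_right
      (fun t : ℝ => Complex.exp (-((t : ℂ) * (a : ℂ) * Complex.I)))]
    congr 1
    · ring
    · ring
  have h2 : ∀ t : ℝ, Complex.exp (-(((t + u : ℝ) : ℂ) * (a : ℂ) * Complex.I)) =
      Complex.exp (((-(u * a) : ℝ) : ℂ) * Complex.I) *
        Complex.exp (-((t : ℂ) * (a : ℂ) * Complex.I)) := by
    intro t
    rw [← Complex.exp_add]
    congr 1
    push_cast
    ring
  rw [h1]
  simp_rw [h2]
  rw [intervalIntegral.integral_const_mul, norm_mul, Complex.norm_exp_ofReal_mul_I, one_mul]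

lemma kap_le (hK : S_KAP) {u v : ℝ} (huv : u < v) (q : ℕ × ℕ) : ‖kap u v q‖ ≤ v - u := by
  rw [kap_norm huv]
  exact (hK (Real.log q.1 - Real.log q.2) (v - u) (sub_pos.2 huv)).1

lemma kap_le' (hK : S_KAP) {u v : ℝ} (huv : u < v) (q : ℕ × ℕ)
    (hq : Real.log q.1 - Real.log q.2 ≠ 0) :
    ‖kap u v q‖ ≤ 2 * Wl q.1 q.2 := by
  rw [kap_norm huv]
  refine ((hK (Real.log q.1 - Real.log q.2) (v - u) (sub_pos.2 huv)).2 hq).trans (le_of_eq ?_)
  unfold Wl
  ring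

/-- the coefficient -/
noncomputable def co (c d : ℕ → ℂ) (u v : ℝ) (q : ℕ × ℕ) : ℂ :=
  c q.1 * (starRingEnd ℂ) (d q.2) * kap u v q

lemma prod_eq (θ : ℕ → ℝ) (c d : ℕ → ℂ) (M : ℕ) (t : ℝ) :
    DC θ c M t * (starRingEnd ℂ) (DC θ d M t) = ∑ q ∈ (Icc 1 M) ×ˢ (Icc 1 M),
      c q.1 * (starRingEnd ℂ) (d q.2) * ff θ q *
      Complex.exp (-(t * ((Real.log q.1 - Real.log q.2 : ℝ) : ℂ) * Complex.I)) := by
  unfold DC
  rw [map_sum, sum_mul_sum, ← sum_product']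
  refine sum_congr rfl fun q _ => ?_
  unfold ff
  rw [map_mul, map_mul, ← Complex.exp_conj]
  simp only [map_neg, map_mul, Complex.conj_ofReal, Complex.conj_I]
  have h2 : Complex.exp (-(t * ((Real.log q.1 - Real.log q.2 : ℝ) : ℂ) * Complex.I)) =
      Complex.exp (-(t * (Real.log q.1 : ℂ) * Complex.I)) *
        Complex.exp (-(t * (Real.log q.2 : ℂ) * -Complex.I)) := by
    rw [← Complex.exp_add]
    congr 1
    push_cast
    ring
  rw [h2]
  ring

lemma diff_eq (hM : S_MUL) (θ : ℕ → ℝ) (c d : ℕ → ℂ) (M : ℕ) (t : ℝ) :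
    DC θ c M t * (starRingEnd ℂ) (DC θ d M t) - ip c d M = ∑ q ∈ off M,
      c q.1 * (starRingEnd ℂ) (d q.2) * ff θ q *
      Complex.exp (-(t * ((Real.log q.1 - Real.log q.2 : ℝ) : ℂ) * Complex.I)) := by
  rw [prod_eq, ← sum_filter_add_sum_filter_not ((Icc 1 M) ×ˢ (Icc 1 M)) (fun q : ℕ × ℕ => q.1 ≠ q.2)]
  have h1 : ∑ q ∈ ((Icc 1 M) ×ˢ (Icc 1 M)).filter (fun q : ℕ × ℕ => ¬ q.1 ≠ q.2),
      c q.1 * (starRingEnd ℂ) (d q.2) * ff θ q *
      Complex.exp (-(t * ((Real.log q.1 - Real.log q.2 : ℝ) : ℂ) * Complex.I)) = ip c d M := by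
    unfold ip
    refine sum_nbij' (fun q => q.1) (fun m => (m, m)) ?_ ?_ ?_ ?_ ?_
    · intro q hq
      rw [mem_filter, mem_product] at hq
      exact hq.1.1
    · intro m hm
      rw [mem_filter, mem_product]
      exact ⟨⟨hm, hm⟩, by simp⟩
    · rintro ⟨a, b⟩ hq
      rw [mem_filter, mem_product] at hq
      simp only [ne_eq, not_not] at hq
      rw [hq.2]
    · intro m _; rfl
    · rintro ⟨a, b⟩ hq
      rw [mem_filter, mem_product] at hq
      simp only [ne_eq, not_not] at hq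
      obtain ⟨-, rfl⟩ := hq
      unfold ff
      simp only
      rw [Complex.mul_conj, Complex.normSq_eq_norm_sq, hM.2.1 θ a, sub_self]
      simp
  rw [h1]
  unfold off
  ring

lemma int_eq (hM : S_MUL) (θ : ℕ → ℝ) (c d : ℕ → ℂ) (M : ℕ) (u v : ℝ) :
    (∫ t in u..v, (DC θ c M t * (starRingEnd ℂ) (DC θ d M t) - ip c d M)) =
      ∑ q ∈ off M, co c d u v q * ff θ q := by
  simp_rw [diff_eq hM θ c d M]
  rw [intervalIntegral.integral_finsetSum]
  · refine sum_congr rfl fun q _ => ?_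
    rw [intervalIntegral.integral_const_mul]
    unfold co kap
    ring
  · intro q _
    apply Continuous.intervalIntegrable
    fun_prop

/-- second moment of a combination of the phases -/
lemma expand (hM : S_MUL) (a : ℕ × ℕ → ℂ) (M : ℕ) :
    ((∫ θ, ‖∑ q ∈ off M, a q * ff θ q‖ ^ 2 ∂P : ℝ) : ℂ) =
      ∑ w ∈ off M ×ˢ off M, a w.1 * (starRingEnd ℂ) (a w.2) *
        ∫ θ, ff θ w.1 * (starRingEnd ℂ) (ff θ w.2) ∂P := by
  rw [← integral_complex_ofReal]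
  have h1 : (fun θ : ℕ → ℝ => ((‖∑ q ∈ off M, a q * ff θ q‖ ^ 2 : ℝ) : ℂ)) =
      fun θ => ∑ w ∈ off M ×ˢ off M, (a w.1 * (starRingEnd ℂ) (a w.2)) *
        (ff θ w.1 * (starRingEnd ℂ) (ff θ w.2)) := by
    funext θ
    have h3 : ((‖∑ q ∈ off M, a q * ff θ q‖ ^ 2 : ℝ) : ℂ) =
        (∑ q ∈ off M, a q * ff θ q) * (starRingEnd ℂ) (∑ q ∈ off M, a q * ff θ q) := by
      rw [Complex.mul_conj, Complex.normSq_eq_norm_sq]
    rw [h3, map_sum, sum_mul_sum, ← sum_product']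
    refine sum_congr rfl fun w _ => ?_
    rw [map_mul]
    ring
  rw [h1, integral_finsetSum]
  · refine sum_congr rfl fun w _ => ?_
    exact integral_const_mul _ _
  · intro w _
    exact term_integrable hM _ _ _

/-- the second moment as a sum over the quadruples -/
lemma moment (hM : S_MUL) (hO : S_OR) (a : ℕ × ℕ → ℂ) (M : ℕ) :
    ∫ θ, ‖∑ q ∈ off M, a q * ff θ q‖ ^ 2 ∂P ≤ ∑ w ∈ quads M, ‖a w.1‖ * ‖a w.2‖ := by
  set L := ∫ θ, ‖∑ q ∈ off M, a q * ff θ q‖ ^ 2 ∂P with hL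
  have hL0 : 0 ≤ L := integral_nonneg fun θ => sq_nonneg _
  have h1 : L = ‖(L : ℂ)‖ := by
    rw [Complex.norm_real, Real.norm_of_nonneg hL0]
  rw [h1, hL, expand hM a M]
  refine (norm_sum_le _ _).trans ?_
  have hkey : ∀ w ∈ off M ×ˢ off M, ‖a w.1 * (starRingEnd ℂ) (a w.2) *
        ∫ θ, ff θ w.1 * (starRingEnd ℂ) (ff θ w.2) ∂P‖ ≤
        if w.1.1 * w.2.2 = w.2.1 * w.1.2 then ‖a w.1‖ * ‖a w.2‖ else 0 := by
    rintro ⟨⟨m, n⟩, ⟨m', n'⟩⟩ hw
    rw [mem_product] at hw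
    unfold off at hw
    simp only [mem_filter, mem_product, mem_Icc] at hw
    obtain ⟨⟨⟨⟨a1, a2⟩, b1, b2⟩, hne⟩, ⟨⟨a3, a4⟩, b3, b4⟩, hne'⟩ := hw
    rw [ff_int hM hO _ _ (by simp only; omega) (by simp only; omega) (by simp only; omega)
      (by simp only; omega)]
    simp only
    split_ifs with h
    · rw [mul_one, norm_mul, RCLike.norm_conj]
    · simp
  refine (sum_le_sum hkey).trans ?_
  rw [← sum_filter]
  apply sum_le_sum_of_subset_of_nonneg
  · rintro ⟨⟨m, n⟩, ⟨m', n'⟩⟩ hw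
    unfold off at hw
    unfold quads
    simp only [mem_filter, mem_product, mem_Icc] at hw ⊢
    exact ⟨⟨hw.1.1.1, hw.1.2.1⟩, hw.2, hw.1.1.2⟩
  · intro w _ _
    positivity

end VARC

open VARC in
theorem pVARC (hMUL : S_MUL) (hOR : S_OR) (hKAP : S_KAP) : S_VARC := by
  intro c d M u v huv
  rcases huv.eq_or_lt with rfl | huv
  · simp
  simp_rw [int_eq hMUL _ c d M u v]
  refine (moment hMUL hOR (co c d u v) M).trans ?_
  unfold QW
  rw [mul_sum]
  refine sum_le_sum fun w hw => ?_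
  obtain ⟨⟨m, n⟩, ⟨m', n'⟩⟩ := w
  unfold quads at hw
  simp only [mem_filter, mem_product, mem_Icc] at hw
  obtain ⟨⟨⟨⟨a1, a2⟩, b1, b2⟩, ⟨a3, a4⟩, b3, b4⟩, h1, hne⟩ := hw
  unfold co
  simp only
  rw [norm_mul, norm_mul, norm_mul, norm_mul, RCLike.norm_conj, RCLike.norm_conj]
  have k1 := kap_le' hKAP huv (m, n) (Pool.Agent.T2H98.RT.VAR1.log_ne a1 b1 hne)
  have k2 := kap_le hKAP huv (m', n')
  simp only at k1
  have hW0 : 0 ≤ Wl m n := by unfold Wl; positivity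
  calc ‖c m‖ * ‖d n‖ * ‖kap u v (m, n)‖ * (‖c m'‖ * ‖d n'‖ * ‖kap u v (m', n')‖)
      ≤ ‖c m‖ * ‖d n‖ * (2 * Wl m n) * (‖c m'‖ * ‖d n'‖ * (v - u)) := by
        apply mul_le_mul
        · exact mul_le_mul_of_nonneg_left k1 (by positivity)
        · exact mul_le_mul_of_nonneg_left k2 (by positivity)
        · positivity
        · positivity
    _ = _ := by ring

end Pool.Agent.T2H58.ST
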