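import Pool.Agent.T2H58.ST.Stm

/-! Project ST, package VARPT -/

set_option autoImplicit false

open MeasureTheory Filter Topology Finset

namespace Pool.Agent.T2H58.ST

open Pool.Agent.T2H98.RT (P tw S A quads gam S_MUL S_OR S_KAP S_DIV S_LIM)

namespace VARPT

/-- the phase -/
noncomputable def ff (θ : ℕ → ℝ) (q : ℕ × ℕ) : ℂ := tw θ q.1 * (starRingEnd ℂ) (tw θ q.2)

/-- the exponential -/
noncomputable def ee (t : ℝ) (q : ℕ × ℕ) : ℂ :=
  Complex.exp (-(t * Real.log q.1 * Complex.I)) * (starRingEnd ℂ) (Complex.exp (-(t * Real.log q.2 * Complex.I)))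

lemma ee_norm (t : ℝ) (q : ℕ × ℕ) : ‖ee t q‖ = 1 := by
  unfold ee
  rw [norm_mul, RCLike.norm_conj]
  have h : ∀ x : ℝ, ‖Complex.exp (-(t * x * Complex.I))‖ = 1 := by
    intro x
    have := Complex.norm_exp_ofReal_mul_I (-(t * x))
    rw [← this]
    congr 2
    push_cast
    ring
  rw [h, h, mul_one]

lemma ee_diag (t : ℝ) (m : ℕ) : ee t (m, m) = 1 := by
  have h : ee t (m, m) = ((‖Complex.exp (-(t * Real.log m * Complex.I))‖ ^ 2 : ℝ) : ℂ) := by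
    unfold ee
    simp only
    rw [Complex.mul_conj, Complex.normSq_eq_norm_sq]
  have h2 : ‖Complex.exp (-(t * Real.log m * Complex.I))‖ = 1 := by
    have := Complex.norm_exp_ofReal_mul_I (-(t * Real.log m))
    rw [← this]
    congr 2
    push_cast
    ring
  rw [h, h2]
  simp

/-- the coefficient -/
noncomputable def co (c d : ℕ → ℂ) (t : ℝ) (q : ℕ × ℕ) : ℂ := c q.1 * (starRingEnd ℂ) (d q.2) * ee t q

lemma prod_D (θ : ℕ → ℝ) (c d : ℕ → ℂ) (M : ℕ) (t : ℝ) :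
    DC θ c M t * (starRingEnd ℂ) (DC θ d M t) = ∑ q ∈ (Icc 1 M) ×ˢ (Icc 1 M), co c d t q * ff θ q := by
  unfold DC
  rw [map_sum, sum_mul_sum, ← sum_product']
  refine sum_congr rfl fun q _ => ?_
  unfold ff co ee
  rw [map_mul, map_mul]
  ring

/-- the off-diagonal pairs -/
def off (M : ℕ) : Finset (ℕ × ℕ) := ((Icc 1 M) ×ˢ (Icc 1 M)).filter (fun q => q.1 ≠ q.2)

lemma diff (hM : S_MUL) (θ : ℕ → ℝ) (c d : ℕ → ℂ) (M : ℕ) (t : ℝ) :
    DC θ c M t * (starRingEnd ℂ) (DC θ d M t) - ip c d M = ∑ q ∈ off M, co c d t q * ff θ q := by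
  rw [prod_D]
  rw [← sum_filter_add_sum_filter_not ((Icc 1 M) ×ˢ (Icc 1 M)) (fun q : ℕ × ℕ => q.1 ≠ q.2)]
  have h1 : ∑ q ∈ ((Icc 1 M) ×ˢ (Icc 1 M)).filter (fun q : ℕ × ℕ => ¬ q.1 ≠ q.2), co c d t q * ff θ q =
      ip c d M := by
    unfold ip
    refine sum_nbij' (fun q => q.1) (fun m => (m, m)) ?_ ?_ ?_ ?_ ?_
    · intro q hq
      rw [mem_filter, mem_product] at hq
      exact hq.1.1
    · intro m hm
      rw [mem_filter, mem_product]
      exact ⟨⟨hm, hm⟩, by simp⟩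
    · rintro ⟨a, b⟩ hq
      rw [mem_filter, mem_product] at hq
      simp only [ne_eq, not_not] at hq
      rw [hq.2]
    · intro m _; rfl
    · rintro ⟨a, b⟩ hq
      rw [mem_filter, mem_product] at hq
      simp only [ne_eq, not_not] at hq
      obtain ⟨-, rfl⟩ := hq
      unfold co ff
      rw [ee_diag]
      simp only
      rw [Complex.mul_conj, Complex.normSq_eq_norm_sq, hM.2.1 θ a]
      push_cast
      ring
  rw [h1]
  unfold off
  ring

lemma ff_cont (hM : S_MUL) (q : ℕ × ℕ) : Continuous fun θ : ℕ → ℝ => ff θ q := by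
  unfold ff
  exact (hM.2.2.2 q.1).mul (Complex.continuous_conj.comp (hM.2.2.2 q.2))

lemma ff_norm (hM : S_MUL) (θ : ℕ → ℝ) (q : ℕ × ℕ) : ‖ff θ q‖ = 1 := by
  unfold ff
  rw [norm_mul, RCLike.norm_conj, hM.2.1, hM.2.1, mul_one]

lemma ff_int (hM : S_MUL) (hO : S_OR) (q q' : ℕ × ℕ) (h1 : q.1 ≠ 0) (h2 : q.2 ≠ 0) (h3 : q'.1 ≠ 0)
    (h4 : q'.2 ≠ 0) :
    ∫ θ, ff θ q * (starRingEnd ℂ) (ff θ q') ∂P = if q.1 * q'.2 = q'.1 * q.2 then 1 else 0 := by
  rw [← hO (q.1 * q'.2) (q'.1 * q.2) (Nat.mul_ne_zero h1 h4) (Nat.mul_ne_zero h3 h2)]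
  congr 1
  funext θ
  rw [hM.1 θ _ _ h1 h4, hM.1 θ _ _ h3 h2]
  unfold ff
  simp only [map_mul, Complex.conj_conj]
  ring

lemma term_integrable (hM : S_MUL) (a : ℂ) (q q' : ℕ × ℕ) :
    Integrable (fun θ : ℕ → ℝ => a * (ff θ q * (starRingEnd ℂ) (ff θ q'))) P := by
  apply Integrable.const_mul
  have hc : Continuous fun θ : ℕ → ℝ => ff θ q * (starRingEnd ℂ) (ff θ q') :=
    (ff_cont hM q).mul (Complex.continuous_conj.comp (ff_cont hM q'))
  refine Integrable.of_bound hc.aestronglyMeasurable 1 (Filter.Eventually.of_forall fun θ => ?_)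
  rw [norm_mul, RCLike.norm_conj, ff_norm hM, ff_norm hM, mul_one]

lemma expand (hM : S_MUL) (c d : ℕ → ℂ) (M : ℕ) (t : ℝ) :
    ((∫ θ, ‖DC θ c M t * (starRingEnd ℂ) (DC θ d M t) - ip c d M‖ ^ 2 ∂P : ℝ) : ℂ) =
      ∑ w ∈ off M ×ˢ off M, co c d t w.1 * (starRingEnd ℂ) (co c d t w.2) *
        ∫ θ, ff θ w.1 * (starRingEnd ℂ) (ff θ w.2) ∂P := by
  rw [← integral_complex_ofReal]
  have h1 : (fun θ : ℕ → ℝ => ((‖DC θ c M t * (starRingEnd ℂ) (DC θ d M t) - ip c d M‖ ^ 2 : ℝ) : ℂ)) =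
      fun θ => ∑ w ∈ off M ×ˢ off M, (co c d t w.1 * (starRingEnd ℂ) (co c d t w.2)) *
        (ff θ w.1 * (starRingEnd ℂ) (ff θ w.2)) := by
    funext θ
    rw [← Complex.normSq_eq_norm_sq, ← Complex.mul_conj, diff hM θ c d M t, map_sum, sum_mul_sum,
      ← sum_product']
    refine sum_congr rfl fun w _ => ?_
    rw [map_mul]
    ring
  rw [h1, integral_finsetSum]
  · refine sum_congr rfl fun w _ => ?_
    exact integral_const_mul _ _
  · intro w _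
    exact term_integrable hM _ _ _

end VARPT

open VARPT in
theorem pVARPT (h1 : S_MUL) (h2 : S_OR) : S_VARPT := by
  intro c d M t
  set L := ∫ θ, ‖DC θ c M t * (starRingEnd ℂ) (DC θ d M t) - ip c d M‖ ^ 2 ∂P with hL
  have hL0 : 0 ≤ L := integral_nonneg fun θ => sq_nonneg _
  have h3 : L = ‖(L : ℂ)‖ := by
    rw [Complex.norm_real, Real.norm_of_nonneg hL0]
  rw [h3, hL, expand h1 c d M t]
  refine (norm_sum_le _ _).trans ?_
  have hkey : ∀ w ∈ off M ×ˢ off M, ‖co c d t w.1 * (starRingEnd ℂ) (co c d t w.2) *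
        ∫ θ, ff θ w.1 * (starRingEnd ℂ) (ff θ w.2) ∂P‖ ≤
        if w.1.1 * w.2.2 = w.2.1 * w.1.2 then
          ‖c w.1.1‖ * ‖d w.1.2‖ * (‖c w.2.1‖ * ‖d w.2.2‖) * 1 else 0 := by
    rintro ⟨⟨m, n⟩, ⟨m', n'⟩⟩ hw
    rw [mem_product] at hw
    unfold off at hw
    simp only [mem_filter, mem_product, mem_Icc] at hw
    obtain ⟨⟨⟨⟨a1, a2⟩, b1, b2⟩, hne⟩, ⟨⟨a3, a4⟩, b3, b4⟩, hne'⟩ := hw
    rw [ff_int h1 h2 _ _ (by simp only; omega) (by simp only; omega) (by simp only; omega) (by simp only; omega)]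
    simp only
    split_ifs with h
    · rw [mul_one, norm_mul, RCLike.norm_conj]
      unfold co
      rw [norm_mul, norm_mul, norm_mul, norm_mul, ee_norm, ee_norm, RCLike.norm_conj, RCLike.norm_conj]
      simp only [mul_one]
      exact le_rfl
    · simp
  refine (sum_le_sum hkey).trans ?_
  rw [← sum_filter]
  unfold QW
  apply sum_le_sum_of_subset_of_nonneg
  · rintro ⟨⟨m, n⟩, ⟨m', n'⟩⟩ hw
    unfold off at hw
    unfold quads
    simp only [mem_filter, mem_product, mem_Icc] at hw ⊢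
    exact ⟨⟨hw.1.1.1, hw.1.2.1⟩, hw.2, hw.1.1.2⟩
  · intro w _ _
    positivity

end Pool.Agent.T2H58.ST
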