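import Pool.Agent.T2H58.ST.Stm

/-! Project ST, package VINC -/

set_option autoImplicit false

open MeasureTheory Filter Topology Finset

namespace Pool.Agent.T2H58.ST

open Pool.Agent.T2H98.RT (P tw S A quads gam S_MUL S_OR S_KAP S_DIV S_LIM)

namespace VINC

/-- the centred product -/
noncomputable def Z (c d : ℕ → ℂ) (M : ℕ) (θ : ℕ → ℝ) (t : ℝ) : ℂ :=
  DC θ c M t * (starRingEnd ℂ) (DC θ d M t) - ip c d M

lemma DC_cont (hM : S_MUL) (c : ℕ → ℂ) (M : ℕ) :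
    Continuous (fun q : (ℕ → ℝ) × ℝ => DC q.1 c M q.2) := by
  unfold DC
  refine continuous_finsetSum _ fun m _ => ?_
  refine (continuous_const.mul ((hM.2.2.2 m).comp continuous_fst)).mul ?_
  fun_prop

lemma Z_cont (hM : S_MUL) (c d : ℕ → ℂ) (M : ℕ) :
    Continuous (fun q : (ℕ → ℝ) × ℝ => Z c d M q.1 q.2) := by
  unfold Z
  exact ((DC_cont hM c M).mul (Complex.continuous_conj.comp (DC_cont hM d M))).sub continuous_const

lemma DC_norm (hM : S_MUL) (c : ℕ → ℂ) (M : ℕ) (θ : ℕ → ℝ) (t : ℝ) :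
    ‖DC θ c M t‖ ≤ ∑ m ∈ Icc 1 M, ‖c m‖ := by
  unfold DC
  refine (norm_sum_le _ _).trans (sum_le_sum fun m _ => ?_)
  have h : ‖Complex.exp (-(t * Real.log m * Complex.I))‖ = 1 := by
    have := Complex.norm_exp_ofReal_mul_I (-(t * Real.log m))
    rw [← this]
    congr 2
    push_cast
    ring
  rw [norm_mul, norm_mul, h, hM.2.1, mul_one, mul_one]

lemma Z_norm (hM : S_MUL) (c d : ℕ → ℂ) (M : ℕ) :
    ∃ B : ℝ, ∀ (θ : ℕ → ℝ) (t : ℝ), ‖Z c d M θ t‖ ≤ B := by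
  refine ⟨(∑ m ∈ Icc 1 M, ‖c m‖) * (∑ m ∈ Icc 1 M, ‖d m‖) + ‖ip c d M‖, fun θ t => ?_⟩
  unfold Z
  refine (norm_sub_le _ _).trans ?_
  rw [norm_mul, RCLike.norm_conj]
  have h1 := DC_norm hM c M θ t
  have h2 := DC_norm hM d M θ t
  gcongr

lemma I_cont (hM : S_MUL) (c d : ℕ → ℂ) (M : ℕ) (u v : ℝ) :
    Continuous (fun θ : ℕ → ℝ => ∫ t in u..v, Z c d M θ t) :=
  intervalIntegral.continuous_parametric_intervalIntegral_of_continuous' (Z_cont hM c d M) u v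

lemma I_sq_int (hM : S_MUL) (c d : ℕ → ℂ) (M : ℕ) (u v : ℝ) :
    Integrable (fun θ : ℕ → ℝ => ‖∫ t in u..v, Z c d M θ t‖ ^ 2) P := by
  obtain ⟨B, hB⟩ := Z_norm hM c d M
  refine Integrable.of_bound ((I_cont hM c d M u v).norm.pow 2).aestronglyMeasurable
    ((B * |v - u|) ^ 2) (Filter.Eventually.of_forall fun θ => ?_)
  rw [Real.norm_of_nonneg (sq_nonneg _)]
  have := intervalIntegral.norm_integral_le_of_norm_le_const (a := u) (b := v)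
    (f := fun t => Z c d M θ t) (C := B) (fun t _ => hB θ t)
  exact pow_le_pow_left₀ (norm_nonneg _) this 2

lemma DC_cont_t (c : ℕ → ℂ) (M : ℕ) (θ : ℕ → ℝ) : Continuous (fun t : ℝ => DC θ c M t) := by
  unfold DC
  refine continuous_finsetSum _ fun m _ => ?_
  refine continuous_const.mul ?_
  fun_prop

lemma Z_cont_t (c d : ℕ → ℂ) (M : ℕ) (θ : ℕ → ℝ) : Continuous (fun t : ℝ => Z c d M θ t) := by
  unfold Z
  exact ((DC_cont_t c M θ).mul (Complex.continuous_conj.comp (DC_cont_t d M θ))).sub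
    continuous_const

lemma t_int (c d : ℕ → ℂ) (M : ℕ) (θ : ℕ → ℝ) (u v : ℝ) :
    IntervalIntegrable (fun t => Z c d M θ t) volume u v :=
  (Z_cont_t c d M θ).intervalIntegrable u v

lemma t_int' (c d : ℕ → ℂ) (M : ℕ) (θ : ℕ → ℝ) (u v : ℝ) :
    IntervalIntegrable (fun t => (starRingEnd ℂ) (Z c d M θ t)) volume u v :=
  (Complex.continuous_conj.comp (Z_cont_t c d M θ)).intervalIntegrable u v

lemma DC_sub (θ : ℕ → ℝ) (c d : ℕ → ℂ) (M : ℕ) (t : ℝ) :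
    DC θ (fun m => c m - d m) M t = DC θ c M t - DC θ d M t := by
  unfold DC
  rw [← sum_sub_distrib]
  exact sum_congr rfl fun m _ => by ring

lemma ip_sub (c c' d : ℕ → ℂ) (M : ℕ) : ip (fun m => c m - c' m) d M = ip c d M - ip c' d M := by
  unfold ip
  rw [← sum_sub_distrib]
  exact sum_congr rfl fun m _ => by ring

lemma ip_conj (c d : ℕ → ℂ) (M : ℕ) : (starRingEnd ℂ) (ip c d M) = ip d c M := by
  unfold ip
  rw [map_sum]
  refine sum_congr rfl fun m _ => ?_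
  rw [map_mul, Complex.conj_conj, mul_comm]

lemma ip_sub' (c d d' : ℕ → ℂ) (M : ℕ) : ip c (fun m => d m - d' m) M = ip c d M - ip c d' M := by
  rw [← ip_conj, ip_sub, map_sub, ip_conj, ip_conj]

end VINC

open VINC in
theorem pVINC (h1 : S_EXPN) (h2 : S_VARC) (h3 : S_QINC) (h4 : S_LOGW) (h5 : S_HAR) (h6 : S_MUL)
    (_h7 : S_MEAS) : S_VINC := by
  intro k a a' ε hk hε
  obtain ⟨C₁, hC₁, hQ⟩ := h3 k (ε / 2) hk (by linarith)
  obtain ⟨C₂, hC₂, hH⟩ := h5 k (ε / 2) (by linarith)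
  refine ⟨24 * C₁ * C₂, by positivity, ?_⟩
  intro N₁ N₂ R u v hN hNR hR huv
  have hN₁R : N₁ ≤ R := hN.trans hNR
  have hR0 : (0 : ℝ) < R := by exact_mod_cast hR
  obtain ⟨e1, e2⟩ := h1 k a a' N₁ (R ^ k) hk (Nat.pow_le_pow_left hN₁R k)
  obtain ⟨e3, e4⟩ := h1 k a a' N₂ (R ^ k) hk (Nat.pow_le_pow_left hNR k)
  have e5 := (h1 k a' a N₁ (R ^ k) hk (Nat.pow_le_pow_left hN₁R k)).1
  have e6 := (h1 k a' a N₂ (R ^ k) hk (Nat.pow_le_pow_left hNR k)).1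
  have qX := hQ a a' N₁ N₂ N₂ R hN hNR hNR hR Wl (3 * HH (R ^ k))
  have qY := hQ a' a N₁ N₂ N₁ R hN hNR hN₁R hR Wl (3 * HH (R ^ k))
  set M := R ^ k with hM
  set c₁ : ℕ → ℂ := fun m => cf a N₁ m / (Real.sqrt m : ℂ) with hc₁
  set c₂ : ℕ → ℂ := fun m => cf a N₂ m / (Real.sqrt m : ℂ) with hc₂
  set d₁ : ℕ → ℂ := fun m => cf a' N₁ m / (Real.sqrt m : ℂ) with hd₁
  set d₂ : ℕ → ℂ := fun m => cf a' N₂ m / (Real.sqrt m : ℂ) with hd₂
  have hsplit : ∀ (θ : ℕ → ℝ) (t : ℝ), EE a a' θ N₂ t - EE a a' θ N₁ t =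
      Z (fun m => c₂ m - c₁ m) d₂ M θ t +
        (starRingEnd ℂ) (Z (fun m => d₂ m - d₁ m) c₁ M θ t) := by
    intro θ t
    unfold EE Z
    rw [e1 θ t, e3 θ t, e5 θ t, e6 θ t, e2, e4]
    rw [map_sub (starRingEnd ℂ) (DC θ (fun m => d₂ m - d₁ m) M t * _), map_mul, Complex.conj_conj,
      ip_conj, ip_sub', ip_sub, DC_sub, DC_sub, map_sub]
    ring
  have hX := h2 (fun m => c₂ m - c₁ m) d₂ M u v huv
  have hY := h2 (fun m => d₂ m - d₁ m) c₁ M u v huv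
  have hLW : Wt Wl M (3 * HH M) := (h4 M).1
  have hHHn : 0 ≤ HH M := sum_nonneg fun g _ => by positivity
  have qX' := qX (by positivity) hLW
  have qY' := qY (by positivity) hLW
  have hHM := hH R hR
  have hHI : 0 ≤ HI N₁ N₂ := sum_nonneg fun g _ => by positivity
  have hRe : (R : ℝ) ^ (ε / 2) * (R : ℝ) ^ (ε / 2) = (R : ℝ) ^ ε := by
    rw [← Real.rpow_add hR0]
    ring_nf
  have hRn : 0 ≤ (R : ℝ) ^ (ε / 2) := by positivity
  have hK : C₁ * (3 * HH M) * (R : ℝ) ^ (ε / 2) * HI N₁ N₂ ≤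
      3 * C₁ * C₂ * (R : ℝ) ^ ε * HI N₁ N₂ := by
    rw [← hRe]
    have h8 : HH M * ((R : ℝ) ^ (ε / 2) * HI N₁ N₂ * (3 * C₁)) ≤
        C₂ * (R : ℝ) ^ (ε / 2) * ((R : ℝ) ^ (ε / 2) * HI N₁ N₂ * (3 * C₁)) :=
      mul_le_mul_of_nonneg_right hHM (by positivity)
    linarith
  set K := 3 * C₁ * C₂ * (R : ℝ) ^ ε * HI N₁ N₂ with hKdef
  have i1 := I_sq_int h6 (fun m => c₂ m - c₁ m) d₂ M u v
  have i2 := I_sq_int h6 (fun m => d₂ m - d₁ m) c₁ M u v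
  have hB : ∫ θ, ‖∫ t in u..v, (EE a a' θ N₂ t - EE a a' θ N₁ t)‖ ^ 2 ∂P ≤
      ∫ θ, (2 * ‖∫ t in u..v, Z (fun m => c₂ m - c₁ m) d₂ M θ t‖ ^ 2 +
        2 * ‖∫ t in u..v, Z (fun m => d₂ m - d₁ m) c₁ M θ t‖ ^ 2) ∂P := by
    refine integral_mono_of_nonneg (Filter.Eventually.of_forall fun θ => sq_nonneg _)
      ((i1.const_mul 2).add (i2.const_mul 2)) (Filter.Eventually.of_forall fun θ => ?_)
    simp only
    have h9 : ∫ t in u..v, (EE a a' θ N₂ t - EE a a' θ N₁ t) =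
        (∫ t in u..v, Z (fun m => c₂ m - c₁ m) d₂ M θ t) +
          (starRingEnd ℂ) (∫ t in u..v, Z (fun m => d₂ m - d₁ m) c₁ M θ t) := by
      rw [← intervalIntegral.intervalIntegral_conj, ← intervalIntegral.integral_add]
      · congr 1
        funext t
        exact hsplit θ t
      · exact t_int _ _ _ _ _ _
      · exact t_int' _ _ _ _ _ _
    rw [h9]
    set x := ∫ t in u..v, Z (fun m => c₂ m - c₁ m) d₂ M θ t
    set y := ∫ t in u..v, Z (fun m => d₂ m - d₁ m) c₁ M θ t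
    have h10 := norm_add_le x ((starRingEnd ℂ) y)
    rw [RCLike.norm_conj] at h10
    have h11 := pow_le_pow_left₀ (norm_nonneg _) h10 2
    nlinarith [sq_nonneg (‖x‖ - ‖y‖)]
  rw [integral_add (i1.const_mul 2) (i2.const_mul 2), integral_const_mul, integral_const_mul] at hB
  have hvu : 0 ≤ 2 * (v - u) := by linarith
  have b1 : ∫ θ, ‖∫ t in u..v, Z (fun m => c₂ m - c₁ m) d₂ M θ t‖ ^ 2 ∂P ≤ 2 * (v - u) * K :=
    hX.trans (mul_le_mul_of_nonneg_left (qX'.trans hK) hvu)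
  have b2 : ∫ θ, ‖∫ t in u..v, Z (fun m => d₂ m - d₁ m) c₁ M θ t‖ ^ 2 ∂P ≤ 2 * (v - u) * K :=
    hY.trans (mul_le_mul_of_nonneg_left (qY'.trans hK) hvu)
  calc _ ≤ _ := hB
    _ ≤ 2 * (2 * (v - u) * K) + 2 * (2 * (v - u) * K) := by linarith
    _ = _ := by
      rw [hKdef]
      ring

end Pool.Agent.T2H58.ST
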