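import Pool.Agent.T2H58.ST.Stm

/-!
# Package VPT: the second moment of the increments at a point
-/

set_option autoImplicit false

open MeasureTheory Filter Topology Finset

namespace Pool.Agent.T2H58.ST

open Pool.Agent.T2H98.RT (P tw S A quads gam S_MUL S_OR S_KAP S_DIV S_LIM)

namespace VPT

lemma DC_sub (θ : ℕ → ℝ) (c d : ℕ → ℂ) (M : ℕ) (t : ℝ) :
    DC θ (fun m => c m - d m) M t = DC θ c M t - DC θ d M t := by
  unfold DC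
  rw [← sum_sub_distrib]
  exact sum_congr rfl fun m _ => by ring

lemma ip_sub_left (c c' d : ℕ → ℂ) (M : ℕ) : ip (fun m => c m - c' m) d M = ip c d M - ip c' d M := by
  unfold ip
  rw [← sum_sub_distrib]
  exact sum_congr rfl fun m _ => by ring

lemma ip_sub_right (c d d' : ℕ → ℂ) (M : ℕ) : ip c (fun m => d m - d' m) M = ip c d M - ip c d' M := by
  unfold ip
  rw [← sum_sub_distrib]
  exact sum_congr rfl fun m _ => by rw [map_sub]; ring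

lemma ip_conj (c d : ℕ → ℂ) (M : ℕ) : (starRingEnd ℂ) (ip c d M) = ip d c M := by
  unfold ip
  rw [map_sum]
  exact sum_congr rfl fun m _ => by rw [map_mul, Complex.conj_conj]; ring

lemma DC_cont (hMUL : S_MUL) (c : ℕ → ℂ) (M : ℕ) (t : ℝ) : Continuous (fun θ : ℕ → ℝ => DC θ c M t) := by
  unfold DC
  refine continuous_finsetSum _ fun m _ => ?_
  exact (continuous_const.mul (hMUL.2.2.2 m)).mul continuous_const

lemma DC_bdd (hMUL : S_MUL) (c : ℕ → ℂ) (M : ℕ) (t : ℝ) (θ : ℕ → ℝ) :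
    ‖DC θ c M t‖ ≤ ∑ m ∈ Icc 1 M, ‖c m‖ := by
  unfold DC
  refine (norm_sum_le _ _).trans (sum_le_sum fun m _ => ?_)
  rw [norm_mul, norm_mul, hMUL.2.1, mul_one]
  have h1 : Complex.exp (-(t * Real.log m * Complex.I)) =
      Complex.exp (((-(t * Real.log m) : ℝ) : ℂ) * Complex.I) := by
    congr 1; push_cast; ring
  rw [h1, Complex.norm_exp_ofReal_mul_I, mul_one]

/-- the centred product -/
noncomputable def Z (c d : ℕ → ℂ) (M : ℕ) (t : ℝ) (θ : ℕ → ℝ) : ℂ :=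
  DC θ c M t * (starRingEnd ℂ) (DC θ d M t) - ip c d M

lemma Z_int (hMUL : S_MUL) (c d : ℕ → ℂ) (M : ℕ) (t : ℝ) : Integrable (fun θ => ‖Z c d M t θ‖ ^ 2) P := by
  have hc : Continuous (fun θ => Z c d M t θ) := by
    unfold Z
    exact ((DC_cont hMUL c M t).mul (Complex.continuous_conj.comp (DC_cont hMUL d M t))).sub
      continuous_const
  refine Integrable.of_bound ((hc.norm.pow 2).aestronglyMeasurable)
    (((∑ m ∈ Icc 1 M, ‖c m‖) * (∑ m ∈ Icc 1 M, ‖d m‖) + ‖ip c d M‖) ^ 2)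
    (Eventually.of_forall fun θ => ?_)
  rw [Real.norm_eq_abs, abs_of_nonneg (by positivity)]
  refine pow_le_pow_left₀ (norm_nonneg _) ?_ 2
  unfold Z
  refine (norm_sub_le _ _).trans ?_
  rw [norm_mul, Complex.norm_conj]
  have := mul_le_mul (DC_bdd hMUL c M t θ) (DC_bdd hMUL d M t θ) (norm_nonneg _)
    (sum_nonneg fun m _ => norm_nonneg _)
  linarith

lemma Z_conj (c d : ℕ → ℂ) (M : ℕ) (t : ℝ) (θ : ℕ → ℝ) : ‖Z c d M t θ‖ = ‖Z d c M t θ‖ := by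
  rw [← Complex.norm_conj (Z c d M t θ)]
  congr 1
  unfold Z
  rw [map_sub, map_mul, Complex.conj_conj, ip_conj]
  ring

end VPT

open VPT in
theorem pVPT (h1 : S_EXPN) (h2 : S_VARPT) (h3 : S_QINC) (h4 : S_LOGW) (h5 : S_HAR) (h6 : S_MUL)
    (h7 : S_MEAS) : S_VPT := by
  intro k a a' ε hk hε
  obtain ⟨C₁, hC₁, hQ⟩ := h3 k (ε / 2) hk (by linarith)
  obtain ⟨C₂, hC₂, hH⟩ := h5 k (ε / 2) (by linarith)
  refine ⟨4 * C₁ * C₂, by positivity, fun N₁ N₂ R t h12 h2R hR => ?_⟩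
  have h1R : N₁ ≤ R := h12.trans h2R
  set M := R ^ k with hM
  have hM1 : N₁ ^ k ≤ M := Nat.pow_le_pow_left h1R k
  have hM2 : N₂ ^ k ≤ M := Nat.pow_le_pow_left h2R k
  set c₁ : ℕ → ℂ := fun m => cf a N₁ m / (Real.sqrt m : ℂ) with hc₁
  set c₂ : ℕ → ℂ := fun m => cf a N₂ m / (Real.sqrt m : ℂ) with hc₂
  set d₁ : ℕ → ℂ := fun m => cf a' N₁ m / (Real.sqrt m : ℂ) with hd₁
  set d₂ : ℕ → ℂ := fun m => cf a' N₂ m / (Real.sqrt m : ℂ) with hd₂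
  have e1 : ∀ θ, EE a a' θ N₁ t = Z c₁ d₁ M t θ := by
    intro θ
    unfold EE Z
    rw [(h1 k a a' N₁ M hk hM1).1 θ t, (h1 k a' a N₁ M hk hM1).1 θ t, (h1 k a a' N₁ M hk hM1).2]
  have e2 : ∀ θ, EE a a' θ N₂ t = Z c₂ d₂ M t θ := by
    intro θ
    unfold EE Z
    rw [(h1 k a a' N₂ M hk hM2).1 θ t, (h1 k a' a N₂ M hk hM2).1 θ t, (h1 k a a' N₂ M hk hM2).2]
  have e3 : ∀ θ, Z c₂ d₂ M t θ - Z c₁ d₁ M t θ =
      Z (fun m => c₂ m - c₁ m) d₂ M t θ + Z c₁ (fun m => d₂ m - d₁ m) M t θ := by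
    intro θ
    unfold Z
    rw [DC_sub, DC_sub, ip_sub_left, ip_sub_right, map_sub]
    ring
  set L := HH M with hL
  have hL0 : 0 ≤ L := by
    rw [hL]
    unfold HH
    exact sum_nonneg fun g _ => by positivity
  have hHI : 0 ≤ HI N₁ N₂ := by
    unfold HI
    exact sum_nonneg fun g _ => by positivity
  have hW : Wt (fun _ _ => 1) (R ^ k) L := (h4 M).2
  have b1 : ∫ θ, ‖Z (fun m => c₂ m - c₁ m) d₂ M t θ‖ ^ 2 ∂P ≤ C₁ * L * (R : ℝ) ^ (ε / 2) * HI N₁ N₂ :=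
    (h2 (fun m => c₂ m - c₁ m) d₂ M t).trans (hQ a a' N₁ N₂ N₂ R h12 h2R h2R hR _ L hL0 hW)
  have b2 : ∫ θ, ‖Z c₁ (fun m => d₂ m - d₁ m) M t θ‖ ^ 2 ∂P ≤ C₁ * L * (R : ℝ) ^ (ε / 2) * HI N₁ N₂ := by
    simp only [Z_conj c₁]
    exact (h2 (fun m => d₂ m - d₁ m) c₁ M t).trans (hQ a' a N₁ N₂ N₁ R h12 h2R h1R hR _ L hL0 hW)
  have b3 : ∫ θ, ‖EE a a' θ N₂ t - EE a a' θ N₁ t‖ ^ 2 ∂P ≤
      ∫ θ, (2 * ‖Z (fun m => c₂ m - c₁ m) d₂ M t θ‖ ^ 2 +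
        2 * ‖Z c₁ (fun m => d₂ m - d₁ m) M t θ‖ ^ 2) ∂P := by
    have i1 := (Z_int h6 (fun m => c₂ m - c₁ m) d₂ M t).const_mul 2
    have i2 := (Z_int h6 c₁ (fun m => d₂ m - d₁ m) M t).const_mul 2
    refine integral_mono_of_nonneg (Eventually.of_forall fun θ => by positivity) (i1.add i2)
      (Eventually.of_forall fun θ => ?_)
    simp only
    rw [e1, e2, e3]
    have h8 := norm_add_le (Z (fun m => c₂ m - c₁ m) d₂ M t θ) (Z c₁ (fun m => d₂ m - d₁ m) M t θ)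
    have h9 := norm_nonneg (Z (fun m => c₂ m - c₁ m) d₂ M t θ + Z c₁ (fun m => d₂ m - d₁ m) M t θ)
    have h10 : ‖Z (fun m => c₂ m - c₁ m) d₂ M t θ + Z c₁ (fun m => d₂ m - d₁ m) M t θ‖ ^ 2 ≤
        (‖Z (fun m => c₂ m - c₁ m) d₂ M t θ‖ + ‖Z c₁ (fun m => d₂ m - d₁ m) M t θ‖) ^ 2 :=
      pow_le_pow_left₀ h9 h8 2
    nlinarith [sq_nonneg (‖Z (fun m => c₂ m - c₁ m) d₂ M t θ‖ - ‖Z c₁ (fun m => d₂ m - d₁ m) M t θ‖)]
  rw [integral_add ((Z_int h6 _ _ M t).const_mul 2) ((Z_int h6 _ _ M t).const_mul 2),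
    integral_const_mul, integral_const_mul] at b3
  have hRpos : (0 : ℝ) < R := by exact_mod_cast hR
  have hHR := hH R hR
  have hpow : (R : ℝ) ^ (ε / 2) * (R : ℝ) ^ (ε / 2) = (R : ℝ) ^ ε := by
    rw [← Real.rpow_add hRpos]; congr 1; ring
  have hfin : C₁ * L * (R : ℝ) ^ (ε / 2) * HI N₁ N₂ ≤ C₁ * C₂ * (R : ℝ) ^ ε * HI N₁ N₂ := by
    rw [← hpow]
    have h11 : 0 ≤ (R : ℝ) ^ (ε / 2) := by positivity
    calc C₁ * L * (R : ℝ) ^ (ε / 2) * HI N₁ N₂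
        ≤ C₁ * (C₂ * (R : ℝ) ^ (ε / 2)) * (R : ℝ) ^ (ε / 2) * HI N₁ N₂ := by gcongr
      _ = _ := by ring
  calc ∫ θ, ‖EE a a' θ N₂ t - EE a a' θ N₁ t‖ ^ 2 ∂P
      ≤ _ := b3
    _ ≤ 4 * (C₁ * C₂ * (R : ℝ) ^ ε * HI N₁ N₂) := by linarith
    _ = _ := by ring

end Pool.Agent.T2H58.ST
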