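import Pool.Agent.T2H58.ST.Stm

set_option autoImplicit false

open MeasureTheory Filter Topology Finset

namespace Pool.Agent.T2H58.ST

open Pool.Agent.T2H98.RT (P tw S A quads gam S_MUL S_OR S_KAP S_DIV S_LIM)

namespace YB

/-- square norm of the integral of an increment -/
noncomputable def D {k : ℕ} (a a' : Fin k → ℝ) (N₁ N₂ : ℕ) (u v : ℝ) (θ : ℕ → ℝ) : ℝ :=
  ‖∫ t in u..v, (EE a a' θ N₂ t - EE a a' θ N₁ t)‖ ^ 2

theorem D_int (h3 : S_MEAS) {k : ℕ} (a a' : Fin k → ℝ) (N₁ N₂ : ℕ) (u v : ℝ) :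
    Integrable (D a a' N₁ N₂ u v) P := by
  have hc : Continuous (D a a' N₁ N₂ u v) := by
    have := ((h3 k a a' N₁ N₂).2.2.1 u v).1
    exact this.norm.pow 2
  obtain ⟨B₁, hB₁, hb₁⟩ := (h3 k a a' N₁ N₂).2.1
  obtain ⟨B₂, hB₂, hb₂⟩ := (h3 k a a' N₂ N₁).2.1
  refine Integrable.of_bound hc.aestronglyMeasurable (((B₂ + B₁) * |v - u|) ^ 2) (ae_of_all _ fun θ => ?_)
  unfold D
  rw [Real.norm_of_nonneg (by positivity)]
  refine pow_le_pow_left₀ (norm_nonneg _) ?_ 2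
  refine intervalIntegral.norm_integral_le_of_norm_le_const fun t _ => ?_
  exact (norm_sub_le _ _).trans (add_le_add (hb₂ θ t) (hb₁ θ t))

theorem EE_cont (h3 : S_MEAS) {k : ℕ} (a a' : Fin k → ℝ) (N : ℕ) (θ : ℕ → ℝ) :
    Continuous (fun t : ℝ => EE a a' θ N t) := by
  have h := (h3 k a a' N N).1
  have h2 : Continuous (fun t : ℝ => ((θ, t) : (ℕ → ℝ) × ℝ)) := continuous_const.prodMk continuous_id
  exact Continuous.comp (g := fun q : (ℕ → ℝ) × ℝ => EE a a' q.1 N q.2)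
    (f := fun t : ℝ => ((θ, t) : (ℕ → ℝ) × ℝ)) h h2

theorem incr (h3 : S_MEAS) {k : ℕ} (a a' : Fin k → ℝ) (x y : ℕ) (u v : ℝ) (θ : ℕ → ℝ) :
    ((∫ t in (0:ℝ)..v, EE a a' θ y t) - ∫ t in (0:ℝ)..v, EE a a' θ x t) -
      ((∫ t in (0:ℝ)..u, EE a a' θ y t) - ∫ t in (0:ℝ)..u, EE a a' θ x t) =
    ∫ t in u..v, (EE a a' θ y t - EE a a' θ x t) := by
  have hy := EE_cont h3 a a' y θ
  have hx := EE_cont h3 a a' x θ
  rw [intervalIntegral.integral_sub (hy.intervalIntegrable _ _) (hx.intervalIntegrable _ _),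
    ← intervalIntegral.integral_interval_sub_left (hy.intervalIntegrable 0 v) (hy.intervalIntegrable 0 u),
    ← intervalIntegral.integral_interval_sub_left (hx.intervalIntegrable 0 v) (hx.intervalIntegrable 0 u)]
  ring

theorem HH_ge (m : ℕ) : 1 ≤ HH (2 ^ m) := by
  unfold HH
  have h1 : (1 : ℕ) ∈ Icc 1 (2 ^ m) := Finset.mem_Icc.2 ⟨le_refl _, Nat.one_le_two_pow⟩
  have := Finset.single_le_sum (f := fun g : ℕ => 1 / (g : ℝ)) (fun i _ => by positivity) h1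
  simpa using this

theorem cnt (m' : ℕ) : ∑ i' ∈ range (m' + 1), ∑ _l' ∈ range (2 ^ (m' - i')), (2 : ℝ) ^ i' =
    ((m' : ℝ) + 1) * 2 ^ m' := by
  have : ∀ i' ∈ range (m' + 1), ∑ _l' ∈ range (2 ^ (m' - i')), (2 : ℝ) ^ i' = 2 ^ m' := by
    intro i' hi'
    rw [Finset.mem_range] at hi'
    rw [Finset.sum_const, Finset.card_range, nsmul_eq_mul]
    push_cast
    rw [← pow_add]
    congr 1
    omega
  rw [Finset.sum_congr rfl this, Finset.sum_const, Finset.card_range, nsmul_eq_mul]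
  push_cast
  ring

end YB

theorem pYB (h1 : S_CH2) (h2 : S_VINC) (h3 : S_MEAS) (h4 : S_LEV) : S_YB := by
  intro k a a' ε hk hε
  obtain ⟨C₁, hC₁, hV⟩ := h2 k a a' (ε / 2) hk (half_pos hε)
  obtain ⟨C₂, hC₂, hL₂⟩ := h4.2 (ε / 2) (half_pos hε)
  obtain ⟨C₃, hC₃, hL₃⟩ := h4.2 ε hε
  refine ⟨C₁ * C₂ * C₃, by positivity, fun m m' => ?_⟩
  refine ⟨fun θ => ((m : ℝ) + 1) * (((m' : ℝ) + 1) *
    ∑ i ∈ range (m + 1), ∑ l ∈ range (2 ^ (m - i)), ∑ i' ∈ range (m' + 1), ∑ l' ∈ range (2 ^ (m' - i')),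
      YB.D a a' (l * 2 ^ i) ((l + 1) * 2 ^ i) ((l' * 2 ^ i' : ℕ) : ℝ) (((l' + 1) * 2 ^ i' : ℕ) : ℝ) θ),
    ?_, ?_, ?_, ?_⟩
  · refine Integrable.const_mul (Integrable.const_mul ?_ _) _
    refine integrable_finsetSum _ fun i _ => ?_
    refine integrable_finsetSum _ fun l _ => ?_
    refine integrable_finsetSum _ fun i' _ => ?_
    refine integrable_finsetSum _ fun l' _ => ?_
    exact YB.D_int h3 a a' _ _ _ _
  · intro θ
    have : ∀ (x y : ℕ) (u v : ℝ), 0 ≤ YB.D a a' x y u v θ := fun x y u v => by unfold YB.D; positivity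
    refine mul_nonneg (by positivity) (mul_nonneg (by positivity) ?_)
    exact Finset.sum_nonneg fun i _ => Finset.sum_nonneg fun l _ => Finset.sum_nonneg fun i' _ =>
      Finset.sum_nonneg fun l' _ => this _ _ _ _
  · rw [integral_const_mul, integral_const_mul]
    have hsum : ∫ θ, ∑ i ∈ range (m + 1), ∑ l ∈ range (2 ^ (m - i)), ∑ i' ∈ range (m' + 1),
        ∑ l' ∈ range (2 ^ (m' - i')),
        YB.D a a' (l * 2 ^ i) ((l + 1) * 2 ^ i) ((l' * 2 ^ i' : ℕ) : ℝ) (((l' + 1) * 2 ^ i' : ℕ) : ℝ) θ ∂P ≤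
        C₁ * ((2 : ℝ) ^ m) ^ (ε / 2) * ((((m : ℝ) + 1) * HH (2 ^ m)) * (((m' : ℝ) + 1) * 2 ^ m')) := by
      rw [integral_finsetSum _ (fun i _ => integrable_finsetSum _ fun l _ =>
        integrable_finsetSum _ fun i' _ => integrable_finsetSum _ fun l' _ => YB.D_int h3 a a' _ _ _ _)]
      rw [← h4.1 m, ← YB.cnt m', Finset.sum_mul, Finset.mul_sum]
      refine Finset.sum_le_sum fun i hi => ?_
      rw [integral_finsetSum _ (fun l _ =>
        integrable_finsetSum _ fun i' _ => integrable_finsetSum _ fun l' _ => YB.D_int h3 a a' _ _ _ _)]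
      rw [Finset.sum_mul, Finset.mul_sum]
      refine Finset.sum_le_sum fun l hl => ?_
      rw [integral_finsetSum _ (fun i' _ => integrable_finsetSum _ fun l' _ => YB.D_int h3 a a' _ _ _ _)]
      rw [Finset.mul_sum, Finset.mul_sum]
      refine Finset.sum_le_sum fun i' hi' => ?_
      rw [integral_finsetSum _ (fun l' _ => YB.D_int h3 a a' _ _ _ _)]
      rw [Finset.mul_sum, Finset.mul_sum]
      refine Finset.sum_le_sum fun l' hl' => ?_
      have hi₁ : i ≤ m := by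
        rw [Finset.mem_range] at hi; omega
      have hl₁ : l + 1 ≤ 2 ^ (m - i) := by
        rw [Finset.mem_range] at hl; omega
      have hR : (l + 1) * 2 ^ i ≤ 2 ^ m := by
        calc (l + 1) * 2 ^ i ≤ 2 ^ (m - i) * 2 ^ i := Nat.mul_le_mul_right _ hl₁
          _ = 2 ^ m := by rw [← pow_add]; congr 1; omega
      have hx : l * 2 ^ i ≤ (l + 1) * 2 ^ i := Nat.mul_le_mul_right _ (Nat.le_succ l)
      have huv : ((l' * 2 ^ i' : ℕ) : ℝ) ≤ (((l' + 1) * 2 ^ i' : ℕ) : ℝ) := by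
        exact_mod_cast Nat.mul_le_mul_right _ (Nat.le_succ l')
      have := hV (l * 2 ^ i) ((l + 1) * 2 ^ i) (2 ^ m) _ _ hx hR Nat.one_le_two_pow huv
      unfold YB.D
      refine this.trans (le_of_eq ?_)
      push_cast
      ring
    have hm1 : ((m : ℝ) + 1) ^ 2 * HH (2 ^ m) ≤ C₂ * ((2 : ℝ) ^ m) ^ (ε / 2) := by
      refine le_trans ?_ (hL₂ m)
      have h1 := YB.HH_ge m
      have h2 : (0 : ℝ) ≤ m := Nat.cast_nonneg m
      have h5 : ((m : ℝ) + 1) ^ 2 ≤ ((m : ℝ) + 1) ^ 3 := pow_le_pow_right₀ (by linarith) (by norm_num)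
      exact mul_le_mul_of_nonneg_right h5 (by linarith)
    have hm2 : ((m' : ℝ) + 1) ^ 2 ≤ C₃ * ((2 : ℝ) ^ m') ^ ε := by
      refine le_trans ?_ (hL₃ m')
      have h1 := YB.HH_ge m'
      have h2 : (0 : ℝ) ≤ m' := Nat.cast_nonneg m'
      have h5 : ((m' : ℝ) + 1) ^ 2 ≤ ((m' : ℝ) + 1) ^ 3 := pow_le_pow_right₀ (by linarith) (by norm_num)
      have h6 : ((m' : ℝ) + 1) ^ 3 * 1 ≤ ((m' : ℝ) + 1) ^ 3 * HH (2 ^ m') :=
        mul_le_mul_of_nonneg_left h1 (by positivity)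
      linarith
    have hHH := YB.HH_ge m
    have e1 : ((2 : ℝ) ^ m) ^ ε = ((2 : ℝ) ^ m) ^ (ε / 2) * ((2 : ℝ) ^ m) ^ (ε / 2) := by
      rw [← Real.rpow_add (by positivity)]
      congr 1
      ring
    have e2 : ((2 : ℝ) ^ m') ^ (1 + ε) = (2 : ℝ) ^ m' * ((2 : ℝ) ^ m') ^ ε := by
      rw [Real.rpow_add (by positivity), Real.rpow_one]
    calc ((m : ℝ) + 1) * (((m' : ℝ) + 1) * _)
        ≤ ((m : ℝ) + 1) * (((m' : ℝ) + 1) * (C₁ * ((2 : ℝ) ^ m) ^ (ε / 2) *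
          ((((m : ℝ) + 1) * HH (2 ^ m)) * (((m' : ℝ) + 1) * 2 ^ m')))) := by
          refine mul_le_mul_of_nonneg_left (mul_le_mul_of_nonneg_left hsum (by positivity)) (by positivity)
      _ = C₁ * ((2 : ℝ) ^ m) ^ (ε / 2) * (2 : ℝ) ^ m' *
          ((((m : ℝ) + 1) ^ 2 * HH (2 ^ m)) * (((m' : ℝ) + 1) ^ 2)) := by ring
      _ ≤ C₁ * ((2 : ℝ) ^ m) ^ (ε / 2) * (2 : ℝ) ^ m' *
          ((C₂ * ((2 : ℝ) ^ m) ^ (ε / 2)) * (C₃ * ((2 : ℝ) ^ m') ^ ε)) := by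
          refine mul_le_mul_of_nonneg_left ?_ (by positivity)
          exact mul_le_mul hm1 hm2 (by positivity) (by positivity)
      _ = C₁ * C₂ * C₃ * ((2 : ℝ) ^ m) ^ ε * ((2 : ℝ) ^ m') ^ (1 + ε) := by
          rw [e1, e2]; ring
  · intro θ N T hN hT
    have := h1 (fun N T => ∫ t in (0:ℝ)..(T : ℝ), EE a a' θ N t) m m' ?_ ?_ N T hN hT
    · refine this.trans (le_of_eq ?_)
      simp only [YB.D]
      congr 2
      refine Finset.sum_congr rfl fun i _ => Finset.sum_congr rfl fun l _ =>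
        Finset.sum_congr rfl fun i' _ => Finset.sum_congr rfl fun l' _ => ?_
      rw [YB.incr h3]
    · intro T
      have h0 : ∀ t, EE a a' θ 0 t = 0 := fun t => (h3 k a a' 0 0).2.2.2 hk θ t
      simp [h0]
    · intro N
      simp

end Pool.Agent.T2H58.ST
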