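import Pool.Agent.T2H58.ST.Stm

set_option autoImplicit false

open MeasureTheory Filter Topology Finset

namespace Pool.Agent.T2H58.ST

open Pool.Agent.T2H98.RT (P tw S A quads gam S_MUL S_OR S_KAP S_DIV S_LIM)

namespace ZB

/-- mean absolute increment over a unit interval -/
noncomputable def D {k : ℕ} (a a' : Fin k → ℝ) (u : ℝ) (N₁ N₂ : ℕ) (θ : ℕ → ℝ) : ℝ :=
  ∫ t in u..(u + 1), ‖EE a a' θ N₂ t - EE a a' θ N₁ t‖

theorem D_nonneg {k : ℕ} (a a' : Fin k → ℝ) (u : ℝ) (N₁ N₂ : ℕ) (θ : ℕ → ℝ) : 0 ≤ D a a' u N₁ N₂ θ := by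
  unfold D
  exact intervalIntegral.integral_nonneg (by linarith) fun t _ => norm_nonneg _

theorem D_int (h3 : S_MEAS) {k : ℕ} (a a' : Fin k → ℝ) (u : ℝ) (N₁ N₂ : ℕ) :
    Integrable (fun θ => D a a' u N₁ N₂ θ ^ 2) P := by
  have hc : Continuous (fun θ => D a a' u N₁ N₂ θ ^ 2) := by
    have := ((h3 k a a' N₁ N₂).2.2.1 u (u + 1)).2
    exact this.pow 2
  obtain ⟨B₁, hB₁, hb₁⟩ := (h3 k a a' N₁ N₂).2.1
  obtain ⟨B₂, hB₂, hb₂⟩ := (h3 k a a' N₂ N₁).2.1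
  refine Integrable.of_bound hc.aestronglyMeasurable (((B₂ + B₁) * |u + 1 - u|) ^ 2) (ae_of_all _ fun θ => ?_)
  rw [Real.norm_of_nonneg (by positivity)]
  refine pow_le_pow_left₀ (D_nonneg a a' u N₁ N₂ θ) ?_ 2
  refine (Real.le_norm_self _).trans ?_
  unfold D
  refine intervalIntegral.norm_integral_le_of_norm_le_const fun t _ => ?_
  rw [norm_norm]
  exact (norm_sub_le _ _).trans (add_le_add (hb₂ θ t) (hb₁ θ t))

theorem EE_cont (h3 : S_MEAS) {k : ℕ} (a a' : Fin k → ℝ) (N : ℕ) (θ : ℕ → ℝ) :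
    Continuous (fun t : ℝ => EE a a' θ N t) := by
  have h := (h3 k a a' N N).1
  have h2 : Continuous (fun t : ℝ => ((θ, t) : (ℕ → ℝ) × ℝ)) := continuous_const.prodMk continuous_id
  exact Continuous.comp (g := fun q : (ℕ → ℝ) × ℝ => EE a a' q.1 N q.2)
    (f := fun t : ℝ => ((θ, t) : (ℕ → ℝ) × ℝ)) h h2

theorem D_tri (h3 : S_MEAS) {k : ℕ} (a a' : Fin k → ℝ) (u : ℝ) (x y z : ℕ) (θ : ℕ → ℝ) :
    D a a' u x z θ ≤ D a a' u x y θ + D a a' u y z θ := by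
  have hx := EE_cont h3 a a' x θ
  have hy := EE_cont h3 a a' y θ
  have hz := EE_cont h3 a a' z θ
  have c1 : Continuous (fun t : ℝ => ‖EE a a' θ y t - EE a a' θ x t‖) := (hy.sub hx).norm
  have c2 : Continuous (fun t : ℝ => ‖EE a a' θ z t - EE a a' θ y t‖) := (hz.sub hy).norm
  have c3 : Continuous (fun t : ℝ => ‖EE a a' θ z t - EE a a' θ x t‖) := (hz.sub hx).norm
  unfold D
  rw [← intervalIntegral.integral_add (c1.intervalIntegrable _ _) (c2.intervalIntegrable _ _)]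
  refine intervalIntegral.integral_mono_on (by linarith) (c3.intervalIntegrable _ _)
    ((c1.add c2).intervalIntegrable _ _) fun t _ => ?_
  have e : EE a a' θ z t - EE a a' θ x t = (EE a a' θ y t - EE a a' θ x t) + (EE a a' θ z t - EE a a' θ y t) := by
    ring
  rw [e]
  exact norm_add_le _ _

theorem HH_ge (m : ℕ) : 1 ≤ HH (2 ^ m) := by
  unfold HH
  have h1 : (1 : ℕ) ∈ Icc 1 (2 ^ m) := Finset.mem_Icc.2 ⟨le_refl _, Nat.one_le_two_pow⟩
  have := Finset.single_le_sum (f := fun g : ℕ => 1 / (g : ℝ)) (fun i _ => by positivity) h1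
  simpa using this

end ZB

theorem pZB (h1 : S_CH1) (h2 : S_EUN) (h3 : S_MEAS) (h4 : S_LEV) : S_ZB := by
  intro k a a' ε hk hε
  obtain ⟨C₁, hC₁, hV⟩ := h2 k a a' (ε / 2) hk (half_pos hε)
  obtain ⟨C₂, hC₂, hL₂⟩ := h4.2 (ε / 2) (half_pos hε)
  refine ⟨C₁ * C₂, by positivity, fun m m' => ?_⟩
  refine ⟨fun θ => ((m : ℝ) + 1) * ∑ n ∈ range (2 ^ m'),
    ∑ i ∈ range (m + 1), ∑ l ∈ range (2 ^ (m - i)), ZB.D a a' (n : ℝ) (l * 2 ^ i) ((l + 1) * 2 ^ i) θ ^ 2,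
    ?_, ?_, ?_, ?_⟩
  · refine Integrable.const_mul ?_ _
    refine integrable_finsetSum _ fun n _ => ?_
    refine integrable_finsetSum _ fun i _ => ?_
    refine integrable_finsetSum _ fun l _ => ?_
    exact ZB.D_int h3 a a' _ _ _
  · intro θ
    refine mul_nonneg (by positivity) ?_
    exact Finset.sum_nonneg fun i _ => Finset.sum_nonneg fun l _ => Finset.sum_nonneg fun i' _ => sq_nonneg _
  · rw [integral_const_mul]
    have hsum : ∫ θ, ∑ n ∈ range (2 ^ m'), ∑ i ∈ range (m + 1), ∑ l ∈ range (2 ^ (m - i)),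
        ZB.D a a' (n : ℝ) (l * 2 ^ i) ((l + 1) * 2 ^ i) θ ^ 2 ∂P ≤
        (2 : ℝ) ^ m' * (C₁ * ((2 : ℝ) ^ m) ^ (ε / 2) * (((m : ℝ) + 1) * HH (2 ^ m))) := by
      rw [integral_finsetSum _ (fun n _ => integrable_finsetSum _ fun i _ =>
        integrable_finsetSum _ fun l _ => ZB.D_int h3 a a' _ _ _)]
      have hconst : (2 : ℝ) ^ m' * (C₁ * ((2 : ℝ) ^ m) ^ (ε / 2) * (((m : ℝ) + 1) * HH (2 ^ m))) =
          ∑ _n ∈ range (2 ^ m'), (C₁ * ((2 : ℝ) ^ m) ^ (ε / 2) * (((m : ℝ) + 1) * HH (2 ^ m))) := by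
        rw [Finset.sum_const, Finset.card_range, nsmul_eq_mul]
        push_cast
        ring
      rw [hconst]
      refine Finset.sum_le_sum fun n _ => ?_
      rw [← h4.1 m, Finset.mul_sum]
      rw [integral_finsetSum _ (fun i _ => integrable_finsetSum _ fun l _ => ZB.D_int h3 a a' _ _ _)]
      refine Finset.sum_le_sum fun i hi => ?_
      rw [integral_finsetSum _ (fun l _ => ZB.D_int h3 a a' _ _ _)]
      rw [Finset.mul_sum]
      refine Finset.sum_le_sum fun l hl => ?_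
      have hi₁ : i ≤ m := by
        rw [Finset.mem_range] at hi; omega
      have hl₁ : l + 1 ≤ 2 ^ (m - i) := by
        rw [Finset.mem_range] at hl; omega
      have hR : (l + 1) * 2 ^ i ≤ 2 ^ m := by
        calc (l + 1) * 2 ^ i ≤ 2 ^ (m - i) * 2 ^ i := Nat.mul_le_mul_right _ hl₁
          _ = 2 ^ m := by rw [← pow_add]; congr 1; omega
      have hx : l * 2 ^ i ≤ (l + 1) * 2 ^ i := Nat.mul_le_mul_right _ (Nat.le_succ l)
      have := hV (l * 2 ^ i) ((l + 1) * 2 ^ i) (2 ^ m) (n : ℝ) hx hR Nat.one_le_two_pow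
      unfold ZB.D
      refine this.trans (le_of_eq ?_)
      push_cast
      ring
    have hm1 : ((m : ℝ) + 1) ^ 2 * HH (2 ^ m) ≤ C₂ * ((2 : ℝ) ^ m) ^ (ε / 2) := by
      refine le_trans ?_ (hL₂ m)
      have h1 := ZB.HH_ge m
      have h2 : (0 : ℝ) ≤ m := Nat.cast_nonneg m
      have h5 : ((m : ℝ) + 1) ^ 2 ≤ ((m : ℝ) + 1) ^ 3 := pow_le_pow_right₀ (by linarith) (by norm_num)
      exact mul_le_mul_of_nonneg_right h5 (by linarith)
    have hHH := ZB.HH_ge m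
    have e1 : ((2 : ℝ) ^ m) ^ ε = ((2 : ℝ) ^ m) ^ (ε / 2) * ((2 : ℝ) ^ m) ^ (ε / 2) := by
      rw [← Real.rpow_add (by positivity)]
      congr 1
      ring
    have e2 : (2 : ℝ) ^ m' ≤ ((2 : ℝ) ^ m') ^ (1 + ε) := by
      have h1 : (1 : ℝ) ≤ (2 : ℝ) ^ m' := one_le_pow₀ (by norm_num)
      calc (2 : ℝ) ^ m' = ((2 : ℝ) ^ m') ^ (1 : ℝ) := (Real.rpow_one _).symm
        _ ≤ ((2 : ℝ) ^ m') ^ (1 + ε) := Real.rpow_le_rpow_of_exponent_le h1 (by linarith)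
    calc ((m : ℝ) + 1) * _
        ≤ ((m : ℝ) + 1) * ((2 : ℝ) ^ m' * (C₁ * ((2 : ℝ) ^ m) ^ (ε / 2) * (((m : ℝ) + 1) * HH (2 ^ m)))) := by
          exact mul_le_mul_of_nonneg_left hsum (by positivity)
      _ = C₁ * ((2 : ℝ) ^ m) ^ (ε / 2) * (2 : ℝ) ^ m' * (((m : ℝ) + 1) ^ 2 * HH (2 ^ m)) := by ring
      _ ≤ C₁ * ((2 : ℝ) ^ m) ^ (ε / 2) * (2 : ℝ) ^ m' * (C₂ * ((2 : ℝ) ^ m) ^ (ε / 2)) := by
          exact mul_le_mul_of_nonneg_left hm1 (by positivity)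
      _ = C₁ * C₂ * ((2 : ℝ) ^ m) ^ ε * (2 : ℝ) ^ m' := by rw [e1]; ring
      _ ≤ C₁ * C₂ * ((2 : ℝ) ^ m) ^ ε * ((2 : ℝ) ^ m') ^ (1 + ε) :=
          mul_le_mul_of_nonneg_left e2 (by positivity)
  · intro θ N n hN hn
    have := h1 (fun x y => ZB.D a a' (n : ℝ) x y θ) (fun x y => ZB.D_nonneg a a' _ x y θ)
      (fun x => by simp [ZB.D]) (fun x y z => ZB.D_tri h3 a a' _ x y z θ) m N hN
    have h0 : ∀ t, EE a a' θ 0 t = 0 := fun t => (h3 k a a' 0 0).2.2.2 hk θ t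
    have e : ZB.D a a' (n : ℝ) 0 N θ = ∫ t in (n : ℝ)..((n : ℝ) + 1), ‖EE a a' θ N t‖ := by
      simp [ZB.D, h0]
    rw [e] at this
    refine this.trans ?_
    refine mul_le_mul_of_nonneg_left ?_ (by positivity)
    have hmem : n ∈ range (2 ^ m') := Finset.mem_range.2 hn
    exact Finset.single_le_sum (f := fun n : ℕ => ∑ i ∈ range (m + 1), ∑ l ∈ range (2 ^ (m - i)),
      ZB.D a a' (n : ℝ) (l * 2 ^ i) ((l + 1) * 2 ^ i) θ ^ 2)
      (fun n _ => Finset.sum_nonneg fun i _ => Finset.sum_nonneg fun l _ => sq_nonneg _) hmem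

end Pool.Agent.T2H58.ST
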