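import Pool.Agent.T2H98.RT.MUL
import Pool.Agent.T2H98.RT.OR
import Pool.Agent.T2H98.RT.KAP
import Pool.Agent.T2H98.RT.DIV
import Pool.Agent.T2H58.ST.EXPN
import Pool.Agent.T2H58.ST.CFB
import Pool.Agent.T2H58.ST.HAR
import Pool.Agent.T2H58.ST.LOGW
import Pool.Agent.T2H58.ST.UB
import Pool.Agent.T2H58.ST.VARC
import Pool.Agent.T2H58.ST.VARPT
import Pool.Agent.T2H58.ST.QB
import Pool.Agent.T2H58.ST.QINC
import Pool.Agent.T2H58.ST.MEAS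
import Pool.Agent.T2H58.ST.VINC
import Pool.Agent.T2H58.ST.VPT
import Pool.Agent.T2H58.ST.EUN
import Pool.Agent.T2H58.ST.CH1
import Pool.Agent.T2H58.ST.CH2
import Pool.Agent.T2H58.ST.LEV
import Pool.Agent.T2H58.ST.YB
import Pool.Agent.T2H58.ST.ZB
import Pool.Agent.T2H58.ST.BC
import Pool.Agent.T2H58.ST.FIN1
import Pool.Agent.T2H58.ST.FUB

set_option autoImplicit false

namespace Pool.Agent.T2H58.ST

open Pool.Agent.T2H98.RT (pMUL pOR pKAP pDIV)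

theorem vMEAS : S_MEAS := pMEAS pMUL
theorem vQINC : S_QINC := pQINC (pCFB pDIV) (pUB pDIV) pQB pHAR
theorem vVINC : S_VINC := pVINC (pEXPN pMUL) (pVARC pMUL pOR pKAP) vQINC pLOGW pHAR pMUL vMEAS
theorem vVPT : S_VPT := pVPT (pEXPN pMUL) (pVARPT pMUL pOR) vQINC pLOGW pHAR pMUL vMEAS
theorem vEUN : S_EUN := pEUN vVPT vMEAS
theorem vYB : S_YB := pYB (pCH2 pCH1) vVINC vMEAS pLEV
theorem vZB : S_ZB := pZB pCH1 vEUN vMEAS pLEV
theorem vFIN1 : S_FIN1 := pFIN1 vYB vZB pBC vMEAS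

end Pool.Agent.T2H58.ST
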