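import Pool.Agent.T2H58.ST.Stm2

/-! package CHB -/

set_option autoImplicit false

open MeasureTheory Filter Topology Finset

namespace Pool.Agent.T2H58.ST

namespace CHB

/-- truncation of `n` to the multiples of `2 ^ i` -/
def hi (n i : ℕ) : ℕ := n / 2 ^ i * 2 ^ i

theorem hi_succ (n i : ℕ) : hi n (i + 1) = n / 2 ^ i / 2 * 2 * 2 ^ i := by
  unfold hi
  rw [pow_succ, ← Nat.div_div_eq_div_mul]
  ring

theorem hi_anti (n : ℕ) : Antitone (hi n) := by
  apply antitone_nat_of_succ_le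
  intro i
  rw [hi_succ]
  exact Nat.mul_le_mul_right _ (Nat.div_mul_le_self _ _)

theorem hi_zero (n : ℕ) : hi n 0 = n := by
  unfold hi
  simp

theorem hi_le (n i : ℕ) : hi n i ≤ n := Nat.div_mul_le_self _ _

theorem hi_top {n m : ℕ} (h : n ≤ 2 ^ m) : hi n (m + 1) = 0 := by
  unfold hi
  have : n < 2 ^ (m + 1) := lt_of_le_of_lt h (Nat.pow_lt_pow_right (by norm_num) (by omega))
  rw [Nat.div_eq_of_lt this, zero_mul]

theorem exists_level {n m v : ℕ} (h : n ≤ 2 ^ m) (h0 : 0 < v) (hv : v ≤ n) :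
    ∃ i, i ≤ m ∧ hi n (i + 1) < v ∧ v ≤ hi n i := by
  classical
  have hP0 : v ≤ hi n 0 := by rw [hi_zero]; exact hv
  refine ⟨Nat.findGreatest (fun i => v ≤ hi n i) m, Nat.findGreatest_le m, ?_, ?_⟩
  · by_contra hc
    have hc : v ≤ hi n (Nat.findGreatest (fun i => v ≤ hi n i) m + 1) := not_lt.1 hc
    rcases (Nat.findGreatest_le (P := fun i => v ≤ hi n i) m).eq_or_lt with he | hl
    · rw [he, hi_top h] at hc
      omega
    · exact Nat.findGreatest_is_greatest (P := fun i => v ≤ hi n i) (Nat.lt_succ_self _) hl hc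
  · exact Nat.findGreatest_spec (P := fun i => v ≤ hi n i) (Nat.zero_le m) hP0

/-- the piece of level `i` -/
def B {k : ℕ} (N i : Tu k) : Finset (Tu k) :=
  Fintype.piFinset fun j => Ioc (hi (N j) (i j + 1)) (hi (N j) (i j))

theorem mem_B {k : ℕ} (N i v : Tu k) : v ∈ B N i ↔ ∀ j, hi (N j) (i j + 1) < v j ∧ v j ≤ hi (N j) (i j) := by
  unfold B
  rw [Fintype.mem_piFinset]
  simp only [Finset.mem_Ioc]

theorem box_eq {k m : ℕ} (N : Tu k) (hN : ∀ j, N j ≤ 2 ^ m) : box 0 N = (lev k m).biUnion (B N) := by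
  classical
  ext v
  rw [Finset.mem_biUnion]
  unfold box
  rw [Fintype.mem_piFinset]
  constructor
  · intro hv
    have : ∀ j, ∃ i, i ≤ m ∧ hi (N j) (i + 1) < v j ∧ v j ≤ hi (N j) i := by
      intro j
      have h1 := Finset.mem_Ioc.1 (hv j)
      exact exists_level (hN j) h1.1 h1.2
    choose i h1 h2 h3 using this
    refine ⟨i, ?_, ?_⟩
    · unfold lev
      rw [Fintype.mem_piFinset]
      intro j
      rw [Finset.mem_range]
      have := h1 j
      omega
    · rw [mem_B]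
      exact fun j => ⟨h2 j, h3 j⟩
  · rintro ⟨i, -, hv⟩ j
    rw [mem_B] at hv
    obtain ⟨h1, h2⟩ := hv j
    rw [Finset.mem_Ioc]
    refine ⟨?_, h2.trans (hi_le _ _)⟩
    show 0 < v j
    omega

theorem B_disj {k : ℕ} (N i i' : Tu k) (h : i ≠ i') : Disjoint (B N i) (B N i') := by
  rw [Finset.disjoint_left]
  intro v hv hv'
  rw [mem_B] at hv hv'
  apply h
  funext j
  obtain ⟨h1, h2⟩ := hv j
  obtain ⟨h3, h4⟩ := hv' j
  rcases lt_trichotomy (i j) (i' j) with hlt | he | hlt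
  · exfalso
    have := hi_anti (N j) (show i j + 1 ≤ i' j from hlt)
    omega
  · exact he
  · exfalso
    have := hi_anti (N j) (show i' j + 1 ≤ i j from hlt)
    omega

theorem B_dy {k m : ℕ} (N i : Tu k) (hN : ∀ j, N j ≤ 2 ^ m) (hi' : i ∈ lev k m) :
    B N i = ∅ ∨ ∃ l ∈ pos m i, B N i = dy i l := by
  classical
  by_cases h : ∀ j, hi (N j) (i j + 1) < hi (N j) (i j)
  · right
    have hodd : ∀ j, N j / 2 ^ i j / 2 * 2 + 1 = N j / 2 ^ i j := by
      intro j
      have h1 := h j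
      rw [hi_succ] at h1
      unfold hi at h1
      have h2 : N j / 2 ^ i j / 2 * 2 < N j / 2 ^ i j := lt_of_mul_lt_mul_right h1 (Nat.zero_le _)
      omega
    refine ⟨fun j => N j / 2 ^ i j / 2 * 2, ?_, ?_⟩
    · unfold pos
      rw [Fintype.mem_piFinset]
      intro j
      have h3 : i j ≤ m := by
        have := Finset.mem_range.1 (Fintype.mem_piFinset.1 hi' j)
        omega
      rw [Finset.mem_range]
      have h4 : N j / 2 ^ i j ≤ 2 ^ (m - i j) := by
        rw [← Nat.pow_div h3 (by norm_num)]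
        exact Nat.div_le_div_right (hN j)
      have h5 := hodd j
      omega
    · unfold B dy box
      congr 1
      funext j
      rw [hi_succ]
      congr 1
      show N j / 2 ^ i j * 2 ^ i j = (N j / 2 ^ i j / 2 * 2 + 1) * 2 ^ i j
      rw [hodd j]
  · left
    push Not at h
    obtain ⟨j, hj⟩ := h
    rw [Finset.eq_empty_iff_forall_notMem]
    intro v hv
    rw [mem_B] at hv
    have := hv j
    omega

theorem subadd {k : ℕ} (ρ : Finset (Tu k) → ℝ) (h0 : ρ ∅ = 0)
    (hsub : ∀ U U', Disjoint U U' → ρ (U ∪ U') ≤ ρ U + ρ U') (B : Tu k → Finset (Tu k))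
    (hB : ∀ i i', i ≠ i' → Disjoint (B i) (B i')) (s : Finset (Tu k)) :
    ρ (s.biUnion B) ≤ ∑ i ∈ s, ρ (B i) := by
  classical
  induction s using Finset.induction_on with
  | empty => rw [Finset.biUnion_empty, Finset.sum_empty, h0]
  | insert a s ha ih =>
    rw [Finset.biUnion_insert, Finset.sum_insert ha]
    refine (hsub _ _ ?_).trans (by linarith)
    rw [Finset.disjoint_biUnion_right]
    intro i hi
    exact hB a i (by rintro rfl; exact ha hi)

end CHB

open CHB in
theorem pCHB : S_CHB := by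
  intro k m ρ hnn h0 hsub N hN
  classical
  have h1 : ρ (box 0 N) ≤ ∑ i ∈ lev k m, ρ (B N i) := by
    rw [box_eq N hN]
    convert subadd ρ h0 ?_ (B N) (B_disj N) (lev k m) using 2
    intro U U' hU
    convert hsub U U' hU
  have h2 : ρ (box 0 N) ^ 2 ≤ (∑ i ∈ lev k m, ρ (B N i)) ^ 2 := pow_le_pow_left₀ (hnn _) h1 2
  have h3 : (∑ i ∈ lev k m, ρ (B N i)) ^ 2 ≤ ((lev k m).card : ℝ) * ∑ i ∈ lev k m, ρ (B N i) ^ 2 :=
    sq_sum_le_card_mul_sum_sq
  have h4 : ((lev k m).card : ℝ) = ((m : ℝ) + 1) ^ (2 * k) := by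
    unfold lev
    rw [Fintype.card_piFinset]
    simp only [Finset.card_range, Finset.prod_const, Finset.card_univ, Fintype.card_sum, Fintype.card_fin]
    push_cast
    rw [two_mul]
  refine h2.trans (h3.trans ?_)
  rw [h4]
  refine mul_le_mul_of_nonneg_left ?_ (by positivity)
  refine Finset.sum_le_sum fun i hi => ?_
  rcases B_dy N i hN hi with he | ⟨l, hl, he⟩
  · rw [he, h0]
    have : 0 ≤ ∑ l ∈ pos m i, ρ (dy i l) ^ 2 := Finset.sum_nonneg fun l _ => sq_nonneg _
    simpa using this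
  · rw [he]
    exact Finset.single_le_sum (f := fun l => ρ (dy i l) ^ 2) (fun l _ => sq_nonneg _) hl

end Pool.Agent.T2H58.ST
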