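import Pool.Agent.T2H58.ST.Stm2

/-! package DIS -/

set_option autoImplicit false

open MeasureTheory Filter Topology Finset

namespace Pool.Agent.T2H58.ST

theorem pDIS : S_DIS := by
  intro k m i hi
  have hi' : ∀ j, i j ≤ m := fun j => by
    have := Finset.mem_range.1 (Fintype.mem_piFinset.1 hi j)
    omega
  have hmem : ∀ (l v : Tu k), v ∈ dy i l ↔ ∀ j, l j * 2 ^ i j < v j ∧ v j ≤ (l j + 1) * 2 ^ i j := by
    intro l v
    unfold dy box
    rw [Fintype.mem_piFinset]
    simp only [Finset.mem_Ioc]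
  constructor
  · intro l hl v hv
    rw [hmem] at hv
    unfold cube
    rw [Fintype.mem_piFinset]
    intro j
    obtain ⟨h1, h2⟩ := hv j
    have h3 : l j < 2 ^ (m - i j) := Finset.mem_range.1 (Fintype.mem_piFinset.1 hl j)
    have h4 : (l j + 1) * 2 ^ i j ≤ 2 ^ (m - i j) * 2 ^ i j := Nat.mul_le_mul_right _ h3
    rw [← pow_add, Nat.sub_add_cancel (hi' j)] at h4
    rw [Finset.mem_Icc]
    exact ⟨by omega, h2.trans h4⟩
  · intro l _ l' _ hne
    rw [Finset.disjoint_left]
    intro v hv hv'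
    rw [hmem] at hv hv'
    apply hne
    funext j
    obtain ⟨h1, h2⟩ := hv j
    obtain ⟨h3, h4⟩ := hv' j
    rcases lt_trichotomy (l j) (l' j) with h | h | h
    · exfalso
      have h5 : (l j + 1) * 2 ^ i j ≤ l' j * 2 ^ i j := Nat.mul_le_mul_right _ h
      omega
    · exact h
    · exfalso
      have h5 : (l' j + 1) * 2 ^ i j ≤ l j * 2 ^ i j := Nat.mul_le_mul_right _ h
      omega

end Pool.Agent.T2H58.ST
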