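import Pool.Agent.T2H58.ST.Stm2
import Pool.Agent.T2H58.ST.EUN

/-! package EU2 -/

set_option autoImplicit false

open MeasureTheory Filter Topology Finset

namespace Pool.Agent.T2H58.ST

open Pool.Agent.T2H98.RT (P tw S A quads gam S_MUL S_OR S_KAP S_DIV)

namespace EU2

lemma gen (G : (ℕ → ℝ) → ℝ → ℂ) (M : ℝ) (hct : ∀ θ, Continuous (fun t : ℝ => G θ t))
    (hcθ : ∀ t, Continuous (fun θ : ℕ → ℝ => G θ t)) (hb : ∀ θ t, ‖G θ t‖ ≤ M) (u : ℝ) :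
    ∫ θ, (∫ t in u..(u + 1), ‖G θ t‖) ^ 2 ∂P ≤ ∫ t in Set.Ioc u (u + 1), ∫ θ, ‖G θ t‖ ^ 2 ∂P ∧
      Integrable (fun t => ∫ θ, ‖G θ t‖ ^ 2 ∂P) (volume.restrict (Set.Ioc u (u + 1))) := by
  set ν : Measure ℝ := volume.restrict (Set.Ioc u (u + 1)) with hν
  have hνp : IsProbabilityMeasure ν := ⟨by
    rw [hν, Measure.restrict_apply_univ, Real.volume_Ioc]
    simp⟩
  have hle : u ≤ u + 1 := by linarith
  have hm : Measurable (Function.uncurry fun (t : ℝ) (θ : ℕ → ℝ) => ‖G θ t‖) :=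
    measurable_uncurry_of_continuous_of_measurable (u := fun (t : ℝ) (θ : ℕ → ℝ) => ‖G θ t‖)
      (fun θ => (hct θ).norm) (fun t => (hcθ t).norm.measurable)
  have hm' : Measurable (fun q : (ℕ → ℝ) × ℝ => ‖G q.1 q.2‖) := hm.comp measurable_swap
  have hgb : ∀ θ t, |‖G θ t‖| ≤ M := fun θ t => by
    rw [abs_norm]
    exact hb θ t
  have hg2b : ∀ θ t, |‖G θ t‖ ^ 2| ≤ M ^ 2 := fun θ t => by
    rw [abs_pow]
    exact pow_le_pow_left₀ (abs_nonneg _) (hgb θ t) 2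
  have hgt : ∀ θ, Integrable (fun t => ‖G θ t‖) ν := fun θ =>
    Integrable.of_bound (hct θ).norm.aestronglyMeasurable M
      (Eventually.of_forall fun t => by rw [Real.norm_eq_abs]; exact hgb θ t)
  have hgt2 : ∀ θ, Integrable (fun t => ‖G θ t‖ ^ 2) ν := fun θ =>
    Integrable.of_bound ((hct θ).norm.pow 2).aestronglyMeasurable (M ^ 2)
      (Eventually.of_forall fun t => by rw [Real.norm_eq_abs]; exact hg2b θ t)
  have hprod : Integrable (fun q : (ℕ → ℝ) × ℝ => ‖G q.1 q.2‖ ^ 2) (P.prod ν) :=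
    Integrable.of_bound (hm'.pow_const 2).aestronglyMeasurable (M ^ 2)
      (Eventually.of_forall fun q => by rw [Real.norm_eq_abs]; exact hg2b q.1 q.2)
  have hstep1 : ∀ θ, (∫ t in u..(u + 1), ‖G θ t‖) ^ 2 ≤ ∫ t, ‖G θ t‖ ^ 2 ∂ν := fun θ => by
    rw [intervalIntegral.integral_of_le hle]
    exact EUN.sq_integral_le (hgt θ) (hgt2 θ)
  have hint1 : Integrable (fun θ => ∫ t, ‖G θ t‖ ^ 2 ∂ν) P := hprod.integral_prod_left
  refine ⟨?_, hprod.integral_prod_right⟩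
  calc ∫ θ, (∫ t in u..(u + 1), ‖G θ t‖) ^ 2 ∂P
      ≤ ∫ θ, ∫ t, ‖G θ t‖ ^ 2 ∂ν ∂P :=
        integral_mono_of_nonneg (Eventually.of_forall fun θ => sq_nonneg _) hint1
          (Eventually.of_forall hstep1)
    _ = ∫ t, ∫ θ, ‖G θ t‖ ^ 2 ∂P ∂ν := integral_integral_swap hprod

lemma gen2 {β : Type} (s : Finset β) (G : β → (ℕ → ℝ) → ℝ → ℂ) (M : β → ℝ)
    (hct : ∀ b θ, Continuous (fun t : ℝ => G b θ t))
    (hcθ : ∀ b t, Continuous (fun θ : ℕ → ℝ => G b θ t)) (hb : ∀ b θ t, ‖G b θ t‖ ≤ M b) (u K : ℝ)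
    (hK : ∀ t, ∑ b ∈ s, ∫ θ, ‖G b θ t‖ ^ 2 ∂P ≤ K) :
    ∑ b ∈ s, ∫ θ, (∫ t in u..(u + 1), ‖G b θ t‖) ^ 2 ∂P ≤ K := by
  set ν : Measure ℝ := volume.restrict (Set.Ioc u (u + 1)) with hν
  have hνp : IsProbabilityMeasure ν := ⟨by
    rw [hν, Measure.restrict_apply_univ, Real.volume_Ioc]
    simp⟩
  calc ∑ b ∈ s, ∫ θ, (∫ t in u..(u + 1), ‖G b θ t‖) ^ 2 ∂P
      ≤ ∑ b ∈ s, ∫ t, ∫ θ, ‖G b θ t‖ ^ 2 ∂P ∂ν :=
        Finset.sum_le_sum fun b _ => (gen (G b) (M b) (hct b) (hcθ b) (hb b) u).1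
    _ = ∫ t, ∑ b ∈ s, ∫ θ, ‖G b θ t‖ ^ 2 ∂P ∂ν :=
        (integral_finset_sum s fun b _ => (gen (G b) (M b) (hct b) (hcθ b) (hb b) u).2).symm
    _ ≤ ∫ _t, K ∂ν := by
        refine integral_mono_of_nonneg
          (Eventually.of_forall fun t => Finset.sum_nonneg fun b _ => integral_nonneg fun θ => sq_nonneg _)
          (integrable_const _) (Eventually.of_forall fun t => ?_)
        exact hK t
    _ = K := by simp

end EU2

theorem pEU2 (h1 : S_SUM) (h2 : S_ME2) : S_EU2 := by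
  intro k ε hk hε
  obtain ⟨C, hC, hv⟩ := h1 k ε hk hε
  refine ⟨C, hC, fun R β U hR hU hd u => ?_⟩
  obtain ⟨-, hpt⟩ := hv R β U hR hU hd
  exact EU2.gen2 β (fun b θ t => FB θ (U b) t) (fun b => ((U b).card : ℝ)) (fun b θ => (h2 k (U b)).1 θ)
    (fun b t => (h2 k (U b)).2.1 t) (fun b θ t => (h2 k (U b)).2.2.1 θ t) u _ hpt

end Pool.Agent.T2H58.ST
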