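import Pool.Agent.T2H58.ST.Stm2
import Pool.Agent.T2H98.RT.PW

/-! Project ST, package EXPS: the product of the shifted sums with different lengths. -/

set_option autoImplicit false

open MeasureTheory Filter Topology Finset

namespace Pool.Agent.T2H58.ST

open Pool.Agent.T2H98.RT (P tw S A quads gam S_MUL S_OR S_KAP S_DIV)

namespace EXPS

open Pool.Agent.T2H98.RT.PW (g g_prod cpow_eq)

lemma split (θ : ℕ → ℝ) (t a : ℝ) (n : ℕ) (hn : n ≠ 0) :
    tw θ n * (n : ℂ) ^ (-(1 / 2 : ℂ) - ((t + a : ℝ) : ℂ) * Complex.I) =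
      g θ t n * (n : ℂ) ^ (((-a : ℝ) : ℂ) * Complex.I) := by
  unfold g
  rw [mul_assoc, ← Complex.cpow_add _ _ (by exact_mod_cast hn : (n : ℂ) ≠ 0)]
  congr 2
  push_cast
  ring

lemma conj_pow (a : ℝ) (n : ℕ) (hn : n ≠ 0) :
    (starRingEnd ℂ) ((n : ℂ) ^ (((-a : ℝ) : ℂ) * Complex.I)) = (n : ℂ) ^ ((a : ℂ) * Complex.I) := by
  have hn' : (n : ℂ) ≠ 0 := by exact_mod_cast hn
  rw [Complex.cpow_def_of_ne_zero hn', Complex.cpow_def_of_ne_zero hn', ← Complex.natCast_log,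
    ← Complex.exp_conj, map_mul, map_mul, Complex.conj_ofReal, Complex.conj_ofReal, Complex.conj_I]
  congr 1
  push_cast
  ring

lemma K_eq (θ : ℕ → ℝ) (t : ℝ) (m n : ℕ) (hm : m ≠ 0) (hn : n ≠ 0) :
    g θ t m * (starRingEnd ℂ) (g θ t n) =
      tw θ m * (starRingEnd ℂ) (tw θ n) / (Real.sqrt ((m : ℝ) * n) : ℂ) *
        Complex.exp (-(t * ((Real.log m - Real.log n : ℝ) : ℂ) * Complex.I)) := by
  unfold g
  rw [cpow_eq t m hm, cpow_eq t n hn, map_mul, map_mul, Complex.conj_ofReal, ← Complex.exp_conj,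
    map_neg, map_mul, map_mul, Complex.conj_ofReal, Complex.conj_ofReal, Complex.conj_I,
    Real.sqrt_mul (Nat.cast_nonneg m)]
  have h : Complex.exp (-(t * ((Real.log m - Real.log n : ℝ) : ℂ) * Complex.I)) =
      Complex.exp (-(t * Real.log m * Complex.I)) * Complex.exp (-(t * Real.log n * -Complex.I)) := by
    rw [← Complex.exp_add]
    congr 1
    push_cast
    ring
  rw [h]
  push_cast
  field_simp

lemma K_diag (hMUL : S_MUL) (θ : ℕ → ℝ) (t : ℝ) (m : ℕ) (hm : m ≠ 0) :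
    g θ t m * (starRingEnd ℂ) (g θ t m) = 1 / (m : ℂ) := by
  rw [K_eq θ t m m hm hm, sub_self, Real.sqrt_mul_self (Nat.cast_nonneg m), Complex.mul_conj,
    Complex.normSq_eq_norm_sq, hMUL.2.1 θ m]
  simp

end EXPS

open EXPS in
theorem pEXPS (h1 : S_MUL) : S_EXPS := by
  classical
  intro k a θ N t
  -- the factors
  let F : Fin k ⊕ Fin k → ℕ → ℂ := fun j n =>
    Sum.elim (fun i => tw θ n * (n : ℂ) ^ (-(1 / 2 : ℂ) - ((t + a (Sum.inl i) : ℝ) : ℂ) * Complex.I))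
      (fun i => (starRingEnd ℂ) (tw θ n *
        (n : ℂ) ^ (-(1 / 2 : ℂ) - ((t + a (Sum.inr i) : ℝ) : ℂ) * Complex.I))) j
  have hIcc : ∀ n : ℕ, Finset.Icc 1 n = Finset.Ioc 0 n := fun n => rfl
  have hPN : PN a θ N t = ∑ v ∈ box 0 N, ∏ j, F j (v j) := by
    unfold box
    rw [← Finset.prod_univ_sum]
    unfold PN
    rw [Fintype.prod_sum_type, map_prod]
    congr 1
    refine Finset.prod_congr rfl fun i _ => ?_
    unfold S
    rw [map_sum]
    rfl
  have hne : ∀ v ∈ box 0 N, ∀ j, v j ≠ 0 := by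
    intro v hv j
    unfold box at hv
    rw [Fintype.mem_piFinset] at hv
    have := (Finset.mem_Ioc.mp (hv j)).1
    exact Nat.pos_iff_ne_zero.mp this
  have hterm : ∀ v ∈ box 0 N, ∏ j, F j (v j) =
      (∏ j, wt a j (v j)) * (Pool.Agent.T2H98.RT.PW.g θ t (pl v) *
        (starRingEnd ℂ) (Pool.Agent.T2H98.RT.PW.g θ t (pr v))) := by
    intro v hv
    rw [Fintype.prod_sum_type, Fintype.prod_sum_type]
    have e1 : ∏ i, F (Sum.inl i) (v (Sum.inl i)) =
        (∏ i, wt a (Sum.inl i) (v (Sum.inl i))) * Pool.Agent.T2H98.RT.PW.g θ t (pl v) := by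
      unfold pl
      rw [← Pool.Agent.T2H98.RT.PW.g_prod h1 θ t (fun i => v (Sum.inl i)) (fun i => hne v hv _)
        Finset.univ, ← Finset.prod_mul_distrib]
      refine Finset.prod_congr rfl fun i _ => ?_
      show tw θ (v (Sum.inl i)) * ((v (Sum.inl i) : ℕ) : ℂ) ^
        (-(1 / 2 : ℂ) - ((t + a (Sum.inl i) : ℝ) : ℂ) * Complex.I) = _
      rw [EXPS.split θ t (a (Sum.inl i)) _ (hne v hv _), mul_comm]
      rfl
    have e2 : ∏ i, F (Sum.inr i) (v (Sum.inr i)) =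
        (∏ i, wt a (Sum.inr i) (v (Sum.inr i))) *
          (starRingEnd ℂ) (Pool.Agent.T2H98.RT.PW.g θ t (pr v)) := by
      unfold pr
      rw [← Pool.Agent.T2H98.RT.PW.g_prod h1 θ t (fun i => v (Sum.inr i)) (fun i => hne v hv _)
        Finset.univ, map_prod, ← Finset.prod_mul_distrib]
      refine Finset.prod_congr rfl fun i _ => ?_
      show (starRingEnd ℂ) (tw θ (v (Sum.inr i)) * ((v (Sum.inr i) : ℕ) : ℂ) ^
        (-(1 / 2 : ℂ) - ((t + a (Sum.inr i) : ℝ) : ℂ) * Complex.I)) = _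
      rw [EXPS.split θ t (a (Sum.inr i)) _ (hne v hv _), map_mul, EXPS.conj_pow _ _ (hne v hv _),
        mul_comm]
      rfl
    rw [e1, e2]
    ring
  rw [hPN]
  unfold dgN
  rw [Finset.sum_filter, ← Finset.sum_sub_distrib]
  refine Finset.sum_congr rfl fun v hv => ?_
  rw [hterm v hv]
  have hl : pl v ≠ 0 := Finset.prod_ne_zero_iff.mpr fun i _ => hne v hv _
  have hr : pr v ≠ 0 := Finset.prod_ne_zero_iff.mpr fun i _ => hne v hv _
  unfold ev
  by_cases h : pl v = pr v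
  · rw [if_pos h, if_pos h, ← h, EXPS.K_diag h1 θ t _ hl]
    ring
  · rw [if_neg h, if_neg h, EXPS.K_eq θ t _ _ hl hr, sub_zero]

end Pool.Agent.T2H58.ST
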