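import Pool.Agent.T2H58.ST.Stm2

/-! Project ST, package FIN2: the almost sure square-root error, all lengths, one null set. -/

set_option autoImplicit false

open MeasureTheory Filter Topology Finset

namespace Pool.Agent.T2H58.ST

open Pool.Agent.T2H98.RT (P tw S A quads gam S_MUL S_OR S_KAP S_DIV)

namespace FIN2

lemma pow_id (B j : ℕ) (ε : ℝ) : ((2 : ℝ) ^ (B * j)) ^ (ε / (B + 1)) * ((2 : ℝ) ^ j) ^ (1 + ε / (B + 1)) =
    ((2 : ℝ) ^ j) ^ (1 + ε) := by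
  have hB : (B : ℝ) + 1 ≠ 0 := by positivity
  rw [← Real.rpow_natCast 2 (B * j), ← Real.rpow_natCast 2 j, ← Real.rpow_mul (by norm_num),
    ← Real.rpow_mul (by norm_num), ← Real.rpow_mul (by norm_num), ← Real.rpow_add (by norm_num)]
  congr 1
  push_cast
  field_simp
  ring

lemma sqrt_bound {x K : ℝ} {y e : ℝ} (hK : 0 ≤ K) (hy : 0 ≤ y)
    (h : x ^ 2 ≤ K * y ^ (1 + 2 * e)) : x ≤ Real.sqrt K * y ^ (1 / 2 + e) := by
  have h1 : (y ^ (1 / 2 + e)) ^ 2 = y ^ (1 + 2 * e) := by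
    rw [← Real.rpow_natCast, ← Real.rpow_mul hy]
    congr 1
    push_cast
    ring
  have h2 : x ^ 2 ≤ (Real.sqrt K * y ^ (1 / 2 + e)) ^ 2 := by
    rw [mul_pow, Real.sq_sqrt hK, h1]
    exact h
  exact le_of_sq_le_sq h2 (by positivity)

lemma fixed (h1 : S_YB2) (h2 : S_ZB2) (h3 : S_BC) (h4 : S_ME2) (k : ℕ) (hk : 1 ≤ k) (B : ℕ) (ε : ℝ)
    (hε : 0 < ε) : ∀ᵐ θ ∂P, ∃ K : ℝ, 0 < K ∧ ∀ (T : ℝ) (N : Tu k), 1 ≤ T →
      (∀ j, (N j : ℝ) ≤ T ^ B) → ‖∫ t in (0:ℝ)..T, FB θ (box 0 N) t‖ ≤ K * T ^ (1 / 2 + ε) := by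
  have hε' : 0 < ε / (B + 1) := by positivity
  obtain ⟨C, hC, hY⟩ := h1 k _ hk hε'
  obtain ⟨C', hC', hZ⟩ := h2 k _ hk hε'
  choose Y hYi hY0 hYe hYb using fun j : ℕ => hY (B * j) j
  choose Z hZi hZ0 hZe hZb using fun j : ℕ => hZ (B * j) j
  have hYae := h3 Y C ε hε (fun j => ⟨hYi j, hY0 j⟩) (by
    intro j
    refine (hYe j).trans (le_of_eq ?_)
    rw [mul_assoc, FIN2.pow_id])
  have hZae := h3 Z C' ε hε (fun j => ⟨hZi j, hZ0 j⟩) (by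
    intro j
    refine (hZe j).trans (le_of_eq ?_)
    rw [mul_assoc, FIN2.pow_id])
  filter_upwards [hYae, hZae] with θ hYθ hZθ
  obtain ⟨K, hK, hKY⟩ := hYθ
  obtain ⟨K', hK', hKZ⟩ := hZθ
  refine ⟨(Real.sqrt K + Real.sqrt K') * 2 ^ (1 / 2 + ε), by positivity, ?_⟩
  intro T N hT hNT
  have hT0 : 0 ≤ T := by linarith
  have hcont : Continuous (fun t : ℝ => FB θ (box 0 N) t) := (h4 k (box 0 N)).1 θ
  -- the dyadic level
  set n : ℕ := ⌊T⌋₊ with hn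
  have hn1 : 1 ≤ n := Nat.le_floor (by exact_mod_cast hT)
  have hnT : (n : ℝ) ≤ T := Nat.floor_le hT0
  have hTn : T < n + 1 := Nat.lt_floor_add_one T
  set j : ℕ := Nat.log 2 n + 1 with hj
  have hnj : n < 2 ^ j := Nat.lt_pow_succ_log_self (by norm_num) n
  have hjn : 2 ^ (Nat.log 2 n) ≤ n := Nat.pow_log_le_self 2 (by omega)
  have hjT : (2 : ℝ) ^ j ≤ 2 * T := by
    have : ((2 ^ (Nat.log 2 n) : ℕ) : ℝ) ≤ T := le_trans (by exact_mod_cast hjn) hnT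
    rw [hj, pow_succ]
    push_cast at this
    linarith
  have hTj : T ≤ (2 : ℝ) ^ j := by
    have : ((n + 1 : ℕ) : ℝ) ≤ ((2 ^ j : ℕ) : ℝ) := by exact_mod_cast hnj
    push_cast at this
    linarith
  have hNj : ∀ a, N a ≤ 2 ^ (B * j) := by
    intro a
    have : (N a : ℝ) ≤ ((2 ^ (B * j) : ℕ) : ℝ) := by
      push_cast
      rw [mul_comm B j, pow_mul]
      exact (hNT a).trans (pow_le_pow_left₀ hT0 hTj B)
    exact_mod_cast this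
  have y1 : ‖∫ t in (0:ℝ)..(n : ℝ), FB θ (box 0 N) t‖ ^ 2 ≤ K * ((2:ℝ) ^ j) ^ (1 + 2 * ε) :=
    (hYb j θ N n hNj hnj.le).trans (hKY j)
  have z1 : (∫ t in (n : ℝ)..((n : ℝ) + 1), ‖FB θ (box 0 N) t‖) ^ 2 ≤ K' * ((2:ℝ) ^ j) ^ (1 + 2 * ε) :=
    (hZb j θ N n hNj hnj).trans (hKZ j)
  have y2 := FIN2.sqrt_bound hK.le (by positivity) y1
  have z0 : 0 ≤ ∫ t in (n : ℝ)..((n : ℝ) + 1), ‖FB θ (box 0 N) t‖ :=
    intervalIntegral.integral_nonneg (by linarith) fun t _ => norm_nonneg _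
  have z2 := FIN2.sqrt_bound hK'.le (by positivity) z1
  have hsplit : (∫ t in (0:ℝ)..T, FB θ (box 0 N) t) =
      (∫ t in (0:ℝ)..(n : ℝ), FB θ (box 0 N) t) + ∫ t in (n : ℝ)..T, FB θ (box 0 N) t :=
    (intervalIntegral.integral_add_adjacent_intervals (hcont.intervalIntegrable _ _)
      (hcont.intervalIntegrable _ _)).symm
  have hlast : ‖∫ t in (n : ℝ)..T, FB θ (box 0 N) t‖ ≤ ∫ t in (n : ℝ)..((n : ℝ) + 1), ‖FB θ (box 0 N) t‖ := by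
    refine (intervalIntegral.norm_integral_le_integral_norm hnT).trans ?_
    refine intervalIntegral.integral_mono_interval le_rfl hnT hTn.le ?_ ?_
    · exact Eventually.of_forall fun t => norm_nonneg _
    · exact hcont.norm.intervalIntegrable _ _
  have hpow : ((2:ℝ) ^ j) ^ (1 / 2 + ε) ≤ 2 ^ (1 / 2 + ε) * T ^ (1 / 2 + ε) := by
    rw [← Real.mul_rpow (by norm_num) hT0]
    exact Real.rpow_le_rpow (by positivity) hjT (by positivity)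
  rw [hsplit]
  calc ‖(∫ t in (0:ℝ)..(n : ℝ), FB θ (box 0 N) t) + ∫ t in (n : ℝ)..T, FB θ (box 0 N) t‖
      ≤ Real.sqrt K * ((2:ℝ) ^ j) ^ (1 / 2 + ε) + Real.sqrt K' * ((2:ℝ) ^ j) ^ (1 / 2 + ε) :=
        (norm_add_le _ _).trans (add_le_add y2 (hlast.trans z2))
    _ = (Real.sqrt K + Real.sqrt K') * ((2:ℝ) ^ j) ^ (1 / 2 + ε) := by ring
    _ ≤ (Real.sqrt K + Real.sqrt K') * (2 ^ (1 / 2 + ε) * T ^ (1 / 2 + ε)) := by gcongr
    _ = (Real.sqrt K + Real.sqrt K') * 2 ^ (1 / 2 + ε) * T ^ (1 / 2 + ε) := by ring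

end FIN2

theorem pFIN2 (h1 : S_YB2) (h2 : S_ZB2) (h3 : S_BC) (h4 : S_ME2) : S_FIN2 := by
  intro k hk
  have hall : ∀ᵐ θ ∂P, ∀ B n : ℕ, ∃ K : ℝ, 0 < K ∧ ∀ (T : ℝ) (N : Tu k), 1 ≤ T →
      (∀ j, (N j : ℝ) ≤ T ^ B) →
        ‖∫ t in (0:ℝ)..T, FB θ (box 0 N) t‖ ≤ K * T ^ (1 / 2 + 1 / ((n : ℝ) + 1)) := by
    rw [ae_all_iff]
    intro B
    rw [ae_all_iff]
    intro n
    exact FIN2.fixed h1 h2 h3 h4 k hk B _ (by positivity)
  filter_upwards [hall] with θ hθ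
  intro B ε hε
  obtain ⟨n, hn⟩ := exists_nat_one_div_lt hε
  obtain ⟨K, hK, hb⟩ := hθ B n
  refine ⟨K, hK, fun T N hT hN => (hb T N hT hN).trans ?_⟩
  refine mul_le_mul_of_nonneg_left ?_ hK.le
  exact Real.rpow_le_rpow_of_exponent_le hT (by linarith)

end Pool.Agent.T2H58.ST
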