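import Pool.Agent.T2H58.ST.Stm2

/-!
# Package FINS
-/

set_option autoImplicit false

open MeasureTheory Filter Topology Finset

namespace Pool.Agent.T2H58.ST

open Pool.Agent.T2H98.RT (P tw S A quads gam S_MUL S_OR S_KAP S_DIV)

namespace FINS

lemma FB_single {k : ℕ} (θ : ℕ → ℝ) (v : Tu k) (t : ℝ) : FB θ {v} t = ev θ v t := by
  unfold FB
  rw [Finset.sum_singleton]

lemma ev_cont (h5 : S_ME2) {k : ℕ} (θ : ℕ → ℝ) (v : Tu k) : Continuous (fun t : ℝ => ev θ v t) := by
  have h := (h5 k {v}).1 θ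
  have e : (fun t : ℝ => FB θ {v} t) = fun t : ℝ => ev θ v t := by
    funext t
    exact FB_single θ v t
  rwa [e] at h

lemma int_FB (h5 : S_ME2) {k : ℕ} (θ : ℕ → ℝ) (U : Finset (Tu k)) (T : ℝ) :
    ∫ t in (0:ℝ)..T, FB θ U t = ∑ v ∈ U, ∫ t in (0:ℝ)..T, ev θ v t := by
  unfold FB
  rw [intervalIntegral.integral_finsetSum]
  intro v _
  exact (ev_cont h5 θ v).intervalIntegrable _ _

lemma int_PN (h4 : S_EXPS) (h5 : S_ME2) {k : ℕ} (a : Fin k ⊕ Fin k → ℝ) (θ : ℕ → ℝ) (N : Tu k)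
    (T : ℝ) : (∫ t in (0:ℝ)..T, PN a θ N t) - T * dgN a N =
      ∑ v ∈ box 0 N, (∏ j, wt a j (v j)) * ∫ t in (0:ℝ)..T, ev θ v t := by
  have e : ∀ t : ℝ, PN a θ N t = dgN a N + ∑ v ∈ box 0 N, (∏ j, wt a j (v j)) * ev θ v t := by
    intro t
    rw [← h4 k a θ N t]
    ring
  have hc : ∀ v : Tu k, Continuous (fun t : ℝ => (∏ j, wt a j (v j)) * ev θ v t) := by
    intro v
    exact continuous_const.mul (ev_cont h5 θ v)
  rw [intervalIntegral.integral_congr (g := fun t : ℝ => dgN a N +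
    ∑ v ∈ box 0 N, (∏ j, wt a j (v j)) * ev θ v t) (fun t _ => e t)]
  rw [intervalIntegral.integral_add (continuous_const.intervalIntegrable _ _)
    ((continuous_finsetSum _ (fun v _ => hc v)).intervalIntegrable _ _),
    intervalIntegral.integral_const, intervalIntegral.integral_finsetSum
      (fun v _ => (hc v).intervalIntegrable _ _)]
  simp only [intervalIntegral.integral_const_mul, sub_zero, Complex.real_smul]
  ring

end FINS

theorem pFINS (h1 : S_FIN2) (h2 : S_ABEL) (h3 : S_WT) (h4 : S_EXPS) (h5 : S_ME2) (h6 : S_HAR) :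
    S_FINS := by
  have hall : ∀ᵐ θ ∂P, ∀ k : ℕ, 1 ≤ k → ∀ (B : ℕ) (ε : ℝ), 0 < ε → ∃ K : ℝ, 0 < K ∧
      ∀ (T : ℝ) (N : Tu k), 1 ≤ T → (∀ j, (N j : ℝ) ≤ T ^ B) →
        ‖∫ t in (0:ℝ)..T, FB θ (box 0 N) t‖ ≤ K * T ^ (1 / 2 + ε) := by
    rw [ae_all_iff]
    intro k
    by_cases hk : 1 ≤ k
    · exact (h1 k hk).mono fun θ h _ => h
    · exact Eventually.of_forall fun θ h => absurd h hk
  unfold S_FINS
  filter_upwards [hall] with θ hθ
  intro k hk B ε hε
  obtain ⟨K1, hK1, hfin⟩ := hθ k hk B (ε / 2) (by positivity)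
  have hkr : (0 : ℝ) < k := by exact_mod_cast hk
  set δ : ℝ := ε / (4 * k * (B + 1)) with hδ
  have hδ0 : 0 < δ := by positivity
  obtain ⟨C, hC, hhar⟩ := h6 1 δ hδ0
  refine ⟨K1 * (C + 1) ^ (2 * k), by positivity, ?_⟩
  intro T N a hT hN
  have hT0 : (0 : ℝ) < T := by linarith
  rw [FINS.int_PN h4 h5]
  have hprod0 : 0 ≤ ∏ j, (1 + |a j|) := Finset.prod_nonneg fun j _ => by positivity
  by_cases hz : ∃ j, N j = 0
  · obtain ⟨j, hj⟩ := hz
    have hbox : box 0 N = ∅ := by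
      unfold box
      apply Finset.eq_empty_of_forall_notMem
      intro v hv
      rw [Fintype.mem_piFinset] at hv
      have := hv j
      rw [hj] at this
      simp at this
    rw [hbox, Finset.sum_empty, norm_zero]
    positivity
  · push Not at hz
    have hN1 : ∀ j, 1 ≤ N j := fun j => Nat.one_le_iff_ne_zero.mpr (hz j)
    have hM : ∀ v' : Tu k, (∀ j, v' j ≤ N j) →
        ‖∑ v ∈ box 0 v', ∫ t in (0:ℝ)..T, ev θ v t‖ ≤ K1 * T ^ (1 / 2 + ε / 2) := by
      intro v' hv'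
      rw [← FINS.int_FB h5]
      apply hfin T v' hT
      intro j
      exact le_trans (by exact_mod_cast hv' j) (hN j)
    have hab := h2 k (wt a) (fun v => ∫ t in (0:ℝ)..T, ev θ v t) N _ hN1 hM
    refine hab.trans ?_
    have hTB : (1 : ℝ) ≤ T ^ (B * δ) := Real.one_le_rpow hT (by positivity)
    have hfac : ∀ j, ‖wt a j (N j)‖ + ∑ n ∈ Ico 1 (N j), ‖wt a j (n + 1) - wt a j n‖ ≤
        (1 + |a j|) * ((C + 1) * T ^ (B * δ)) := by
      intro j
      have hw := h3 (Sum.elim (fun i => -a (Sum.inl i)) (fun i => a (Sum.inr i)) j) (N j) (hN1 j)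
      have habs : |Sum.elim (fun i => -a (Sum.inl i)) (fun i => a (Sum.inr i)) j| = |a j| := by
        cases j with
        | inl i => simp
        | inr i => simp
      rw [habs] at hw
      refine le_trans hw ?_
      have hH : HH (N j) ≤ C * T ^ (B * δ) := by
        have h := hhar (N j) (hN1 j)
        rw [pow_one] at h
        refine h.trans ?_
        apply mul_le_mul_of_nonneg_left _ hC.le
        have h7 : ((N j : ℕ) : ℝ) ^ δ ≤ (T ^ B) ^ δ :=
          Real.rpow_le_rpow (Nat.cast_nonneg _) (hN j) hδ0.le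
        refine h7.trans (le_of_eq ?_)
        rw [← Real.rpow_natCast, ← Real.rpow_mul hT0.le]
      have ha := abs_nonneg (a j)
      nlinarith [mul_le_mul_of_nonneg_left hH ha, mul_nonneg hC.le (zero_le_one.trans hTB),
        mul_nonneg ha (zero_le_one.trans hTB), mul_nonneg ha (mul_nonneg hC.le (zero_le_one.trans hTB))]
    have hprod : ∏ j, (‖wt a j (N j)‖ + ∑ n ∈ Ico 1 (N j), ‖wt a j (n + 1) - wt a j n‖) ≤
        (∏ j, (1 + |a j|)) * ((C + 1) * T ^ (B * δ)) ^ (2 * k) := by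
      refine (Finset.prod_le_prod (fun j _ => by positivity) (fun j _ => hfac j)).trans ?_
      rw [Finset.prod_mul_distrib, Finset.prod_const]
      apply le_of_eq
      congr 2
      simp only [Finset.card_univ, Fintype.card_sum, Fintype.card_fin]
      ring
    have hpow : ((C + 1) * T ^ (B * δ)) ^ (2 * k) ≤ (C + 1) ^ (2 * k) * T ^ (ε / 2) := by
      rw [mul_pow]
      apply mul_le_mul_of_nonneg_left _ (by positivity)
      rw [← Real.rpow_natCast, ← Real.rpow_mul hT0.le]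
      apply Real.rpow_le_rpow_of_exponent_le hT
      rw [hδ]
      push_cast
      have hB : (0 : ℝ) ≤ B := Nat.cast_nonneg _
      have : (B : ℝ) * (ε / (4 * k * (B + 1))) * (2 * k) = ε / 2 * (B / (B + 1)) := by
        field_simp
        ring
      rw [this]
      have hle : (B : ℝ) / (B + 1) ≤ 1 := by
        rw [div_le_one (by linarith)]
        linarith
      nlinarith [hle, hε]
    have hsplit : T ^ (ε / 2) * T ^ (1 / 2 + ε / 2) = T ^ (1 / 2 + ε) := by
      rw [← Real.rpow_add hT0]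
      congr 1
      ring
    have hA0 : 0 ≤ K1 * T ^ (1 / 2 + ε / 2) := by positivity
    calc (∏ j, (‖wt a j (N j)‖ + ∑ n ∈ Ico 1 (N j), ‖wt a j (n + 1) - wt a j n‖)) *
          (K1 * T ^ (1 / 2 + ε / 2))
        ≤ ((∏ j, (1 + |a j|)) * ((C + 1) ^ (2 * k) * T ^ (ε / 2))) *
          (K1 * T ^ (1 / 2 + ε / 2)) :=
          mul_le_mul_of_nonneg_right
            (hprod.trans (mul_le_mul_of_nonneg_left hpow hprod0)) hA0
      _ = K1 * (C + 1) ^ (2 * k) * (∏ j, (1 + |a j|)) * (T ^ (ε / 2) * T ^ (1 / 2 + ε / 2)) := by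
          ring
      _ = K1 * (C + 1) ^ (2 * k) * (∏ j, (1 + |a j|)) * T ^ (1 / 2 + ε) := by rw [hsplit]

end Pool.Agent.T2H58.ST
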