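import Pool.Agent.T2H58.ST.Stm2

/-! package ME2 (helper80) -/

set_option autoImplicit false

open MeasureTheory Filter Topology Finset

namespace Pool.Agent.T2H58.ST

open Pool.Agent.T2H98.RT (P tw S A quads gam S_MUL S_OR S_KAP S_DIV)

namespace ME2

lemma exp_norm (t a : ℝ) : ‖Complex.exp (-((t : ℂ) * (a : ℂ) * Complex.I))‖ = 1 := by
  have h : -((t : ℂ) * (a : ℂ) * Complex.I) = ((-(t * a) : ℝ) : ℂ) * Complex.I := by
    push_cast
    ring
  rw [h, Complex.norm_exp_ofReal_mul_I]

lemma ev_norm (hM : S_MUL) {k : ℕ} (θ : ℕ → ℝ) (v : Tu k) (t : ℝ) : ‖ev θ v t‖ ≤ 1 := by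
  unfold ev
  split_ifs with h
  · simp
  · rw [norm_mul, norm_div, norm_mul, RCLike.norm_conj, hM.2.1, hM.2.1, Complex.norm_real,
      Real.norm_of_nonneg (Real.sqrt_nonneg _), exp_norm, mul_one, mul_one]
    rcases Nat.eq_zero_or_pos (pl v * pr v) with h0 | h0
    · have : ((pl v : ℝ) * pr v) = 0 := by exact_mod_cast h0
      rw [this]
      simp
    · have h1 : (1 : ℝ) ≤ (pl v : ℝ) * pr v := by exact_mod_cast h0
      have h2 : 1 ≤ Real.sqrt ((pl v : ℝ) * pr v) := Real.one_le_sqrt.2 h1
      rw [div_le_one (by linarith)]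
      exact h2

lemma ev_cont_t {k : ℕ} (θ : ℕ → ℝ) (v : Tu k) : Continuous (fun t : ℝ => ev θ v t) := by
  unfold ev
  split_ifs with h
  · exact continuous_const
  · fun_prop

lemma ev_cont_th (hM : S_MUL) {k : ℕ} (v : Tu k) (t : ℝ) :
    Continuous (fun θ : ℕ → ℝ => ev θ v t) := by
  unfold ev
  split_ifs with h
  · exact continuous_const
  · exact (((hM.2.2.2 _).mul (Complex.continuous_conj.comp (hM.2.2.2 _))).div_const _).mul
      continuous_const

end ME2

open ME2 in
theorem pME2 (h1 : S_MUL) : S_ME2 := by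
  intro k U
  have hct : ∀ θ : ℕ → ℝ, Continuous (fun t : ℝ => FB θ U t) := fun θ =>
    continuous_finsetSum _ fun v _ => ev_cont_t θ v
  have hcth : ∀ t : ℝ, Continuous (fun θ : ℕ → ℝ => FB θ U t) := fun t =>
    continuous_finsetSum _ fun v _ => ev_cont_th h1 v t
  have hb : ∀ (θ : ℕ → ℝ) (t : ℝ), ‖FB θ U t‖ ≤ U.card := by
    intro θ t
    unfold FB
    refine (norm_sum_le _ _).trans ?_
    refine (Finset.sum_le_card_nsmul _ _ 1 fun v _ => ev_norm h1 θ v t).trans ?_
    simp
  refine ⟨hct, hcth, hb, fun u v => ⟨?_, ?_⟩⟩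
  · refine intervalIntegral.continuous_of_dominated_interval (bound := fun _ => (U.card : ℝ))
      (fun θ => (hct θ).aestronglyMeasurable) (fun θ => ?_) intervalIntegrable_const ?_
    · exact Filter.Eventually.of_forall fun t _ => hb θ t
    · exact Filter.Eventually.of_forall fun t _ => hcth t
  · refine intervalIntegral.continuous_of_dominated_interval (bound := fun _ => (U.card : ℝ))
      (fun θ => (hct θ).norm.aestronglyMeasurable) (fun θ => ?_) intervalIntegrable_const ?_
    · refine Filter.Eventually.of_forall fun t _ => ?_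
      rw [norm_norm]
      exact hb θ t
    · exact Filter.Eventually.of_forall fun t _ => (hcth t).norm

end Pool.Agent.T2H58.ST
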