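import Pool.Agent.T2H58.ST.Stm2

/-! Package SUM of project ST (helper58), by helper94. -/

set_option autoImplicit false

open MeasureTheory Filter Topology Finset

namespace Pool.Agent.T2H58.ST

open Pool.Agent.T2H98.RT (P tw S A quads gam S_MUL S_OR S_KAP S_DIV)

namespace SUM

lemma DW_sum {k : ℕ} (W : ℕ → ℕ → ℝ) (hW : ∀ m n, 0 ≤ W m n) (V : Finset (Tu k))
    (β : Finset (Tu k)) (U : Tu k → Finset (Tu k)) (hU : ∀ b ∈ β, U b ⊆ V)
    (hd : ∀ b ∈ β, ∀ b' ∈ β, b ≠ b' → Disjoint (U b) (U b')) :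
    ∑ b ∈ β, DW W (U b) ≤ DW W V := by
  classical
  unfold DW
  have hg : ∀ v v' : Tu k, 0 ≤ (if pl v ≠ pr v ∧ pl v * pr v' = pl v' * pr v then
      W (pl v) (pr v) / Real.sqrt ((pl v : ℝ) * pr v * ((pl v' : ℝ) * pr v')) else 0) := by
    intro v v'
    split_ifs
    · exact div_nonneg (hW _ _) (Real.sqrt_nonneg _)
    · exact le_rfl
  calc _ ≤ ∑ b ∈ β, ∑ v ∈ U b, ∑ v' ∈ V, (if pl v ≠ pr v ∧ pl v * pr v' = pl v' * pr v then
        W (pl v) (pr v) / Real.sqrt ((pl v : ℝ) * pr v * ((pl v' : ℝ) * pr v')) else 0) := by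
        refine Finset.sum_le_sum fun b hb => Finset.sum_le_sum fun v _ => ?_
        exact Finset.sum_le_sum_of_subset_of_nonneg (hU b hb) fun v' _ _ => hg v v'
    _ = ∑ v ∈ β.biUnion U, ∑ v' ∈ V, (if pl v ≠ pr v ∧ pl v * pr v' = pl v' * pr v then
        W (pl v) (pr v) / Real.sqrt ((pl v : ℝ) * pr v * ((pl v' : ℝ) * pr v')) else 0) := by
        rw [Finset.sum_biUnion]
        intro b hb b' hb' hbb
        exact hd b hb b' hb' hbb
    _ ≤ _ := by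
        refine Finset.sum_le_sum_of_subset_of_nonneg ?_ fun v _ _ =>
          Finset.sum_nonneg fun v' _ => hg v v'
        intro v hv
        obtain ⟨b, hb, hvb⟩ := Finset.mem_biUnion.mp hv
        exact hU b hb hvb

end SUM

open SUM in
theorem pSUM (h1 : S_V1) (h2 : S_V1P) (h3 : S_V2) (h4 : S_LOGW) (h5 : S_HAR) : S_SUM := by
  intro k ε hk hε
  obtain ⟨C2, hC2, hV⟩ := h3 k (ε / 2) hk (by positivity)
  obtain ⟨C1, hC1, hH⟩ := h5 k (ε / 2) (by positivity)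
  refine ⟨6 * C1 * C2, by positivity, ?_⟩
  intro R β U hR hU hd
  have hRpos : (0 : ℝ) < R := by exact_mod_cast hR
  obtain ⟨ρ, hρ⟩ : ∃ ρ : ℝ, ρ = (R : ℝ) ^ (ε / 2) := ⟨_, rfl⟩
  have hρpos : 0 < ρ := by rw [hρ]; exact Real.rpow_pos_of_pos hRpos _
  have hρ2 : (R : ℝ) ^ ε = ρ * ρ := by
    rw [hρ, ← Real.rpow_add hRpos]
    congr 1
    ring
  have hcube : ∀ b ∈ β, ∀ w ∈ U b, ∀ j, 1 ≤ w j := by
    intro b hb w hw j
    have h6 := hU b hb hw
    unfold cube at h6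
    exact (Finset.mem_Icc.mp (Fintype.mem_piFinset.mp h6 j)).1
  obtain ⟨hWl, hW1⟩ := h4 (R ^ k)
  have hHR := hH R hR
  have hH0 : 0 ≤ HH (R ^ k) := Finset.sum_nonneg fun _ _ => by positivity
  rw [← hρ] at hHR
  have b1 := hV R hR Wl (3 * HH (R ^ k)) (by positivity) hWl
  have b2 := hV R hR (fun _ _ => 1) (HH (R ^ k)) hH0 hW1
  rw [← hρ] at b1 b2
  have b1' : DW Wl (cube k R) ≤ 3 * C1 * C2 * (ρ * ρ) := by
    refine b1.trans ?_
    have : C2 * (3 * HH (R ^ k)) * ρ ≤ C2 * (3 * (C1 * ρ)) * ρ := by gcongr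
    linarith
  have b2' : DW (fun _ _ => 1) (cube k R) ≤ C1 * C2 * (ρ * ρ) := by
    refine b2.trans ?_
    have : C2 * HH (R ^ k) * ρ ≤ C2 * (C1 * ρ) * ρ := by gcongr
    linarith
  constructor
  · intro u v huv
    have hvu : 0 ≤ v - u := by linarith
    calc _ ≤ ∑ b ∈ β, 2 * (v - u) * DW Wl (U b) :=
          Finset.sum_le_sum fun b hb => h1 k (U b) u v (hcube b hb) huv
      _ = 2 * (v - u) * ∑ b ∈ β, DW Wl (U b) := by rw [Finset.mul_sum]
      _ ≤ 2 * (v - u) * DW Wl (cube k R) :=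
          mul_le_mul_of_nonneg_left (DW_sum Wl hWl.1 _ β U hU hd) (by positivity)
      _ ≤ 2 * (v - u) * (3 * C1 * C2 * (ρ * ρ)) := mul_le_mul_of_nonneg_left b1' (by positivity)
      _ = _ := by rw [hρ2]; ring
  · intro t
    calc _ ≤ ∑ b ∈ β, DW (fun _ _ => 1) (U b) :=
          Finset.sum_le_sum fun b hb => h2 k (U b) t (hcube b hb)
      _ ≤ DW (fun _ _ => 1) (cube k R) := DW_sum _ hW1.1 _ β U hU hd
      _ ≤ C1 * C2 * (ρ * ρ) := b2'
      _ ≤ 6 * C1 * C2 * (ρ * ρ) := by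
          have : 0 ≤ C1 * C2 * (ρ * ρ) := by positivity
          linarith
      _ = _ := by rw [hρ2]

end Pool.Agent.T2H58.ST
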