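import Pool.Agent.T2H58.ST.Stm2
import Pool.Agent.T2H58.ST.VARC

/-! package V1 (helper80) -/

set_option autoImplicit false

open MeasureTheory Filter Topology Finset

namespace Pool.Agent.T2H58.ST

open Pool.Agent.T2H98.RT (P tw S A quads gam S_MUL S_OR S_KAP S_DIV)

namespace V1

open Pool.Agent.T2H98.RT.VAR1 (ff ff_cont ff_norm ff_int term_integrable log_ne)
open Pool.Agent.T2H58.ST.VARC (kap kap_le kap_le')

/-- the coefficient -/
noncomputable def co {k : ℕ} (u v : ℝ) (w : Tu k) : ℂ :=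
  if pl w = pr w then 0 else kap u v (pl w, pr w) / (Real.sqrt ((pl w : ℝ) * pr w) : ℂ)

lemma ev_int {k : ℕ} (θ : ℕ → ℝ) (w : Tu k) (u v : ℝ) :
    ∫ t in u..v, ev θ w t = co u v w * ff θ (pl w, pr w) := by
  unfold ev co
  split_ifs with h
  · simp
  · rw [intervalIntegral.integral_const_mul]
    unfold kap ff
    simp only
    ring

lemma int_eq {k : ℕ} (θ : ℕ → ℝ) (U : Finset (Tu k)) (u v : ℝ) :
    ∫ t in u..v, FB θ U t = ∑ w ∈ U, co u v w * ff θ (pl w, pr w) := by
  unfold FB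
  rw [intervalIntegral.integral_finsetSum]
  · exact sum_congr rfl fun w _ => ev_int θ w u v
  · intro w _
    apply Continuous.intervalIntegrable
    unfold ev
    split_ifs with h
    · exact continuous_const
    · fun_prop

/-- second moment of a combination of the phases -/
lemma expand (hM : S_MUL) {ι : Type} (U : Finset ι) (a : ι → ℂ) (q : ι → ℕ × ℕ) :
    ((∫ θ, ‖∑ w ∈ U, a w * ff θ (q w)‖ ^ 2 ∂P : ℝ) : ℂ) =
      ∑ w ∈ U ×ˢ U, a w.1 * (starRingEnd ℂ) (a w.2) *
        ∫ θ, ff θ (q w.1) * (starRingEnd ℂ) (ff θ (q w.2)) ∂P := by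
  rw [← integral_complex_ofReal]
  have h1 : (fun θ : ℕ → ℝ => ((‖∑ w ∈ U, a w * ff θ (q w)‖ ^ 2 : ℝ) : ℂ)) =
      fun θ => ∑ w ∈ U ×ˢ U, (a w.1 * (starRingEnd ℂ) (a w.2)) *
        (ff θ (q w.1) * (starRingEnd ℂ) (ff θ (q w.2))) := by
    funext θ
    have h3 : ((‖∑ w ∈ U, a w * ff θ (q w)‖ ^ 2 : ℝ) : ℂ) =
        (∑ w ∈ U, a w * ff θ (q w)) * (starRingEnd ℂ) (∑ w ∈ U, a w * ff θ (q w)) := by
      rw [Complex.mul_conj, Complex.normSq_eq_norm_sq]
    rw [h3, map_sum, sum_mul_sum, ← sum_product']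
    refine sum_congr rfl fun w _ => ?_
    rw [map_mul]
    ring
  rw [h1, integral_finsetSum]
  · refine sum_congr rfl fun w _ => ?_
    exact integral_const_mul _ _
  · intro w _
    exact term_integrable hM _ _ _

/-- the second moment as a sum over the pairs -/
lemma moment (hM : S_MUL) (hO : S_OR) {ι : Type} (U : Finset ι) (a : ι → ℂ) (q : ι → ℕ × ℕ)
    (hq : ∀ w ∈ U, (q w).1 ≠ 0 ∧ (q w).2 ≠ 0) :
    ∫ θ, ‖∑ w ∈ U, a w * ff θ (q w)‖ ^ 2 ∂P ≤
      ∑ w ∈ U, ∑ w' ∈ U, if (q w).1 * (q w').2 = (q w').1 * (q w).2 then ‖a w‖ * ‖a w'‖ else 0 := by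
  set L := ∫ θ, ‖∑ w ∈ U, a w * ff θ (q w)‖ ^ 2 ∂P with hL
  have hL0 : 0 ≤ L := integral_nonneg fun θ => sq_nonneg _
  have h1 : L = ‖(L : ℂ)‖ := by
    rw [Complex.norm_real, Real.norm_of_nonneg hL0]
  rw [h1, hL, expand hM U a q, ← sum_product']
  refine (norm_sum_le _ _).trans ?_
  refine sum_le_sum fun w hw => ?_
  rw [mem_product] at hw
  rw [ff_int hM hO _ _ (hq _ hw.1).1 (hq _ hw.1).2 (hq _ hw.2).1 (hq _ hw.2).2]
  split_ifs with h
  · rw [mul_one, norm_mul, RCLike.norm_conj]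
  · simp

lemma pl_pos {k : ℕ} {w : Tu k} (hw : ∀ j, 1 ≤ w j) : 1 ≤ pl w := by
  have h : 0 < pl w := by
    unfold pl
    exact Finset.prod_pos fun j _ => hw (Sum.inl j)
  exact h

lemma pr_pos {k : ℕ} {w : Tu k} (hw : ∀ j, 1 ≤ w j) : 1 ≤ pr w := by
  have h : 0 < pr w := by
    unfold pr
    exact Finset.prod_pos fun j _ => hw (Sum.inr j)
  exact h

end V1

open V1 in
open Pool.Agent.T2H98.RT.VAR1 (log_ne) in
open Pool.Agent.T2H58.ST.VARC (kap kap_le kap_le') in
theorem pV1 (h1 : S_MUL) (h2 : S_OR) (h3 : S_KAP) (_h4 : S_ME2) : S_V1 := by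
  intro k U u v hU huv
  rcases huv.eq_or_lt with rfl | huv
  · simp
  simp_rw [int_eq _ U u v]
  refine (moment h1 h2 U (co u v) (fun w => (pl w, pr w)) fun w hw =>
    ⟨by have := pl_pos (hU w hw); simp only; omega, by have := pr_pos (hU w hw); simp only; omega⟩).trans ?_
  unfold DW
  rw [mul_sum]
  refine sum_le_sum fun w hw => ?_
  rw [mul_sum]
  refine sum_le_sum fun w' hw' => ?_
  simp only
  have a1 := pl_pos (hU w hw)
  have b1 := pr_pos (hU w hw)
  have a3 := pl_pos (hU w' hw')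
  have b3 := pr_pos (hU w' hw')
  by_cases hc : pl w * pr w' = pl w' * pr w
  · rw [if_pos hc]
    by_cases hne : pl w = pr w
    · rw [if_neg (fun h => h.1 hne)]
      unfold co
      rw [if_pos hne]
      simp
    · rw [if_pos ⟨hne, hc⟩]
      have hne' : pl w' ≠ pr w' := by
        intro h
        rw [h] at hc
        apply hne
        have : pr w' * pl w = pr w' * pr w := by rw [mul_comm, hc]
        exact Nat.eq_of_mul_eq_mul_left (by omega) this
      unfold co
      rw [if_neg hne, if_neg hne', norm_div, norm_div, Complex.norm_real, Complex.norm_real,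
        Real.norm_of_nonneg (Real.sqrt_nonneg _), Real.norm_of_nonneg (Real.sqrt_nonneg _)]
      have k1 := kap_le' h3 huv (pl w, pr w) (log_ne a1 b1 hne)
      have k2 := kap_le h3 huv (pl w', pr w')
      simp only at k1
      have hW0 : 0 ≤ Wl (pl w) (pr w) := by unfold Wl; positivity
      have hs1 : (0 : ℝ) < Real.sqrt ((pl w : ℝ) * pr w) := by
        apply Real.sqrt_pos.2
        have : (1 : ℝ) ≤ pl w := by exact_mod_cast a1
        have : (1 : ℝ) ≤ pr w := by exact_mod_cast b1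
        positivity
      have hs2 : (0 : ℝ) < Real.sqrt ((pl w' : ℝ) * pr w') := by
        apply Real.sqrt_pos.2
        have : (1 : ℝ) ≤ pl w' := by exact_mod_cast a3
        have : (1 : ℝ) ≤ pr w' := by exact_mod_cast b3
        positivity
      rw [Real.sqrt_mul (by positivity) ((pl w' : ℝ) * pr w')]
      calc ‖kap u v (pl w, pr w)‖ / Real.sqrt ((pl w : ℝ) * pr w) *
            (‖kap u v (pl w', pr w')‖ / Real.sqrt ((pl w' : ℝ) * pr w'))
          ≤ (2 * Wl (pl w) (pr w)) / Real.sqrt ((pl w : ℝ) * pr w) *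
            ((v - u) / Real.sqrt ((pl w' : ℝ) * pr w')) := by
            apply mul_le_mul
            · exact div_le_div_of_nonneg_right k1 hs1.le
            · exact div_le_div_of_nonneg_right k2 hs2.le
            · positivity
            · positivity
        _ = _ := by
            field_simp
  · rw [if_neg hc, if_neg (fun h => hc h.2)]
    simp

end Pool.Agent.T2H58.ST
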