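import Pool.Agent.T2H58.ST.Stm2

/-! Project ST, package V2 -/

set_option autoImplicit false

open MeasureTheory Filter Topology Finset

namespace Pool.Agent.T2H58.ST

open Pool.Agent.T2H98.RT (P tw S A quads gam S_MUL S_OR S_KAP S_DIV)

namespace V2

/-- the tuples in `[1,R]^k` -/
def tp (k R : ℕ) : Finset (Fin k → ℕ) := Fintype.piFinset fun _ : Fin k => Icc 1 R

/-- the number of the tuples with product `m` -/
noncomputable def bb (k R m : ℕ) : ℝ := (((tp k R).filter fun v => ∏ i, v i = m).card : ℝ)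

lemma bb_nonneg (k R m : ℕ) : 0 ≤ bb k R m := Nat.cast_nonneg _

lemma cf_eq (k R m : ℕ) : cf (0 : Fin k → ℝ) R m = ((bb k R m : ℝ) : ℂ) := by
  unfold cf bb tp
  have h : ∀ v ∈ (Fintype.piFinset fun _ : Fin k => Icc 1 R).filter (fun v => ∏ i, v i = m),
      (∏ j, ((v j : ℕ) : ℂ) ^ (-(((0 : Fin k → ℝ) j : ℂ) * Complex.I))) = 1 := by
    intro v _
    refine Finset.prod_eq_one fun j _ => ?_
    simp
  rw [Finset.sum_congr rfl h]
  simp

lemma cf_zero (k m : ℕ) (hk : 1 ≤ k) : cf (0 : Fin k → ℝ) 0 m = 0 := by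
  unfold cf
  refine Finset.sum_eq_zero fun v hv => ?_
  rw [mem_filter, Fintype.mem_piFinset] at hv
  have := hv.1 ⟨0, hk⟩
  simp at this

/-- the product of a tuple lies in `[1, R^k]` -/
lemma prod_mem {k R : ℕ} {v : Fin k → ℕ} (hv : v ∈ tp k R) : ∏ i, v i ∈ Icc 1 (R ^ k) := by
  unfold tp at hv
  rw [Fintype.mem_piFinset] at hv
  rw [mem_Icc]
  constructor
  · exact Finset.one_le_prod' fun i _ => (mem_Icc.1 (hv i)).1
  · calc ∏ i, v i ≤ ∏ _i : Fin k, R := Finset.prod_le_prod' fun i _ => (mem_Icc.1 (hv i)).2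
      _ = R ^ k := by simp

/-- grouping by the product -/
lemma grp (k R : ℕ) (G : ℕ → ℝ) :
    ∑ v ∈ tp k R, G (∏ i, v i) = ∑ m ∈ Icc 1 (R ^ k), bb k R m * G m := by
  rw [← Finset.sum_fiberwise_of_maps_to (s := tp k R) (t := Icc 1 (R ^ k))
    (g := fun v : Fin k → ℕ => ∏ i, v i) (fun v hv => prod_mem hv)]
  refine Finset.sum_congr rfl fun m _ => ?_
  have h : ∀ v ∈ (tp k R).filter (fun v => ∏ i, v i = m), G (∏ i, v i) = G m := by
    intro v hv
    rw [(mem_filter.1 hv).2]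
  rw [Finset.sum_congr rfl h, Finset.sum_const, nsmul_eq_mul]
  rfl

/-- grouping of the cube -/
lemma grp2 (k R : ℕ) (G : ℕ × ℕ → ℝ) :
    ∑ v ∈ cube k R, G (pl v, pr v) =
      ∑ q ∈ Icc 1 (R ^ k) ×ˢ Icc 1 (R ^ k), bb k R q.1 * bb k R q.2 * G q := by
  have h1 : ∑ v ∈ cube k R, G (pl v, pr v) =
      ∑ w ∈ tp k R ×ˢ tp k R, G (∏ i, w.1 i, ∏ i, w.2 i) := by
    refine Finset.sum_nbij' (fun v => (fun i => v (Sum.inl i), fun i => v (Sum.inr i)))
      (fun w => Sum.elim w.1 w.2) ?_ ?_ ?_ ?_ ?_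
    · intro v hv
      unfold cube at hv
      rw [Fintype.mem_piFinset] at hv
      unfold tp
      rw [mem_product, Fintype.mem_piFinset, Fintype.mem_piFinset]
      exact ⟨fun i => hv (Sum.inl i), fun i => hv (Sum.inr i)⟩
    · intro w hw
      unfold tp at hw
      rw [mem_product, Fintype.mem_piFinset, Fintype.mem_piFinset] at hw
      unfold cube
      rw [Fintype.mem_piFinset]
      rintro (i | i)
      · exact hw.1 i
      · exact hw.2 i
    · intro v _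
      funext i
      rcases i with i | i <;> rfl
    · intro w _
      rfl
    · intro v _
      rfl
  rw [h1, Finset.sum_product, Finset.sum_product]
  have h2 : ∀ v ∈ tp k R, ∑ w ∈ tp k R, G (∏ i, v i, ∏ i, w i) =
      ∑ n ∈ Icc 1 (R ^ k), bb k R n * G (∏ i, v i, n) := fun v _ =>
    grp k R fun n => G (∏ i, v i, n)
  rw [Finset.sum_congr rfl h2, grp k R fun m => ∑ n ∈ Icc 1 (R ^ k), bb k R n * G (m, n)]
  refine Finset.sum_congr rfl fun m _ => ?_
  rw [Finset.mul_sum]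
  refine Finset.sum_congr rfl fun n _ => ?_
  ring

/-- the sum over pairs of tuples is a sum over quadruples -/
lemma DW_eq (W : ℕ → ℕ → ℝ) (k R : ℕ) :
    DW W (cube k R) = QW W (fun m => bb k R m / Real.sqrt m) (fun m => bb k R m / Real.sqrt m)
      (R ^ k) := by
  classical
  set Φ : ℕ × ℕ → ℕ × ℕ → ℝ := fun q q' => if q.1 ≠ q.2 ∧ q.1 * q'.2 = q'.1 * q.2 then
    W q.1 q.2 / Real.sqrt ((q.1 : ℝ) * q.2 * ((q'.1 : ℝ) * q'.2)) else 0 with hΦ
  have h1 : DW W (cube k R) = ∑ v ∈ cube k R, ∑ v' ∈ cube k R, Φ (pl v, pr v) (pl v', pr v') := by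
    unfold DW
    refine Finset.sum_congr rfl fun v _ => Finset.sum_congr rfl fun v' _ => ?_
    simp only [hΦ]
  have h2 : ∀ v ∈ cube k R, ∑ v' ∈ cube k R, Φ (pl v, pr v) (pl v', pr v') =
      ∑ q' ∈ Icc 1 (R ^ k) ×ˢ Icc 1 (R ^ k), bb k R q'.1 * bb k R q'.2 * Φ (pl v, pr v) q' :=
    fun v _ => grp2 k R (Φ (pl v, pr v))
  rw [h1, Finset.sum_congr rfl h2, grp2 k R (fun q =>
    ∑ q' ∈ Icc 1 (R ^ k) ×ˢ Icc 1 (R ^ k), bb k R q'.1 * bb k R q'.2 * Φ q q')]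
  unfold QW quads
  symm
  rw [Finset.sum_filter, Finset.sum_product]
  refine Finset.sum_congr rfl fun q hq => ?_
  rw [Finset.mul_sum]
  refine Finset.sum_congr rfl fun q' hq' => ?_
  simp only [hΦ]
  by_cases hc : q.1 * q'.2 = q'.1 * q.2 ∧ q.1 ≠ q.2
  · rw [if_pos hc, if_pos ⟨hc.2, hc.1⟩, Real.sqrt_mul (by positivity : (0:ℝ) ≤ (q.1 : ℝ) * q.2),
      Real.sqrt_mul (Nat.cast_nonneg q.1), Real.sqrt_mul (Nat.cast_nonneg q'.1)]
    ring
  · rw [if_neg hc, if_neg (fun h => hc ⟨h.2, h.1⟩), mul_zero, mul_zero]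

lemma HI_eq (R : ℕ) : HI 0 R = HH (R ^ 1) := by
  unfold HI HH
  rw [pow_one]
  rfl

end V2

open V2 in
theorem pV2 (h1 : S_QINC) (h2 : S_HAR) : S_V2 := by
  intro k ε hk hε
  obtain ⟨C, hC, hQ⟩ := h1 k (ε / 2) hk (by positivity)
  obtain ⟨C', hC', hH⟩ := h2 1 (ε / 2) (by positivity)
  refine ⟨C * C', by positivity, fun R hR W L hL hW => ?_⟩
  have hR0 : (0 : ℝ) < R := by exact_mod_cast hR
  have h := hQ 0 0 0 R R R (Nat.zero_le _) le_rfl le_rfl hR W L hL hW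
  have hb : ∀ m : ℕ, ‖((bb k R m : ℝ) : ℂ) / (Real.sqrt m : ℂ)‖ = bb k R m / Real.sqrt m := by
    intro m
    rw [norm_div, Complex.norm_real, Complex.norm_real, Real.norm_of_nonneg (bb_nonneg k R m),
      Real.norm_of_nonneg (Real.sqrt_nonneg _)]
  simp only [cf_zero k _ hk, zero_div, sub_zero, cf_eq, hb] at h
  rw [DW_eq]
  refine h.trans ?_
  rw [HI_eq]
  calc C * L * (R : ℝ) ^ (ε / 2) * HH (R ^ 1)
      ≤ C * L * (R : ℝ) ^ (ε / 2) * (C' * (R : ℝ) ^ (ε / 2)) :=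
        mul_le_mul_of_nonneg_left (hH R hR) (by positivity)
    _ = C * C' * L * ((R : ℝ) ^ (ε / 2) * (R : ℝ) ^ (ε / 2)) := by ring
    _ = C * C' * L * (R : ℝ) ^ ε := by
        rw [← Real.rpow_add hR0]
        congr 2
        ring

end Pool.Agent.T2H58.ST
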