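import Pool.Agent.T2H58.ST.Stm2

set_option autoImplicit false

open MeasureTheory Filter Topology Finset

namespace Pool.Agent.T2H58.ST

namespace WT

theorem cp (c : ℝ) {n : ℕ} (hn : 1 ≤ n) :
    (n : ℂ) ^ ((c : ℂ) * Complex.I) = Complex.exp (((c * Real.log n : ℝ) : ℂ) * Complex.I) := by
  have hn0 : (n : ℂ) ≠ 0 := by exact_mod_cast (by omega : n ≠ 0)
  rw [Complex.cpow_def_of_ne_zero hn0]
  congr 1
  have h2 : Complex.log (n : ℂ) = ((Real.log n : ℝ) : ℂ) := by
    rw [Complex.ofReal_log (by positivity)]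
    norm_num
  rw [h2]
  push_cast
  ring

theorem ex (x y : ℝ) : ‖Complex.exp ((x : ℂ) * Complex.I) - Complex.exp ((y : ℂ) * Complex.I)‖ ≤
    |x - y| := by
  have h1 : Complex.exp ((x : ℂ) * Complex.I) - Complex.exp ((y : ℂ) * Complex.I) =
      Complex.exp ((y : ℂ) * Complex.I) * (Complex.exp (Complex.I * ((x - y : ℝ) : ℂ)) - 1) := by
    rw [mul_sub, ← Complex.exp_add, mul_one]
    congr 2
    push_cast
    ring
  rw [h1, norm_mul, Complex.norm_exp_ofReal_mul_I, one_mul]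
  have := Real.norm_exp_I_mul_ofReal_sub_one_le (x := x - y)
  simpa [Real.norm_eq_abs] using this

end WT

theorem pWT : S_WT := by
  intro c N hN
  have h1 : ‖(N : ℂ) ^ ((c : ℂ) * Complex.I)‖ = 1 := by
    rw [WT.cp c hN, Complex.norm_exp_ofReal_mul_I]
  rw [h1]
  refine add_le_add le_rfl ?_
  have h2 : ∀ n ∈ Ico 1 N,
      ‖((n + 1 : ℕ) : ℂ) ^ ((c : ℂ) * Complex.I) - (n : ℂ) ^ ((c : ℂ) * Complex.I)‖ ≤
        |c| * (1 / (n : ℝ)) := by
    intro n hn
    have hn1 : 1 ≤ n := (mem_Ico.1 hn).1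
    have hn0 : (0 : ℝ) < n := by exact_mod_cast hn1
    rw [WT.cp c (by omega : 1 ≤ n + 1), WT.cp c hn1]
    refine (WT.ex _ _).trans ?_
    rw [← mul_sub, abs_mul]
    refine mul_le_mul_of_nonneg_left ?_ (abs_nonneg c)
    have h3 : Real.log ((n + 1 : ℕ) : ℝ) - Real.log n = Real.log (((n + 1 : ℕ) : ℝ) / n) := by
      rw [Real.log_div (by positivity) hn0.ne']
    have h4 : 1 ≤ ((n + 1 : ℕ) : ℝ) / n := by
      rw [le_div_iff₀ hn0]
      push_cast
      linarith
    rw [h3, abs_of_nonneg (Real.log_nonneg h4)]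
    refine (Real.log_le_sub_one_of_pos (by positivity)).trans ?_
    push_cast
    field_simp
    linarith
  refine (sum_le_sum h2).trans ?_
  rw [← mul_sum]
  refine mul_le_mul_of_nonneg_left ?_ (abs_nonneg c)
  unfold HH
  refine sum_le_sum_of_subset_of_nonneg ?_ fun i _ _ => by positivity
  intro i hi
  rw [mem_Ico] at hi
  simp only [mem_Icc, mem_Ioc, mem_range]
  omega

end Pool.Agent.T2H58.ST
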