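import Pool.Agent.T2H58.ST.Stm2

set_option autoImplicit false

open MeasureTheory Filter Topology Finset

namespace Pool.Agent.T2H58.ST

open Pool.Agent.T2H98.RT (P tw S A quads gam S_MUL S_OR S_KAP S_DIV)

namespace ZB2

theorem poly_le (q : ℕ) (δ : ℝ) (hδ : 0 < δ) :
    ∃ C : ℝ, 0 < C ∧ ∀ m : ℕ, ((m : ℝ) + 1) ^ q ≤ C * ((2 : ℝ) ^ m) ^ δ := by
  set r : ℝ := (2 : ℝ) ^ (-δ) with hr
  have hr0 : 0 < r := Real.rpow_pos_of_pos (by norm_num) _
  have hr1 : r < 1 := Real.rpow_lt_one_of_one_lt_of_neg (by norm_num) (by linarith)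
  have ht := tendsto_pow_const_mul_const_pow_of_abs_lt_one q (r := r) (by rw [abs_of_pos hr0]; exact hr1)
  obtain ⟨B, hB⟩ := ht.bddAbove_range
  refine ⟨(|B| + 1) * r⁻¹, by positivity, fun m => ?_⟩
  have h1 : ((m + 1 : ℕ) : ℝ) ^ q * r ^ (m + 1) ≤ B := hB ⟨m + 1, rfl⟩
  have h2 : B ≤ |B| + 1 := (le_abs_self B).trans (by linarith)
  have h3 : r ^ (m + 1) = r * (((2 : ℝ) ^ m) ^ δ)⁻¹ := by
    have : (((2 : ℝ) ^ m) ^ δ)⁻¹ = r ^ m := by
      rw [hr, ← Real.rpow_natCast, ← Real.rpow_natCast, ← Real.rpow_mul (by norm_num), ← Real.rpow_mul (by norm_num),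
        ← Real.rpow_neg (by norm_num)]
      congr 1
      ring
    rw [this]
    ring
  have hp : 0 < ((2 : ℝ) ^ m) ^ δ := by positivity
  push_cast at h1
  rw [h3] at h1
  have h4 : ((m : ℝ) + 1) ^ q * (r * (((2 : ℝ) ^ m) ^ δ)⁻¹) ≤ |B| + 1 := h1.trans h2
  calc ((m : ℝ) + 1) ^ q = (((m : ℝ) + 1) ^ q * (r * (((2 : ℝ) ^ m) ^ δ)⁻¹)) * (r⁻¹ * ((2 : ℝ) ^ m) ^ δ) := by
        field_simp
    _ ≤ (|B| + 1) * (r⁻¹ * ((2 : ℝ) ^ m) ^ δ) := mul_le_mul_of_nonneg_right h4 (by positivity)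
    _ = (|B| + 1) * r⁻¹ * ((2 : ℝ) ^ m) ^ δ := by ring

/-- mean absolute value over a unit interval -/
noncomputable def D {k : ℕ} (u : ℝ) (U : Finset (Tu k)) (θ : ℕ → ℝ) : ℝ := ∫ t in u..(u + 1), ‖FB θ U t‖

theorem D_nonneg {k : ℕ} (u : ℝ) (U : Finset (Tu k)) (θ : ℕ → ℝ) : 0 ≤ D u U θ := by
  unfold D
  exact intervalIntegral.integral_nonneg (by linarith) fun t _ => norm_nonneg _

theorem D_int (h3 : S_ME2) {k : ℕ} (u : ℝ) (U : Finset (Tu k)) : Integrable (fun θ => D u U θ ^ 2) P := by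
  have hc : Continuous (fun θ => D u U θ ^ 2) := by
    have := ((h3 k U).2.2.2 u (u + 1)).2
    exact this.pow 2
  refine Integrable.of_bound hc.aestronglyMeasurable (((U.card : ℝ) * |u + 1 - u|) ^ 2) (ae_of_all _ fun θ => ?_)
  rw [Real.norm_of_nonneg (by positivity)]
  refine pow_le_pow_left₀ (D_nonneg u U θ) ?_ 2
  refine (Real.le_norm_self _).trans ?_
  unfold D
  refine intervalIntegral.norm_integral_le_of_norm_le_const fun t _ => ?_
  rw [norm_norm]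
  exact (h3 k U).2.2.1 θ t

theorem D_union (h3 : S_ME2) {k : ℕ} (u : ℝ) (U U' : Finset (Tu k)) (hd : Disjoint U U') (θ : ℕ → ℝ) :
    D u (U ∪ U') θ ≤ D u U θ + D u U' θ := by
  have c1 : Continuous (fun t : ℝ => ‖FB θ U t‖) := ((h3 k U).1 θ).norm
  have c2 : Continuous (fun t : ℝ => ‖FB θ U' t‖) := ((h3 k U').1 θ).norm
  have c3 : Continuous (fun t : ℝ => ‖FB θ (U ∪ U') t‖) := ((h3 k (U ∪ U')).1 θ).norm
  unfold D
  rw [← intervalIntegral.integral_add (c1.intervalIntegrable _ _) (c2.intervalIntegrable _ _)]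
  refine intervalIntegral.integral_mono_on (by linarith) (c3.intervalIntegrable _ _)
    ((c1.add c2).intervalIntegrable _ _) fun t _ => ?_
  have e : FB θ (U ∪ U') t = FB θ U t + FB θ U' t := by
    unfold FB
    exact Finset.sum_union hd
  rw [e]
  exact norm_add_le _ _

theorem card_lev (k m : ℕ) : ((lev k m).card : ℝ) = ((m : ℝ) + 1) ^ (2 * k) := by
  unfold lev
  rw [Fintype.card_piFinset]
  simp only [Finset.card_range, Finset.prod_const, Finset.card_univ, Fintype.card_sum, Fintype.card_fin]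
  push_cast
  congr 1
  ring

end ZB2

theorem pZB2 (h1 : S_CHB) (h2 : S_EU2) (h3 : S_ME2) (h4 : S_DIS) : S_ZB2 := by
  intro k ε hk hε
  obtain ⟨C₁, hC₁, hV⟩ := h2 k (ε / 2) hk (half_pos hε)
  obtain ⟨C₂, hC₂, hL₂⟩ := ZB2.poly_le (4 * k) (ε / 2) (half_pos hε)
  refine ⟨C₁ * C₂, by positivity, fun m m' => ?_⟩
  refine ⟨fun θ => ((m : ℝ) + 1) ^ (2 * k) * ∑ n ∈ range (2 ^ m'),
    ∑ i ∈ lev k m, ∑ l ∈ pos m i, ZB2.D (n : ℝ) (dy i l) θ ^ 2, ?_, ?_, ?_, ?_⟩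
  · refine Integrable.const_mul ?_ _
    refine integrable_finsetSum _ fun n _ => ?_
    refine integrable_finsetSum _ fun i _ => ?_
    refine integrable_finsetSum _ fun l _ => ?_
    exact ZB2.D_int h3 _ _
  · intro θ
    refine mul_nonneg (by positivity) ?_
    exact Finset.sum_nonneg fun i _ => Finset.sum_nonneg fun l _ => Finset.sum_nonneg fun i' _ => sq_nonneg _
  · rw [integral_const_mul]
    have hsum : ∫ θ, ∑ n ∈ range (2 ^ m'), ∑ i ∈ lev k m, ∑ l ∈ pos m i,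
        ZB2.D (n : ℝ) (dy i l) θ ^ 2 ∂P ≤
        (2 : ℝ) ^ m' * (((m : ℝ) + 1) ^ (2 * k) * (C₁ * ((2 : ℝ) ^ m) ^ (ε / 2))) := by
      rw [integral_finsetSum _ (fun n _ => integrable_finsetSum _ fun i _ =>
        integrable_finsetSum _ fun l _ => ZB2.D_int h3 _ _)]
      have hconst : (2 : ℝ) ^ m' * (((m : ℝ) + 1) ^ (2 * k) * (C₁ * ((2 : ℝ) ^ m) ^ (ε / 2))) =
          ∑ _n ∈ range (2 ^ m'), (((m : ℝ) + 1) ^ (2 * k) * (C₁ * ((2 : ℝ) ^ m) ^ (ε / 2))) := by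
        rw [Finset.sum_const, Finset.card_range, nsmul_eq_mul]
        push_cast
        ring
      rw [hconst]
      refine Finset.sum_le_sum fun n _ => ?_
      rw [← ZB2.card_lev, ← nsmul_eq_mul, ← Finset.sum_const]
      rw [integral_finsetSum _ (fun i _ => integrable_finsetSum _ fun l _ => ZB2.D_int h3 _ _)]
      refine Finset.sum_le_sum fun i hi => ?_
      rw [integral_finsetSum _ (fun l _ => ZB2.D_int h3 _ _)]
      have hdis := h4 k m i hi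
      have := hV (2 ^ m) (pos m i) (dy i) Nat.one_le_two_pow hdis.1 hdis.2 (n : ℝ)
      unfold ZB2.D
      refine this.trans (le_of_eq ?_)
      push_cast
      ring
    have e1 : ((2 : ℝ) ^ m) ^ ε = ((2 : ℝ) ^ m) ^ (ε / 2) * ((2 : ℝ) ^ m) ^ (ε / 2) := by
      rw [← Real.rpow_add (by positivity)]
      congr 1
      ring
    have e2 : (2 : ℝ) ^ m' ≤ ((2 : ℝ) ^ m') ^ (1 + ε) := by
      have h1 : (1 : ℝ) ≤ (2 : ℝ) ^ m' := one_le_pow₀ (by norm_num)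
      calc (2 : ℝ) ^ m' = ((2 : ℝ) ^ m') ^ (1 : ℝ) := (Real.rpow_one _).symm
        _ ≤ ((2 : ℝ) ^ m') ^ (1 + ε) := Real.rpow_le_rpow_of_exponent_le h1 (by linarith)
    calc ((m : ℝ) + 1) ^ (2 * k) * _
        ≤ ((m : ℝ) + 1) ^ (2 * k) * ((2 : ℝ) ^ m' * (((m : ℝ) + 1) ^ (2 * k) * (C₁ * ((2 : ℝ) ^ m) ^ (ε / 2)))) := by
          exact mul_le_mul_of_nonneg_left hsum (by positivity)
      _ = C₁ * ((2 : ℝ) ^ m) ^ (ε / 2) * (2 : ℝ) ^ m' * (((m : ℝ) + 1) ^ (4 * k)) := by ring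
      _ ≤ C₁ * ((2 : ℝ) ^ m) ^ (ε / 2) * (2 : ℝ) ^ m' * (C₂ * ((2 : ℝ) ^ m) ^ (ε / 2)) := by
          exact mul_le_mul_of_nonneg_left (hL₂ m) (by positivity)
      _ = C₁ * C₂ * ((2 : ℝ) ^ m) ^ ε * (2 : ℝ) ^ m' := by rw [e1]; ring
      _ ≤ C₁ * C₂ * ((2 : ℝ) ^ m) ^ ε * ((2 : ℝ) ^ m') ^ (1 + ε) :=
          mul_le_mul_of_nonneg_left e2 (by positivity)
  · intro θ N n hN hn
    have := h1 k m (fun U => ZB2.D (n : ℝ) U θ) (fun U => ZB2.D_nonneg _ U θ)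
      (by simp [ZB2.D, FB]) (fun U U' hd => ZB2.D_union h3 _ U U' hd θ) N hN
    change ZB2.D (n : ℝ) (box 0 N) θ ^ 2 ≤ _
    refine this.trans ?_
    refine mul_le_mul_of_nonneg_left ?_ (by positivity)
    have hmem : n ∈ range (2 ^ m') := Finset.mem_range.2 hn
    exact Finset.single_le_sum (f := fun n : ℕ => ∑ i ∈ lev k m, ∑ l ∈ pos m i, ZB2.D (n : ℝ) (dy i l) θ ^ 2)
      (fun n _ => Finset.sum_nonneg fun i _ => Finset.sum_nonneg fun l _ => sq_nonneg _) hmem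

end Pool.Agent.T2H58.ST
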