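import Pool.Agent.T2H58.ST.Stm2
import Pool.Agent.T2H58.ST.YB
import Pool.Agent.T2H58.ST.ZB2

/-! package YB2 -/

set_option autoImplicit false

open MeasureTheory Filter Topology Finset

namespace Pool.Agent.T2H58.ST

open Pool.Agent.T2H98.RT (P tw S A quads gam S_MUL S_OR S_KAP S_DIV)

namespace YB2

/-- norm of the integral -/
noncomputable def D {k : ℕ} (u v : ℝ) (U : Finset (Tu k)) (θ : ℕ → ℝ) : ℝ := ‖∫ t in u..v, FB θ U t‖

theorem D_nonneg {k : ℕ} (u v : ℝ) (U : Finset (Tu k)) (θ : ℕ → ℝ) : 0 ≤ D u v U θ := norm_nonneg _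

theorem D_int (h3 : S_ME2) {k : ℕ} (u v : ℝ) (U : Finset (Tu k)) : Integrable (fun θ => D u v U θ ^ 2) P := by
  have hc : Continuous (fun θ => D u v U θ ^ 2) := by
    have := ((h3 k U).2.2.2 u v).1
    exact this.norm.pow 2
  refine Integrable.of_bound hc.aestronglyMeasurable (((U.card : ℝ) * |v - u|) ^ 2) (ae_of_all _ fun θ => ?_)
  rw [Real.norm_of_nonneg (by positivity)]
  refine pow_le_pow_left₀ (D_nonneg u v U θ) ?_ 2
  unfold D
  refine intervalIntegral.norm_integral_le_of_norm_le_const fun t _ => ?_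
  exact (h3 k U).2.2.1 θ t

theorem D_union (h3 : S_ME2) {k : ℕ} (u v : ℝ) (U U' : Finset (Tu k)) (hd : Disjoint U U') (θ : ℕ → ℝ) :
    D u v (U ∪ U') θ ≤ D u v U θ + D u v U' θ := by
  have c1 : Continuous (fun t : ℝ => FB θ U t) := (h3 k U).1 θ
  have c2 : Continuous (fun t : ℝ => FB θ U' t) := (h3 k U').1 θ
  have e : (fun t => FB θ (U ∪ U') t) = fun t => FB θ U t + FB θ U' t := by
    funext t
    unfold FB
    exact Finset.sum_union hd
  unfold D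
  rw [e, intervalIntegral.integral_add (c1.intervalIntegrable _ _) (c2.intervalIntegrable _ _)]
  exact norm_add_le _ _

theorem D_tri (h3 : S_ME2) {k : ℕ} (x y z : ℝ) (U : Finset (Tu k)) (θ : ℕ → ℝ) :
    D x z U θ ≤ D x y U θ + D y z U θ := by
  have c1 : Continuous (fun t : ℝ => FB θ U t) := (h3 k U).1 θ
  unfold D
  rw [← intervalIntegral.integral_add_adjacent_intervals (c1.intervalIntegrable x y) (c1.intervalIntegrable y z)]
  exact norm_add_le _ _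

end YB2

theorem pYB2 (h1 : S_CHB) (h2 : S_CH1) (h3 : S_SUM) (h4 : S_ME2) (h5 : S_DIS) : S_YB2 := by
  intro k ε hk hε
  obtain ⟨C₁, hC₁, hV⟩ := h3 k (ε / 2) hk (half_pos hε)
  obtain ⟨C₂, hC₂, hL₂⟩ := ZB2.poly_le (4 * k) (ε / 2) (half_pos hε)
  obtain ⟨C₃, hC₃, hL₃⟩ := ZB2.poly_le 2 ε hε
  refine ⟨C₁ * C₂ * C₃, by positivity, fun m m' => ?_⟩
  refine ⟨fun θ => ((m : ℝ) + 1) ^ (2 * k) * (((m' : ℝ) + 1) *
    ∑ i ∈ lev k m, ∑ i' ∈ range (m' + 1), ∑ l' ∈ range (2 ^ (m' - i')), ∑ l ∈ pos m i,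
      YB2.D ((l' * 2 ^ i' : ℕ) : ℝ) (((l' + 1) * 2 ^ i' : ℕ) : ℝ) (dy i l) θ ^ 2),
    ?_, ?_, ?_, ?_⟩
  · refine Integrable.const_mul (Integrable.const_mul ?_ _) _
    refine integrable_finsetSum _ fun i _ => ?_
    refine integrable_finsetSum _ fun i' _ => ?_
    refine integrable_finsetSum _ fun l' _ => ?_
    refine integrable_finsetSum _ fun l _ => ?_
    exact YB2.D_int h4 _ _ _
  · intro θ
    refine mul_nonneg (by positivity) (mul_nonneg (by positivity) ?_)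
    exact Finset.sum_nonneg fun i _ => Finset.sum_nonneg fun l _ => Finset.sum_nonneg fun i' _ =>
      Finset.sum_nonneg fun l' _ => sq_nonneg _
  · rw [integral_const_mul, integral_const_mul]
    have hsum : ∫ θ, ∑ i ∈ lev k m, ∑ i' ∈ range (m' + 1), ∑ l' ∈ range (2 ^ (m' - i')), ∑ l ∈ pos m i,
        YB2.D ((l' * 2 ^ i' : ℕ) : ℝ) (((l' + 1) * 2 ^ i' : ℕ) : ℝ) (dy i l) θ ^ 2 ∂P ≤
        ((m : ℝ) + 1) ^ (2 * k) * (C₁ * ((2 : ℝ) ^ m) ^ (ε / 2) * (((m' : ℝ) + 1) * 2 ^ m')) := by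
      rw [integral_finsetSum _ (fun i _ => integrable_finsetSum _ fun i' _ =>
        integrable_finsetSum _ fun l' _ => integrable_finsetSum _ fun l _ => YB2.D_int h4 _ _ _)]
      rw [← ZB2.card_lev, ← nsmul_eq_mul, ← Finset.sum_const]
      refine Finset.sum_le_sum fun i hi => ?_
      rw [integral_finsetSum _ (fun i' _ =>
        integrable_finsetSum _ fun l' _ => integrable_finsetSum _ fun l _ => YB2.D_int h4 _ _ _)]
      rw [← YB.cnt m', Finset.mul_sum]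
      refine Finset.sum_le_sum fun i' hi' => ?_
      rw [integral_finsetSum _ (fun l' _ => integrable_finsetSum _ fun l _ => YB2.D_int h4 _ _ _)]
      rw [Finset.mul_sum]
      refine Finset.sum_le_sum fun l' hl' => ?_
      rw [integral_finsetSum _ (fun l _ => YB2.D_int h4 _ _ _)]
      have huv : ((l' * 2 ^ i' : ℕ) : ℝ) ≤ (((l' + 1) * 2 ^ i' : ℕ) : ℝ) := by
        exact_mod_cast Nat.mul_le_mul_right _ (Nat.le_succ l')
      have hdis := h5 k m i hi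
      have := (hV (2 ^ m) (pos m i) (dy i) Nat.one_le_two_pow hdis.1 hdis.2).1 _ _ huv
      unfold YB2.D
      refine this.trans (le_of_eq ?_)
      push_cast
      ring
    have e1 : ((2 : ℝ) ^ m) ^ ε = ((2 : ℝ) ^ m) ^ (ε / 2) * ((2 : ℝ) ^ m) ^ (ε / 2) := by
      rw [← Real.rpow_add (by positivity)]
      congr 1
      ring
    have e2 : ((2 : ℝ) ^ m') ^ (1 + ε) = (2 : ℝ) ^ m' * ((2 : ℝ) ^ m') ^ ε := by
      rw [Real.rpow_add (by positivity), Real.rpow_one]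
    calc ((m : ℝ) + 1) ^ (2 * k) * (((m' : ℝ) + 1) * _)
        ≤ ((m : ℝ) + 1) ^ (2 * k) * (((m' : ℝ) + 1) * (((m : ℝ) + 1) ^ (2 * k) *
          (C₁ * ((2 : ℝ) ^ m) ^ (ε / 2) * (((m' : ℝ) + 1) * 2 ^ m')))) := by
          refine mul_le_mul_of_nonneg_left (mul_le_mul_of_nonneg_left hsum (by positivity)) (by positivity)
      _ = C₁ * ((2 : ℝ) ^ m) ^ (ε / 2) * (2 : ℝ) ^ m' *
          (((m : ℝ) + 1) ^ (4 * k) * (((m' : ℝ) + 1) ^ 2)) := by ring
      _ ≤ C₁ * ((2 : ℝ) ^ m) ^ (ε / 2) * (2 : ℝ) ^ m' *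
          ((C₂ * ((2 : ℝ) ^ m) ^ (ε / 2)) * (C₃ * ((2 : ℝ) ^ m') ^ ε)) := by
          refine mul_le_mul_of_nonneg_left ?_ (by positivity)
          exact mul_le_mul (hL₂ m) (hL₃ m') (by positivity) (by positivity)
      _ = C₁ * C₂ * C₃ * ((2 : ℝ) ^ m) ^ ε * ((2 : ℝ) ^ m') ^ (1 + ε) := by
          rw [e1, e2]; ring
  · intro θ N T hN hT
    have hA := h1 k m (fun U => YB2.D 0 (T : ℝ) U θ) (fun U => YB2.D_nonneg _ _ U θ)
      (by simp [YB2.D, FB]) (fun U U' hd => YB2.D_union h4 _ _ U U' hd θ) N hN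
    change YB2.D 0 (T : ℝ) (box 0 N) θ ^ 2 ≤ _
    refine hA.trans ?_
    refine mul_le_mul_of_nonneg_left ?_ (by positivity)
    rw [Finset.mul_sum]
    refine Finset.sum_le_sum fun i _ => ?_
    have hB : ∀ l ∈ pos m i, YB2.D 0 (T : ℝ) (dy i l) θ ^ 2 ≤ ((m' : ℝ) + 1) *
        ∑ i' ∈ range (m' + 1), ∑ l' ∈ range (2 ^ (m' - i')),
          YB2.D ((l' * 2 ^ i' : ℕ) : ℝ) (((l' + 1) * 2 ^ i' : ℕ) : ℝ) (dy i l) θ ^ 2 := by
      intro l _
      have := h2 (fun x y => YB2.D (x : ℝ) (y : ℝ) (dy i l) θ) (fun x y => YB2.D_nonneg _ _ _ _)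
        (fun x => by simp [YB2.D]) (fun x y z => YB2.D_tri h4 _ _ _ _ θ) m' T hT
      simpa using this
    refine (Finset.sum_le_sum hB).trans (le_of_eq ?_)
    rw [← Finset.mul_sum]
    congr 1
    rw [Finset.sum_comm]
    refine Finset.sum_congr rfl fun i' _ => ?_
    rw [Finset.sum_comm]

end Pool.Agent.T2H58.ST
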