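import Pool.Agent.T2H98.RT.MUL
import Pool.Agent.T2H98.RT.OR
import Pool.Agent.T2H98.RT.KAP
import Pool.Agent.T2H98.RT.DIV
import Pool.Agent.T2H58.ST.CFB
import Pool.Agent.T2H58.ST.HAR
import Pool.Agent.T2H58.ST.LOGW
import Pool.Agent.T2H58.ST.UB
import Pool.Agent.T2H58.ST.QB
import Pool.Agent.T2H58.ST.QINC
import Pool.Agent.T2H58.ST.CH1
import Pool.Agent.T2H58.ST.BC
import Pool.Agent.T2H58.ST.ME2
import Pool.Agent.T2H58.ST.V1
import Pool.Agent.T2H58.ST.V1P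
import Pool.Agent.T2H58.ST.V2
import Pool.Agent.T2H58.ST.SUM
import Pool.Agent.T2H58.ST.EU2
import Pool.Agent.T2H58.ST.DIS
import Pool.Agent.T2H58.ST.CHB
import Pool.Agent.T2H58.ST.YB2
import Pool.Agent.T2H58.ST.ZB2
import Pool.Agent.T2H58.ST.FIN2
import Pool.Agent.T2H58.ST.ABEL
import Pool.Agent.T2H58.ST.WT
import Pool.Agent.T2H58.ST.EXPS
import Pool.Agent.T2H58.ST.FINS

set_option autoImplicit false

namespace Pool.Agent.T2H58.ST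

open Pool.Agent.T2H98.RT (pMUL pOR pKAP pDIV)

theorem vME2 : S_ME2 := pME2 pMUL
theorem wQINC : S_QINC := pQINC (pCFB pDIV) (pUB pDIV) pQB pHAR
theorem vSUM : S_SUM := pSUM (pV1 pMUL pOR pKAP vME2) (pV1P pMUL pOR) (pV2 wQINC pHAR) pLOGW pHAR
theorem vEU2 : S_EU2 := pEU2 vSUM vME2
theorem vYB2 : S_YB2 := pYB2 pCHB pCH1 vSUM vME2 pDIS
theorem vZB2 : S_ZB2 := pZB2 pCHB vEU2 vME2 pDIS
theorem vFIN2 : S_FIN2 := pFIN2 vYB2 vZB2 pBC vME2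
theorem vFINS : S_FINS := pFINS vFIN2 pABEL pWT (pEXPS pMUL) vME2 pHAR

end Pool.Agent.T2H58.ST
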