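import Pool.Agent.T2H58.ST.Stm

/-! Project ST, package MEAS: continuity and trivial bounds. -/

set_option autoImplicit false

open MeasureTheory Filter Topology Finset

namespace Pool.Agent.T2H58.ST

open Pool.Agent.T2H98.RT (P tw S A quads gam S_MUL S_OR S_KAP S_DIV S_LIM)

namespace MEAS

lemma cont_S (hMUL : S_MUL) (N : ℕ) (a : ℝ) :
    Continuous (fun q : (ℕ → ℝ) × ℝ => S q.1 N (q.2 + a)) := by
  unfold S
  refine continuous_finsetSum _ fun n hn => ?_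
  have hn0 : (n : ℂ) ≠ 0 := by
    have := (Finset.mem_Icc.mp hn).1
    exact_mod_cast (by omega : n ≠ 0)
  refine ((hMUL.2.2.2 n).comp continuous_fst).mul ?_
  refine Continuous.const_cpow ?_ (Or.inl hn0)
  fun_prop

lemma cont_PS (hMUL : S_MUL) {k : ℕ} (a : Fin k → ℝ) (N : ℕ) :
    Continuous (fun q : (ℕ → ℝ) × ℝ => PS a q.1 N q.2) := by
  unfold PS
  exact continuous_finsetProd _ fun j _ => cont_S hMUL N (a j)

lemma cont_EE (hMUL : S_MUL) {k : ℕ} (a a' : Fin k → ℝ) (N : ℕ) :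
    Continuous (fun q : (ℕ → ℝ) × ℝ => EE a a' q.1 N q.2) := by
  unfold EE
  exact ((cont_PS hMUL a N).mul (Complex.continuous_conj.comp (cont_PS hMUL a' N))).sub
    continuous_const

lemma norm_S (hMUL : S_MUL) (N : ℕ) (θ : ℕ → ℝ) (t : ℝ) : ‖S θ N t‖ ≤ N := by
  unfold S
  have h1 : ∀ n ∈ Finset.Icc 1 N, ‖tw θ n * (n : ℂ) ^ (-(1 / 2 : ℂ) - t * Complex.I)‖ ≤ 1 := by
    intro n hn
    have hn1 : 1 ≤ n := (Finset.mem_Icc.mp hn).1
    rw [norm_mul, hMUL.2.1 θ n, one_mul, Complex.norm_natCast_cpow_of_pos (by omega)]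
    have hre : (-(1 / 2 : ℂ) - t * Complex.I).re = -(1 / 2) := by simp
    rw [hre]
    exact Real.rpow_le_one_of_one_le_of_nonpos (by exact_mod_cast hn1) (by norm_num)
  calc ‖∑ n ∈ Finset.Icc 1 N, tw θ n * (n : ℂ) ^ (-(1 / 2 : ℂ) - t * Complex.I)‖
      ≤ ∑ n ∈ Finset.Icc 1 N, ‖tw θ n * (n : ℂ) ^ (-(1 / 2 : ℂ) - t * Complex.I)‖ := norm_sum_le _ _
    _ ≤ ∑ n ∈ Finset.Icc 1 N, (1 : ℝ) := Finset.sum_le_sum h1
    _ = N := by simp

lemma norm_PS (hMUL : S_MUL) {k : ℕ} (a : Fin k → ℝ) (N : ℕ) (θ : ℕ → ℝ) (t : ℝ) :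
    ‖PS a θ N t‖ ≤ (N : ℝ) ^ k := by
  unfold PS
  rw [norm_prod]
  calc ∏ j, ‖S θ N (t + a j)‖ ≤ ∏ _j : Fin k, (N : ℝ) :=
        Finset.prod_le_prod (fun _ _ => norm_nonneg _) fun j _ => norm_S hMUL N θ _
    _ = (N : ℝ) ^ k := by simp

end MEAS

theorem pMEAS (h1 : S_MUL) : S_MEAS := by
  intro k a a' N₁ N₂
  refine ⟨MEAS.cont_EE h1 a a' N₁, ⟨(N₁ : ℝ) ^ k * (N₁ : ℝ) ^ k + ‖dg a a' N₁‖, by positivity, ?_⟩, ?_, ?_⟩
  · intro θ t
    unfold EE
    refine (norm_sub_le _ _).trans ?_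
    rw [norm_mul, Complex.norm_conj]
    have e1 := MEAS.norm_PS h1 a N₁ θ t
    have e2 := MEAS.norm_PS h1 a' N₁ θ t
    gcongr
  · intro u v
    have hc : Continuous (fun q : (ℕ → ℝ) × ℝ => EE a a' q.1 N₂ q.2 - EE a a' q.1 N₁ q.2) :=
      (MEAS.cont_EE h1 a a' N₂).sub (MEAS.cont_EE h1 a a' N₁)
    constructor
    · exact intervalIntegral.continuous_parametric_intervalIntegral_of_continuous'
        (f := fun θ t => EE a a' θ N₂ t - EE a a' θ N₁ t) hc u v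
    · exact intervalIntegral.continuous_parametric_intervalIntegral_of_continuous'
        (f := fun θ t => ‖EE a a' θ N₂ t - EE a a' θ N₁ t‖) hc.norm u v
  · intro hk θ t
    have hS : ∀ x : ℝ, S θ 0 x = 0 := by
      intro x
      unfold S
      simp
    have hPS : PS a θ 0 t = 0 := by
      unfold PS
      rw [Finset.prod_congr rfl (g := fun _ => (0 : ℂ)) (fun j _ => hS _), Finset.prod_const,
        Finset.card_univ, Fintype.card_fin]
      exact zero_pow (by omega)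
    have hdg : dg a a' 0 = 0 := by
      unfold dg
      rw [zero_pow (by omega)]
      simp
    unfold EE
    rw [hPS, hdg]
    simp

end Pool.Agent.T2H58.ST
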