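import Pool.Agent.T2H58.ST.Stm

/-! Project ST, package MOM: the moments of all orders, all polynomial lengths. -/

set_option autoImplicit false

open MeasureTheory Filter Topology Finset

namespace Pool.Agent.T2H58.ST

open Pool.Agent.T2H98.RT (P tw S A quads gam S_MUL S_OR S_KAP S_DIV S_LIM)

namespace MOM

lemma cont_of (F : (ℕ → ℝ) → ℝ → ℂ) (hc : Continuous (fun q : (ℕ → ℝ) × ℝ => F q.1 q.2)) (θ : ℕ → ℝ) :
    Continuous (fun t : ℝ => F θ t) :=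
  hc.comp (Continuous.prodMk continuous_const continuous_id)

lemma cf_zero (k N m : ℕ) : cf (0 : Fin k → ℝ) N m = (Pool.Agent.T2H98.RT.b k N m : ℂ) := by
  unfold cf Pool.Agent.T2H98.RT.b
  rw [Finset.sum_congr rfl (g := fun _ => (1 : ℂ)) (fun v _ => by simp)]
  rw [Finset.sum_const, nsmul_eq_mul, mul_one]

lemma dg_zero (k N : ℕ) : dg (0 : Fin k → ℝ) 0 N = A k N := by
  unfold dg A
  push_cast
  refine Finset.sum_congr rfl fun m _ => ?_
  rw [cf_zero, Complex.conj_natCast]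
  ring

lemma EE_zero (k : ℕ) (θ : ℕ → ℝ) (N : ℕ) (t : ℝ) :
    EE (0 : Fin k → ℝ) 0 θ N t = ((‖S θ N t‖ ^ (2 * k) - A k N : ℝ) : ℂ) := by
  unfold EE
  rw [dg_zero]
  have h1 : PS (0 : Fin k → ℝ) θ N t = S θ N t ^ k := by
    unfold PS
    simp
  rw [h1, Complex.mul_conj, Complex.normSq_eq_norm_sq, norm_pow]
  push_cast
  ring

end MOM

theorem pMOM (h1 : S_FIN1) (h2 : S_LIM) (h3 : S_MEAS) : S_MOM := by
  intro k hk
  refine ⟨MOM.dg_zero k, ?_⟩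
  have hae : ∀ᵐ θ ∂P, ∀ B : ℕ, ∃ K : ℝ, 0 < K ∧ ∀ (T : ℝ) (N : ℕ), 1 ≤ T → (N : ℝ) ≤ T ^ B →
      ‖∫ t in (0:ℝ)..T, EE (0 : Fin k → ℝ) 0 θ N t‖ ≤ K * T ^ ((1 / 2 : ℝ) + 1 / 4) := by
    rw [ae_all_iff]
    intro B
    exact h1 k 0 0 hk B (1 / 4) (by norm_num)
  filter_upwards [hae] with θ hθ
  intro B ε hε
  obtain ⟨K, hK, hKT⟩ := hθ B
  have hev : ∀ᶠ N : ℕ in atTop, |A k N / Real.log N ^ (k ^ 2) - gam k| < ε / 2 := by
    have := (Metric.tendsto_nhds.mp (h2 k hk)) (ε / 2) (by positivity)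
    filter_upwards [this] with N hN
    rwa [Real.dist_eq] at hN
  obtain ⟨N₂, hN₂⟩ := eventually_atTop.mp hev
  refine ⟨max N₂ 3, max 1 ((2 * K / ε) ^ 4), ?_⟩
  intro T N hT hN hNT
  have hN2 : N₂ ≤ N := (le_max_left _ _).trans hN
  have hN3 : 3 ≤ N := (le_max_right _ _).trans hN
  have hT1 : 1 ≤ T := (le_max_left _ _).trans hT
  have hT2 : (2 * K / ε) ^ 4 ≤ T := (le_max_right _ _).trans hT
  have hT0 : 0 < T := by linarith
  have hcont : Continuous (fun t : ℝ => EE (0 : Fin k → ℝ) 0 θ N t) :=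
    MOM.cont_of (fun θ t => EE (0 : Fin k → ℝ) 0 θ N t) (h3 k 0 0 N N).1 θ
  have hcont2 : Continuous (fun t : ℝ => ‖S θ N t‖ ^ (2 * k)) := by
    have h5 : Continuous (fun t : ℝ => (EE (0 : Fin k → ℝ) 0 θ N t).re + A k N) :=
      (Complex.continuous_re.comp hcont).add continuous_const
    have h6 : (fun t : ℝ => (EE (0 : Fin k → ℝ) 0 θ N t).re + A k N) = fun t => ‖S θ N t‖ ^ (2 * k) := by
      funext t
      rw [MOM.EE_zero, Complex.ofReal_re]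
      ring
    rwa [h6] at h5
  have hint : (∫ t in (0:ℝ)..T, EE (0 : Fin k → ℝ) 0 θ N t) =
      (((∫ t in (0:ℝ)..T, ‖S θ N t‖ ^ (2 * k)) - T * A k N : ℝ) : ℂ) := by
    have h5 : (fun t : ℝ => EE (0 : Fin k → ℝ) 0 θ N t) =
        fun t => ((‖S θ N t‖ ^ (2 * k) - A k N : ℝ) : ℂ) := by
      funext t
      exact MOM.EE_zero k θ N t
    rw [h5, intervalIntegral.integral_ofReal]
    congr 1
    rw [intervalIntegral.integral_sub (hcont2.intervalIntegrable _ _) intervalIntegrable_const,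
      intervalIntegral.integral_const, smul_eq_mul, sub_zero]
  have hb := hKT T N hT1 hNT
  rw [hint, Complex.norm_real, Real.norm_eq_abs] at hb
  have hb2 : |1 / T * (∫ t in (0:ℝ)..T, ‖S θ N t‖ ^ (2 * k)) - A k N| ≤ ε / 2 := by
    have e1 : 1 / T * (∫ t in (0:ℝ)..T, ‖S θ N t‖ ^ (2 * k)) - A k N =
        1 / T * ((∫ t in (0:ℝ)..T, ‖S θ N t‖ ^ (2 * k)) - T * A k N) := by
      field_simp
    rw [e1, abs_mul, abs_of_pos (by positivity : 0 < 1 / T)]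
    have hq0 : 0 < T ^ (1 / 4 : ℝ) := Real.rpow_pos_of_pos hT0 _
    have hq : 2 * K / ε ≤ T ^ (1 / 4 : ℝ) := by
      have h7 : ((2 * K / ε) ^ 4) ^ (1 / 4 : ℝ) ≤ T ^ (1 / 4 : ℝ) :=
        Real.rpow_le_rpow (by positivity) hT2 (by norm_num)
      have h8 : ((2 * K / ε) ^ 4) ^ (1 / 4 : ℝ) = 2 * K / ε := by
        rw [← Real.rpow_natCast, ← Real.rpow_mul (by positivity)]
        norm_num
      rwa [h8] at h7
    have hTT : T ^ ((1 / 2 : ℝ) + 1 / 4) * T ^ (1 / 4 : ℝ) = T := by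
      rw [← Real.rpow_add hT0]
      norm_num
    have h9 : K ≤ ε / 2 * T ^ (1 / 4 : ℝ) := by
      rw [div_le_iff₀ hε] at hq
      linarith
    calc 1 / T * |(∫ t in (0:ℝ)..T, ‖S θ N t‖ ^ (2 * k)) - T * A k N|
        ≤ 1 / T * (K * T ^ ((1 / 2 : ℝ) + 1 / 4)) := by gcongr
      _ ≤ 1 / T * (ε / 2 * T ^ (1 / 4 : ℝ) * T ^ ((1 / 2 : ℝ) + 1 / 4)) := by gcongr
      _ = 1 / T * (ε / 2 * (T ^ ((1 / 2 : ℝ) + 1 / 4) * T ^ (1 / 4 : ℝ))) := by ring
      _ = ε / 2 := by rw [hTT]; field_simp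
  have hL1 : 1 ≤ Real.log N ^ (k ^ 2) := by
    apply one_le_pow₀
    rw [← Real.log_exp 1]
    apply Real.log_le_log (Real.exp_pos 1)
    have : Real.exp 1 < 3 := lt_trans Real.exp_one_lt_d9 (by norm_num)
    have h3N : (3 : ℝ) ≤ N := by exact_mod_cast hN3
    linarith
  have hLpos : 0 < Real.log N ^ (k ^ 2) := by linarith
  set L : ℝ := Real.log N ^ (k ^ 2) with hL
  have hA : |A k N - gam k * L| ≤ ε / 2 * L := by
    have h5 := (hN₂ N hN2).le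
    have h6 : A k N - gam k * L = (A k N / L - gam k) * L := by
      field_simp
    rw [h6, abs_mul, abs_of_pos hLpos]
    gcongr
  have hε2 : ε / 2 ≤ ε / 2 * L := by nlinarith
  have hfin : 1 / T * (∫ t in (0:ℝ)..T, ‖S θ N t‖ ^ (2 * k)) - gam k * L =
      (1 / T * (∫ t in (0:ℝ)..T, ‖S θ N t‖ ^ (2 * k)) - A k N) + (A k N - gam k * L) := by ring
  rw [hfin]
  calc _ ≤ |1 / T * (∫ t in (0:ℝ)..T, ‖S θ N t‖ ^ (2 * k)) - A k N| + |A k N - gam k * L| := abs_add_le _ _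
    _ ≤ ε * L := by linarith

end Pool.Agent.T2H58.ST
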