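import Pool.Agent.T2H98.RT.Stm

/-!
# Project ST (helper58): MP_fa2474_nt, shifted moments of all orders for almost every random twist

`f` the random completely multiplicative function of project RT (helper98), `f(p) = e^{2πiθ_p}`,
`S(θ,N,t) = ∑_{n ≤ N} f(n) n^{-1/2-it}`. TARGET: for all `k ≥ 1` and all shifts `a, a' ∈ ℝ^k`, for almost all `θ`, for every
`B` and `ε > 0`, uniformly for all real `T ≥ 1` and all `N ≤ T^B`,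
`∫_0^T ∏_j S(θ,N,t+a_j) conj ∏_j S(θ,N,t+a'_j) dt = T dg(a,a',N) + O(T^{1/2+ε})`
(square-root error, all polynomial lengths), `dg` = the diagonal sum. Proof: the increment of the error term over a
rectangle `(N₁,N₂] × [u,v]` has the second moment `≤ C (v-u) R^ε ∑_{N₁<n≤N₂} 1/n`; dyadic chaining in `N` and `T`.

Every package is INDEPENDENT: what it needs from others are hypotheses, as listed (Deps; S_MUL, S_OR, S_KAP, S_DIV, S_LIM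
are the finished packages of Pool.Agent.T2H98.RT, to be taken as hypotheses, too).
File `Pool/Agent/T2H58/ST/<ID>.lean`: `import Pool.Agent.T2H58.ST.Stm`, `namespace Pool.Agent.T2H58.ST`,
`theorem p<ID> (h : S_dep) .. : S_<ID>`; put your own lemmas in a namespace `<ID>`.
-/

set_option autoImplicit false

open MeasureTheory Filter Topology Finset

namespace Pool.Agent.T2H58.ST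

open Pool.Agent.T2H98.RT (P tw S A quads gam S_MUL S_OR S_KAP S_DIV S_LIM)

/-- a twisted Dirichlet polynomial `∑_{m ≤ M} c_m f(m) m^{-it}` -/
noncomputable def DC (θ : ℕ → ℝ) (c : ℕ → ℂ) (M : ℕ) (t : ℝ) : ℂ :=
  ∑ m ∈ Icc 1 M, c m * tw θ m * Complex.exp (-(t * Real.log m * Complex.I))

/-- `∑_{m ≤ M} c_m conj d_m` -/
noncomputable def ip (c d : ℕ → ℂ) (M : ℕ) : ℂ := ∑ m ∈ Icc 1 M, c m * (starRingEnd ℂ) (d m)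

/-- the coefficient `∑ ∏ v_j^{-i a_j}` over the `v ∈ [1,N]^k` with product `m` -/
noncomputable def cf {k : ℕ} (a : Fin k → ℝ) (N m : ℕ) : ℂ :=
  ∑ v ∈ (Fintype.piFinset fun _ : Fin k => Icc 1 N).filter (fun v => ∏ i, v i = m),
    ∏ j, (v j : ℂ) ^ (-((a j : ℂ) * Complex.I))

/-- `∏_j S(θ,N,t+a_j)` -/
noncomputable def PS {k : ℕ} (a : Fin k → ℝ) (θ : ℕ → ℝ) (N : ℕ) (t : ℝ) : ℂ := ∏ j, S θ N (t + a j)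

/-- the diagonal sum: `∑ ∏ v_j^{-1/2-i a_j} w_j^{-1/2+i a'_j}` over the `v, w ∈ [1,N]^k` with `∏ v = ∏ w` -/
noncomputable def dg {k : ℕ} (a a' : Fin k → ℝ) (N : ℕ) : ℂ :=
  ∑ m ∈ Icc 1 (N ^ k), cf a N m * (starRingEnd ℂ) (cf a' N m) / m

/-- the error term before integration -/
noncomputable def EE {k : ℕ} (a a' : Fin k → ℝ) (θ : ℕ → ℝ) (N : ℕ) (t : ℝ) : ℂ :=
  PS a θ N t * (starRingEnd ℂ) (PS a' θ N t) - dg a a' N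

/-- `∑ c_m d_n c_{m'} d_{n'} W(m,n)` over the quadruples `m n' = m' n`, `m ≠ n` in `[1,M]` -/
noncomputable def QW (W : ℕ → ℕ → ℝ) (c d : ℕ → ℝ) (M : ℕ) : ℝ :=
  ∑ q ∈ quads M, c q.1.1 * d q.1.2 * (c q.2.1 * d q.2.2) * W q.1.1 q.1.2

/-- harmonic sum -/
noncomputable def HH (M : ℕ) : ℝ := ∑ g ∈ Icc 1 M, 1 / (g : ℝ)

/-- `∑_{N₁ < n ≤ N₂} 1/n` -/
noncomputable def HI (N₁ N₂ : ℕ) : ℝ := ∑ n ∈ Ioc N₁ N₂, 1 / (n : ℝ)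

/-- weights: nonnegative, depending on the ratio only, with row sums `∑_{s ≤ M, s ≠ r} W(r,s)/s ≤ L` -/
def Wt (W : ℕ → ℕ → ℝ) (M : ℕ) (L : ℝ) : Prop :=
  (∀ m n, 0 ≤ W m n) ∧ (∀ g r s : ℕ, 1 ≤ g → 1 ≤ r → 1 ≤ s → W (g * r) (g * s) = W r s) ∧
    ∀ r ∈ Icc 1 M, ∑ s ∈ (Icc 1 M).filter (fun s => s ≠ r), W r s / (s : ℝ) ≤ L

/-- the logarithmic weight -/
noncomputable def Wl (m n : ℕ) : ℝ := 1 / |Real.log m - Real.log n|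

/-- EXPN (35 min, Deps: MUL). As RT/PW.lean. Expand the product over `v ∈ [1,N]^k` (`Finset.prod_univ_sum`); the summand is
`f(m) m^{-1/2} e^{-it log m} ∏ v_j^{-i a_j}`, `m = ∏ v`. Group by `m ∈ [1, N^k]`; `cf a N m = 0` for `m > N^k`, and for
`N = 0` everything is `0`. The last part is the same remark for `dg`. -/
def S_EXPN : Prop := ∀ (k : ℕ) (a a' : Fin k → ℝ) (N M : ℕ), 1 ≤ k → N ^ k ≤ M →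
  (∀ (θ : ℕ → ℝ) (t : ℝ), PS a θ N t = DC θ (fun m => cf a N m / (Real.sqrt m : ℂ)) M t) ∧
  dg a a' N = ip (fun m => cf a N m / (Real.sqrt m : ℂ)) (fun m => cf a' N m / (Real.sqrt m : ℂ)) M

/-- CFB (30 min, Deps: DIV). `|v^{-ia}| = 1`, so the norms are at most the number `b k N₂ m` of the `v ∈ [1,N₂]^k` with product
`m`. A `v` in `[1,N₂]^k` but not in `[1,N₁]^k` has a coordinate in `(N₁,N₂]`, which divides `m`. -/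
def S_CFB : Prop := ∀ k : ℕ,
  (∀ ε : ℝ, 0 < ε → ∃ C : ℝ, 0 < C ∧ ∀ (a : Fin k → ℝ) (N₁ N₂ m : ℕ), N₁ ≤ N₂ → 1 ≤ m →
    ‖cf a N₂ m - cf a N₁ m‖ ≤ C * (m : ℝ) ^ ε ∧ ‖cf a N₂ m‖ ≤ C * (m : ℝ) ^ ε) ∧
  ∀ (a : Fin k → ℝ) (N₁ N₂ m : ℕ), N₁ ≤ N₂ → 1 ≤ m → (¬ ∃ n ∈ Ioc N₁ N₂, n ∣ m) → cf a N₂ m = cf a N₁ m

/-- HAR (10 min, no Deps). `HH M ≤ 1 + log M` and `1 + k log R ≤ C R^ε`. Row sums: for `s > r`, `(1/log(s/r))/s ≤ 1/(s-r)`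
(`log x ≥ 1 - 1/x`); for `s < r`, `(1/log(r/s))/s ≤ r/(s(r-s)) = 1/s + 1/(r-s)`. (So this is 25 min with LOGW.) -/
def S_HAR : Prop := ∀ (k : ℕ) (ε : ℝ), 0 < ε → ∃ C : ℝ, 0 < C ∧ ∀ R : ℕ, 1 ≤ R → HH (R ^ k) ≤ C * (R : ℝ) ^ ε

/-- LOGW (25 min, no Deps). See HAR for the row sums of `Wl`. For the weight `1` the row sum is at most `HH M`. -/
def S_LOGW : Prop := ∀ M : ℕ, Wt Wl M (3 * HH M) ∧ Wt (fun _ _ => 1) M (HH M)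

/-- UB (25 min, Deps: DIV). The number of divisors of `m` is `(Nat.finMulAntidiag 2 m).card ≤ C m^ε` (or any divisor bound
of the pool); `∑_{m ≤ M, some n ∈ (N₁,N₂] divides m} 1/m ≤ ∑_n ∑_{l ≤ M} 1/(nl)`, `HH M ≤ 1 + log M ≤ C M^ε`. -/
def S_UB : Prop := ∀ ε : ℝ, 0 < ε → ∃ C : ℝ, 0 < C ∧ ∀ N₁ N₂ M : ℕ, N₁ ≤ N₂ → 1 ≤ M →
  ∑ m ∈ (Icc 1 M).filter (fun m => ∃ n ∈ Ioc N₁ N₂, n ∣ m), (m.divisors.card : ℝ) / m ≤ C * (M : ℝ) ^ ε * HI N₁ N₂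

/-- VARC (45 min, Deps: MUL, OR, KAP). As RT/VAR1.lean. Put `κ(m,n) = ∫_u^v e^{-it(log m - log n)} dt`, so
`|κ(m,n)| ≤ min (v-u) (2/|log m - log n|)`, `|κ|² ≤ 2 (v-u) Wl m n` for `m ≠ n`. The integral is
`Z = ∑_{m ≠ n} c_m conj d_n f(m) conj f(n) κ(m,n)`, and
`E |Z|² = ∑ c_m conj d_n conj c_{m'} d_{n'} κ(m,n) conj κ(m',n') E[f(m n') conj f(m' n)]`; only `m n' = m' n` survives and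
then `log m - log n = log m' - log n'`. -/
def S_VARC : Prop := ∀ (c d : ℕ → ℂ) (M : ℕ) (u v : ℝ), u ≤ v →
  ∫ θ, ‖∫ t in u..v, (DC θ c M t * (starRingEnd ℂ) (DC θ d M t) - ip c d M)‖ ^ 2 ∂P ≤
    2 * (v - u) * QW Wl (fun m => ‖c m‖) (fun m => ‖d m‖) M

/-- VARPT (35 min, Deps: MUL, OR). The same without integration over `t`:
`Z = ∑_{m ≠ n} c_m conj d_n f(m) conj f(n) e^{-it(log m - log n)}`. -/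
def S_VARPT : Prop := ∀ (c d : ℕ → ℂ) (M : ℕ) (t : ℝ),
  ∫ θ, ‖DC θ c M t * (starRingEnd ℂ) (DC θ d M t) - ip c d M‖ ^ 2 ∂P ≤
    QW (fun _ _ => 1) (fun m => ‖c m‖) (fun m => ‖d m‖) M

/-- QB (40 min, no Deps). As RT/QUAD.lean: `(m,n,m',n') ↦ (g,g',(r,s))`, `g = gcd(m,n)`, `g' = gcd(m',n')`, `m = g r`, `n = g s`,
`m' = g' r`, `n' = g' s` is injective on the quadruples, the summand is `≤ K⁴ 1[g r ∈ U] W(r,s)/(g g' r s)`, `r ≠ s`. Sum over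
`g'`: `HH M`; over `s`: `L`; over `(g, r)`: `∑_{m ∈ U} d(m)/m`. -/
def S_QB : Prop := ∀ (W : ℕ → ℕ → ℝ) (M : ℕ) (U : Finset ℕ) (K L : ℝ) (c d : ℕ → ℝ), 0 ≤ K → 0 ≤ L → Wt W M L → U ⊆ Icc 1 M →
  (∀ m, 0 ≤ c m ∧ 0 ≤ d m) → (∀ m ∈ Icc 1 M, c m ≤ K / Real.sqrt m ∧ d m ≤ K / Real.sqrt m) →
  (∀ m ∈ Icc 1 M, m ∉ U → c m = 0) →
  QW W c d M ≤ K ^ 4 * L * HH M * ∑ m ∈ U, (m.divisors.card : ℝ) / m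

/-- QINC (30 min, Deps: CFB, UB, QB, HAR). QB with `M = R^k`, `U` = the `m` with a divisor in `(N₁,N₂]`,
`K = C (R^k)^{ε'}`. -/
def S_QINC : Prop := ∀ (k : ℕ) (ε : ℝ), 1 ≤ k → 0 < ε → ∃ C : ℝ, 0 < C ∧ ∀ (a a' : Fin k → ℝ) (N₁ N₂ N₃ R : ℕ),
  N₁ ≤ N₂ → N₂ ≤ R → N₃ ≤ R → 1 ≤ R → ∀ (W : ℕ → ℕ → ℝ) (L : ℝ), 0 ≤ L → Wt W (R ^ k) L →
  QW W (fun m => ‖cf a N₂ m / (Real.sqrt m : ℂ) - cf a N₁ m / (Real.sqrt m : ℂ)‖)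
    (fun m => ‖cf a' N₃ m / (Real.sqrt m : ℂ)‖) (R ^ k) ≤ C * L * (R : ℝ) ^ ε * HI N₁ N₂

/-- MEAS (30 min, Deps: MUL). `PS` is a finite product of finite sums; `|f(n)| = 1`; parametric integrals of continuous
functions are continuous (see RT/JM.lean). -/
def S_MEAS : Prop := ∀ (k : ℕ) (a a' : Fin k → ℝ) (N₁ N₂ : ℕ),
  Continuous (fun q : (ℕ → ℝ) × ℝ => EE a a' q.1 N₁ q.2) ∧
  (∃ B : ℝ, 0 ≤ B ∧ ∀ (θ : ℕ → ℝ) (t : ℝ), ‖EE a a' θ N₁ t‖ ≤ B) ∧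
  (∀ u v : ℝ, Continuous (fun θ : ℕ → ℝ => ∫ t in u..v, (EE a a' θ N₂ t - EE a a' θ N₁ t)) ∧
    Continuous (fun θ : ℕ → ℝ => ∫ t in u..v, ‖EE a a' θ N₂ t - EE a a' θ N₁ t‖)) ∧
  (1 ≤ k → ∀ (θ : ℕ → ℝ) (t : ℝ), EE a a' θ 0 t = 0)

/-- VINC (40 min, Deps: EXPN, VARC, QINC, LOGW, HAR, MUL, MEAS). With `M = R^k`, `c_i = cf a N_i/√m`, `d_i = cf a' N_i/√m`:
`EE(N₂) - EE(N₁) = [DC(c₂-c₁) conj DC(d₂) - ip(c₂-c₁,d₂)] + [DC(c₁) conj DC(d₂-d₁) - ip(c₁,d₂-d₁)]`; `|x+y|² ≤ 2|x|²+2|y|²`. First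
part: VARC and QINC with `W = Wl`, `L = 3 HH (R^k)`; the second is the conjugate of `DC(d₂-d₁) conj DC(c₁) - ip(d₂-d₁,c₁)`. -/
def S_VINC : Prop := ∀ (k : ℕ) (a a' : Fin k → ℝ) (ε : ℝ), 1 ≤ k → 0 < ε → ∃ C : ℝ, 0 < C ∧ ∀ (N₁ N₂ R : ℕ) (u v : ℝ),
  N₁ ≤ N₂ → N₂ ≤ R → 1 ≤ R → u ≤ v →
  ∫ θ, ‖∫ t in u..v, (EE a a' θ N₂ t - EE a a' θ N₁ t)‖ ^ 2 ∂P ≤ C * (v - u) * (R : ℝ) ^ ε * HI N₁ N₂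

/-- VPT (35 min, Deps: EXPN, VARPT, QINC, LOGW, HAR, MUL, MEAS). The same pointwise, `W = 1`, `L = HH (R^k)`. -/
def S_VPT : Prop := ∀ (k : ℕ) (a a' : Fin k → ℝ) (ε : ℝ), 1 ≤ k → 0 < ε → ∃ C : ℝ, 0 < C ∧ ∀ (N₁ N₂ R : ℕ) (t : ℝ),
  N₁ ≤ N₂ → N₂ ≤ R → 1 ≤ R →
  ∫ θ, ‖EE a a' θ N₂ t - EE a a' θ N₁ t‖ ^ 2 ∂P ≤ C * (R : ℝ) ^ ε * HI N₁ N₂

/-- EUN (30 min, Deps: VPT, MEAS). `(∫_u^{u+1} g)² ≤ ∫_u^{u+1} g²` and Fubini (bounded continuous integrand). -/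
def S_EUN : Prop := ∀ (k : ℕ) (a a' : Fin k → ℝ) (ε : ℝ), 1 ≤ k → 0 < ε → ∃ C : ℝ, 0 < C ∧ ∀ (N₁ N₂ R : ℕ) (u : ℝ),
  N₁ ≤ N₂ → N₂ ≤ R → 1 ≤ R →
  ∫ θ, (∫ t in u..(u + 1), ‖EE a a' θ N₂ t - EE a a' θ N₁ t‖) ^ 2 ∂P ≤ C * (R : ℝ) ^ ε * HI N₁ N₂

/-- CH1 (30 min, no Deps). Let `N_i = (N / 2^i) * 2^i`, so `N_0 = N`, `N_{m+1} = 0`. `ρ(0,N) ≤ ∑_{i ≤ m} ρ(N_{i+1},N_i)`, and
`N_{i+1} = N_i` or `N_i = (l+1) 2^i`, `N_{i+1} = l 2^i` with `l < 2^{m-i}`. Cauchy-Schwarz for the `m+1` terms. -/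
def S_CH1 : Prop := ∀ ρ : ℕ → ℕ → ℝ, (∀ x y, 0 ≤ ρ x y) → (∀ x, ρ x x = 0) → (∀ x y z, ρ x z ≤ ρ x y + ρ y z) →
  ∀ m N : ℕ, N ≤ 2 ^ m → ρ 0 N ^ 2 ≤ ((m : ℝ) + 1) *
    ∑ i ∈ range (m + 1), ∑ l ∈ range (2 ^ (m - i)), ρ (l * 2 ^ i) ((l + 1) * 2 ^ i) ^ 2

/-- CH2 (25 min, Deps: CH1). CH1 for `ρ(x,y) = ‖G y T - G x T‖`, and then for every pair `x = l 2^i`, `y = (l+1) 2^i` CH1 for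
`ρ(T,T') = ‖(G y T' - G x T') - (G y T - G x T)‖`. -/
def S_CH2 : Prop := ∀ (G : ℕ → ℕ → ℂ) (m m' : ℕ), (∀ T, G 0 T = 0) → (∀ N, G N 0 = 0) → ∀ N T : ℕ, N ≤ 2 ^ m → T ≤ 2 ^ m' →
  ‖G N T‖ ^ 2 ≤ ((m : ℝ) + 1) * (((m' : ℝ) + 1) *
    ∑ i ∈ range (m + 1), ∑ l ∈ range (2 ^ (m - i)), ∑ i' ∈ range (m' + 1), ∑ l' ∈ range (2 ^ (m' - i')),
      ‖(G ((l + 1) * 2 ^ i) ((l' + 1) * 2 ^ i') - G (l * 2 ^ i) ((l' + 1) * 2 ^ i')) -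
        (G ((l + 1) * 2 ^ i) (l' * 2 ^ i') - G (l * 2 ^ i) (l' * 2 ^ i'))‖ ^ 2)

/-- LEV (20 min, no Deps). For `i ≤ m` the intervals `(l 2^i, (l+1) 2^i]`, `l < 2^{m-i}`, partition `(0, 2^m]`; so the double sum
is `(m+1) HH(2^m)`, and `(m+1)³ (1 + m log 2) ≤ C 2^{mε}`. -/
def S_LEV : Prop := (∀ m : ℕ, ∑ i ∈ range (m + 1), ∑ l ∈ range (2 ^ (m - i)), HI (l * 2 ^ i) ((l + 1) * 2 ^ i) =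
    ((m : ℝ) + 1) * HH (2 ^ m)) ∧
  ∀ ε : ℝ, 0 < ε → ∃ C : ℝ, 0 < C ∧ ∀ m : ℕ, ((m : ℝ) + 1) ^ 3 * HH (2 ^ m) ≤ C * ((2 : ℝ) ^ m) ^ ε

/-- YB (40 min, Deps: CH2, VINC, MEAS, LEV). CH2 for `G N T = ∫_0^T EE(N)`; `Y` = the right side of CH2; its integral by VINC
(`R = 2^m`), summed: `(m+1)(m'+1) ∑ C 2^{i'} 2^{mε'} HI = (m+1)² (m'+1)² C 2^{m'} 2^{mε'} HH(2^m)`. -/
def S_YB : Prop := ∀ (k : ℕ) (a a' : Fin k → ℝ) (ε : ℝ), 1 ≤ k → 0 < ε → ∃ C : ℝ, 0 < C ∧ ∀ m m' : ℕ,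
  ∃ Y : (ℕ → ℝ) → ℝ, Integrable Y P ∧ (∀ θ, 0 ≤ Y θ) ∧
    ∫ θ, Y θ ∂P ≤ C * ((2 : ℝ) ^ m) ^ ε * ((2 : ℝ) ^ m') ^ (1 + ε) ∧
    ∀ (θ : ℕ → ℝ) (N T : ℕ), N ≤ 2 ^ m → T ≤ 2 ^ m' → ‖∫ t in (0:ℝ)..(T : ℝ), EE a a' θ N t‖ ^ 2 ≤ Y θ

/-- ZB (35 min, Deps: CH1, EUN, MEAS, LEV). CH1 for `ρ(x,y) = ∫_n^{n+1} ‖EE(y) - EE(x)‖ dt`, summed over `n < 2^m'`. -/
def S_ZB : Prop := ∀ (k : ℕ) (a a' : Fin k → ℝ) (ε : ℝ), 1 ≤ k → 0 < ε → ∃ C : ℝ, 0 < C ∧ ∀ m m' : ℕ,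
  ∃ Z : (ℕ → ℝ) → ℝ, Integrable Z P ∧ (∀ θ, 0 ≤ Z θ) ∧
    ∫ θ, Z θ ∂P ≤ C * ((2 : ℝ) ^ m) ^ ε * ((2 : ℝ) ^ m') ^ (1 + ε) ∧
    ∀ (θ : ℕ → ℝ) (N n : ℕ), N ≤ 2 ^ m → n < 2 ^ m' → (∫ t in (n : ℝ)..((n : ℝ) + 1), ‖EE a a' θ N t‖) ^ 2 ≤ Z θ

/-- BC (20 min, no Deps). `∑_j E Y_j / 2^{j(1+2ε)} < ∞`, so almost surely `∑_j Y_j / 2^{j(1+2ε)} < ∞` and the terms are bounded
(see RT/AE.lean). -/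
def S_BC : Prop := ∀ (Y : ℕ → (ℕ → ℝ) → ℝ) (C ε : ℝ), 0 < ε → (∀ j, Integrable (Y j) P ∧ ∀ θ, 0 ≤ Y j θ) →
  (∀ j : ℕ, ∫ θ, Y j θ ∂P ≤ C * ((2 : ℝ) ^ j) ^ (1 + ε)) →
  ∀ᵐ θ ∂P, ∃ K : ℝ, 0 < K ∧ ∀ j : ℕ, Y j θ ≤ K * ((2 : ℝ) ^ j) ^ (1 + 2 * ε)

/-- FIN1 (40 min, Deps: YB, ZB, BC, MEAS). `m = B j`, `m' = j`, `ε' = ε/(B+1)`: `E Y ≤ C (2^j)^{1+ε}`; BC. For `2^{j-1} ≤ T < 2^j`,
`N ≤ T^B ≤ 2^{Bj}`: `∫_0^T = ∫_0^{⌊T⌋} + ∫_{⌊T⌋}^T`, the second is at most `∫_{⌊T⌋}^{⌊T⌋+1} ‖EE‖`; `2^j ≤ 2T`. -/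
def S_FIN1 : Prop := ∀ (k : ℕ) (a a' : Fin k → ℝ), 1 ≤ k → ∀ (B : ℕ) (ε : ℝ), 0 < ε →
  ∀ᵐ θ ∂P, ∃ K : ℝ, 0 < K ∧ ∀ (T : ℝ) (N : ℕ), 1 ≤ T → (N : ℝ) ≤ T ^ B →
    ‖∫ t in (0:ℝ)..T, EE a a' θ N t‖ ≤ K * T ^ (1 / 2 + ε)

/-- MOM (30 min, Deps: FIN1, LIM, MEAS). `cf 0 N m = b k N m`, so `dg 0 0 N = A k N`, and `PS 0 conj PS 0 = ‖S‖^{2k}`.
`A k N ~ gam k (log N)^{k²}` is LIM. All `B ∈ ℕ` and `ε = 1/n` (countable). -/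
def S_MOM : Prop := ∀ k : ℕ, 1 ≤ k → (∀ N : ℕ, dg (0 : Fin k → ℝ) 0 N = A k N) ∧
  ∀ᵐ θ ∂P, ∀ (B : ℕ) (ε : ℝ), 0 < ε → ∃ (N₀ : ℕ) (T₀ : ℝ), ∀ (T : ℝ) (N : ℕ), T₀ ≤ T → N₀ ≤ N → (N : ℝ) ≤ T ^ B →
    |1 / T * (∫ t in (0:ℝ)..T, ‖S θ N t‖ ^ (2 * k)) - gam k * Real.log N ^ (k ^ 2)| ≤ ε * Real.log N ^ (k ^ 2)

end Pool.Agent.T2H58.ST
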