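import Pool.Agent.T2H58.ST.Stm

/-!
# Project ST, part 2 (helper58): one null set for ALL shift vectors, different lengths (MP_fa2474_nt)

TARGET: for almost every `θ`, for all `k ≥ 1`, `B`, `ε > 0`, uniformly for all real `T ≥ 1`, all lengths `N_j ≤ T^B` (one for each of
the `2k` factors) and ALL real shifts: the shifted moment is `T diag + O(∏(1+|a_j|) T^{1/2+ε})`.

Idea: `v : Fin k ⊕ Fin k → ℕ` is a tuple of `2k` natural numbers; `ev θ v t` is the term of `v` in the product, minus the diagonal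
term. For every finite set `U` of tuples `FB θ U t = ∑_{v ∈ U} ev θ v t`. The second moment of `∫ FB` over `U`, summed over DISJOINT
sets `U`, is bounded by the sum over all pairs of tuples. Dyadic boxes; Abel summation in all variables for the shifts.

Every package is INDEPENDENT (Deps are hypotheses). File `Pool/Agent/T2H58/ST/<ID>.lean`: `import Pool.Agent.T2H58.ST.Stm2`,
`namespace Pool.Agent.T2H58.ST`, `theorem p<ID> (h : S_dep) .. : S_<ID>`; own lemmas in namespace `<ID>`.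
-/

set_option autoImplicit false

open MeasureTheory Filter Topology Finset

namespace Pool.Agent.T2H58.ST

open Pool.Agent.T2H98.RT (P tw S A quads gam S_MUL S_OR S_KAP S_DIV)

/-- `2k`-tuples -/
abbrev Tu (k : ℕ) : Type := Fin k ⊕ Fin k → ℕ

/-- product of the left half -/
def pl {k : ℕ} (v : Tu k) : ℕ := ∏ j, v (Sum.inl j)

/-- product of the right half -/
def pr {k : ℕ} (v : Tu k) : ℕ := ∏ j, v (Sum.inr j)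

/-- `f(m) conj f(n) (mn)^{-1/2} e^{-it(log m - log n)}` for `m = pl v ≠ n = pr v`, and `0` for `m = n` -/
noncomputable def ev {k : ℕ} (θ : ℕ → ℝ) (v : Tu k) (t : ℝ) : ℂ :=
  if pl v = pr v then 0 else
    tw θ (pl v) * (starRingEnd ℂ) (tw θ (pr v)) / (Real.sqrt ((pl v : ℝ) * pr v) : ℂ) *
      Complex.exp (-(t * ((Real.log (pl v) - Real.log (pr v) : ℝ) : ℂ) * Complex.I))

/-- `∑_{v ∈ U} ev θ v t` -/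
noncomputable def FB {k : ℕ} (θ : ℕ → ℝ) (U : Finset (Tu k)) (t : ℝ) : ℂ := ∑ v ∈ U, ev θ v t

/-- the box `∏_j (x_j, y_j]` -/
def box {k : ℕ} (x y : Tu k) : Finset (Tu k) := Fintype.piFinset fun j => Ioc (x j) (y j)

/-- the cube `[1, R]^{2k}` -/
def cube (k R : ℕ) : Finset (Tu k) := Fintype.piFinset fun _ => Icc 1 R

open Classical in
/-- `∑ W(m,n)/√(m n m' n')` over the pairs `v, v' ∈ U` with `m ≠ n`, `m n' = m' n` (`m = pl v`, `n = pr v`, ...) -/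
noncomputable def DW {k : ℕ} (W : ℕ → ℕ → ℝ) (U : Finset (Tu k)) : ℝ :=
  ∑ v ∈ U, ∑ v' ∈ U, if pl v ≠ pr v ∧ pl v * pr v' = pl v' * pr v then
    W (pl v) (pr v) / Real.sqrt ((pl v : ℝ) * pr v * ((pl v' : ℝ) * pr v')) else 0

/-- ME2 (20 min, Deps: MUL). Finite sums of `exp`s of continuous functions; `|ev| ≤ 1`. -/
def S_ME2 : Prop := ∀ (k : ℕ) (U : Finset (Tu k)),
  (∀ θ : ℕ → ℝ, Continuous (fun t : ℝ => FB θ U t)) ∧ (∀ t : ℝ, Continuous (fun θ : ℕ → ℝ => FB θ U t)) ∧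
  (∀ (θ : ℕ → ℝ) (t : ℝ), ‖FB θ U t‖ ≤ U.card) ∧
  ∀ u v : ℝ, Continuous (fun θ : ℕ → ℝ => ∫ t in u..v, FB θ U t) ∧
    Continuous (fun θ : ℕ → ℝ => ∫ t in u..v, ‖FB θ U t‖)

/-- V1 (45 min, Deps: MUL, OR, KAP, ME2). With `κ(m,n) = ∫_u^v e^{-it(log m - log n)} dt`, `|κ|² ≤ 2 (v-u) Wl m n` (`m ≠ n`), the
integral is `∑_{w ∈ U, m ≠ n} f(m) conj f(n) κ(m,n)/√(mn)` and
`E |.|² = ∑_{w,w'} κ(m,n) conj κ(m',n') E[f(m n') conj f(m' n)]/√(m n m' n')`; only `m n' = m' n` survives (then the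
differences of the logarithms agree). See ST/VARC.lean. -/
def S_V1 : Prop := ∀ (k : ℕ) (U : Finset (Tu k)) (u v : ℝ), (∀ w ∈ U, ∀ j, 1 ≤ w j) → u ≤ v →
  ∫ θ, ‖∫ t in u..v, FB θ U t‖ ^ 2 ∂P ≤ 2 * (v - u) * DW Wl U

/-- V1P (35 min, Deps: MUL, OR). The same pointwise; see ST/VARPT.lean. -/
def S_V1P : Prop := ∀ (k : ℕ) (U : Finset (Tu k)) (t : ℝ), (∀ w ∈ U, ∀ j, 1 ≤ w j) →
  ∫ θ, ‖FB θ U t‖ ^ 2 ∂P ≤ DW (fun _ _ => 1) U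

/-- V2 (35 min, Deps: QINC). Group the tuples by `(m, n) = (pl v, pr v)`: the number of `v ∈ [1,R]^{2k}` with given `(m,n)` is
`cf 0 R m * cf 0 R n` (`v^{-0} = 1`), so `DW W (cube k R) = QW W (|cf 0 R m|/√m) (|cf 0 R n|/√n) (R^k)`; QINC with
`N₁ = 0` (`cf 0 0 m = 0` for `k ≥ 1`), `N₂ = N₃ = R`; `HI 0 R = HH R ≤ HH (R^k) ≤ C R^ε` (HAR). -/
def S_V2 : Prop := ∀ (k : ℕ) (ε : ℝ), 1 ≤ k → 0 < ε → ∃ C : ℝ, 0 < C ∧ ∀ R : ℕ, 1 ≤ R → ∀ (W : ℕ → ℕ → ℝ) (L : ℝ),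
  0 ≤ L → Wt W (R ^ k) L → DW W (cube k R) ≤ C * L * (R : ℝ) ^ ε

/-- SUM (20 min, Deps: V1, V1P, V2, LOGW, HAR). For disjoint `U b ⊆ cube k R`: `∑_b DW W (U b) ≤ DW W (cube k R)` (each pair `(v, v')`
lies in at most one `U b × U b`); `L = 3 HH (R^k)` or `HH (R^k)`, `≤ C R^ε`. -/
def S_SUM : Prop := ∀ (k : ℕ) (ε : ℝ), 1 ≤ k → 0 < ε → ∃ C : ℝ, 0 < C ∧ ∀ (R : ℕ) (β : Finset (Tu k)) (U : Tu k → Finset (Tu k)),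
  1 ≤ R → (∀ b ∈ β, U b ⊆ cube k R) → (∀ b ∈ β, ∀ b' ∈ β, b ≠ b' → Disjoint (U b) (U b')) →
  (∀ u v : ℝ, u ≤ v → ∑ b ∈ β, ∫ θ, ‖∫ t in u..v, FB θ (U b) t‖ ^ 2 ∂P ≤ C * (v - u) * (R : ℝ) ^ ε) ∧
  ∀ t : ℝ, ∑ b ∈ β, ∫ θ, ‖FB θ (U b) t‖ ^ 2 ∂P ≤ C * (R : ℝ) ^ ε

/-- EU2 (30 min, Deps: SUM, ME2). `(∫_u^{u+1} g)² ≤ ∫_u^{u+1} g²` and Fubini; see ST/EUN.lean. -/
def S_EU2 : Prop := ∀ (k : ℕ) (ε : ℝ), 1 ≤ k → 0 < ε → ∃ C : ℝ, 0 < C ∧ ∀ (R : ℕ) (β : Finset (Tu k)) (U : Tu k → Finset (Tu k)),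
  1 ≤ R → (∀ b ∈ β, U b ⊆ cube k R) → (∀ b ∈ β, ∀ b' ∈ β, b ≠ b' → Disjoint (U b) (U b')) →
  ∀ u : ℝ, ∑ b ∈ β, ∫ θ, (∫ t in u..(u + 1), ‖FB θ (U b) t‖) ^ 2 ∂P ≤ C * (R : ℝ) ^ ε

/-- the dyadic box with the levels `i` and the positions `l` -/
def dy {k : ℕ} (i l : Tu k) : Finset (Tu k) := box (fun j => l j * 2 ^ i j) (fun j => (l j + 1) * 2 ^ i j)

/-- the level tuples and the positions -/
def lev (k m : ℕ) : Finset (Tu k) := Fintype.piFinset fun _ => range (m + 1)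
def pos {k : ℕ} (m : ℕ) (i : Tu k) : Finset (Tu k) := Fintype.piFinset fun j => range (2 ^ (m - i j))

/-- DIS (20 min, no Deps). `(l+1) 2^i ≤ 2^m`; different `l j` give disjoint intervals. -/
def S_DIS : Prop := ∀ (k m : ℕ) (i : Tu k), i ∈ lev k m →
  (∀ l ∈ pos m i, dy i l ⊆ cube k (2 ^ m)) ∧ ∀ l ∈ pos m i, ∀ l' ∈ pos m i, l ≠ l' → Disjoint (dy i l) (dy i l')

/-- CHB (40 min, no Deps). For one variable: `(0, N] = ⊔_{i ≤ m} D_i`, `D_i = (N_{i+1}, N_i]`, `N_i = (N / 2^i) 2^i`, and `D_i` is empty or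
`(l 2^i, (l+1) 2^i]`, `l < 2^{m-i}` (see ST/CH1.lean). So the box is the disjoint union over the level tuples `i` of the
`∏_j D_{i_j}(N_j)`, each empty or `dy i l`. Then `ρ(box) ≤ ∑_i ρ(..)` (finite subadditivity), Cauchy-Schwarz with
`(m+1)^{2k}` terms, `single_le_sum` over `l`. -/
def S_CHB : Prop := ∀ (k m : ℕ) (ρ : Finset (Tu k) → ℝ), (∀ U, 0 ≤ ρ U) → ρ ∅ = 0 →
  (∀ U U', Disjoint U U' → ρ (U ∪ U') ≤ ρ U + ρ U') → ∀ N : Tu k, (∀ j, N j ≤ 2 ^ m) →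
  ρ (box 0 N) ^ 2 ≤ ((m : ℝ) + 1) ^ (2 * k) * ∑ i ∈ lev k m, ∑ l ∈ pos m i, ρ (dy i l) ^ 2

/-- YB2 (40 min, Deps: CHB, CH1, SUM, ME2, DIS). As ST/YB.lean: CHB for `ρ U = ‖∫_0^T FB U‖`, then for each `(i, l)` CH1 for
`ρ(x,y) = ‖∫_x^y FB (dy i l)‖`. `E Y ≤ (m+1)^{2k} (m'+1) ∑_i ∑_{i'} ∑_{l'} C 2^{i'} (2^m)^{ε'}`
`= (m+1)^{4k} (m'+1)² C 2^{m'} (2^m)^{ε'}`, and `(m+1)^{4k} ≤ C (2^m)^{ε'}`. -/
def S_YB2 : Prop := ∀ (k : ℕ) (ε : ℝ), 1 ≤ k → 0 < ε → ∃ C : ℝ, 0 < C ∧ ∀ m m' : ℕ,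
  ∃ Y : (ℕ → ℝ) → ℝ, Integrable Y P ∧ (∀ θ, 0 ≤ Y θ) ∧
    ∫ θ, Y θ ∂P ≤ C * ((2 : ℝ) ^ m) ^ ε * ((2 : ℝ) ^ m') ^ (1 + ε) ∧
    ∀ (θ : ℕ → ℝ) (N : Tu k) (T : ℕ), (∀ j, N j ≤ 2 ^ m) → T ≤ 2 ^ m' → ‖∫ t in (0:ℝ)..(T : ℝ), FB θ (box 0 N) t‖ ^ 2 ≤ Y θ

/-- ZB2 (35 min, Deps: CHB, EU2, ME2, DIS). As ST/ZB.lean: CHB for `ρ U = ∫_n^{n+1} ‖FB U‖`, summed over `n < 2^m'`. -/
def S_ZB2 : Prop := ∀ (k : ℕ) (ε : ℝ), 1 ≤ k → 0 < ε → ∃ C : ℝ, 0 < C ∧ ∀ m m' : ℕ,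
  ∃ Z : (ℕ → ℝ) → ℝ, Integrable Z P ∧ (∀ θ, 0 ≤ Z θ) ∧
    ∫ θ, Z θ ∂P ≤ C * ((2 : ℝ) ^ m) ^ ε * ((2 : ℝ) ^ m') ^ (1 + ε) ∧
    ∀ (θ : ℕ → ℝ) (N : Tu k) (n : ℕ), (∀ j, N j ≤ 2 ^ m) → n < 2 ^ m' →
      (∫ t in (n : ℝ)..((n : ℝ) + 1), ‖FB θ (box 0 N) t‖) ^ 2 ≤ Z θ

/-- FIN2 (35 min, Deps: YB2, ZB2, BC, ME2). As ST/FIN1.lean, then all `B` and `ε = 1/n` after the null set. -/
def S_FIN2 : Prop := ∀ k : ℕ, 1 ≤ k → ∀ᵐ θ ∂P, ∀ (B : ℕ) (ε : ℝ), 0 < ε → ∃ K : ℝ, 0 < K ∧ ∀ (T : ℝ) (N : Tu k), 1 ≤ T →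
  (∀ j, (N j : ℝ) ≤ T ^ B) → ‖∫ t in (0:ℝ)..T, FB θ (box 0 N) t‖ ≤ K * T ^ (1 / 2 + ε)

/-- ABEL (35 min, no Deps). Put `u_j(N_j) = w_j(N_j)`, `u_j(n) = w_j(n) - w_j(n+1)` for `1 ≤ n < N_j`, so that
`w_j(n) = ∑_{n ≤ n' ≤ N_j} u_j(n')` and `∏_j w_j(v_j) = ∑_{v' ∈ box, v ≤ v'} ∏_j u_j(v'_j)` (`Finset.prod_univ_sum`). Exchange:
`∑_v ∏ w_j(v_j) g(v) = ∑_{v' ∈ box 0 N} ∏_j u_j(v'_j) ∑_{v ∈ box 0 v'} g(v)`. -/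
def S_ABEL : Prop := ∀ (k : ℕ) (w : Fin k ⊕ Fin k → ℕ → ℂ) (g : Tu k → ℂ) (N : Tu k) (M : ℝ), (∀ j, 1 ≤ N j) →
  (∀ v' : Tu k, (∀ j, v' j ≤ N j) → ‖∑ v ∈ box 0 v', g v‖ ≤ M) →
  ‖∑ v ∈ box 0 N, (∏ j, w j (v j)) * g v‖ ≤ (∏ j, (‖w j (N j)‖ + ∑ n ∈ Ico 1 (N j), ‖w j (n + 1) - w j n‖)) * M

/-- WT (20 min, no Deps). `|n^{ic} - (n+1)^{ic}| ≤ |c| log(1+1/n) ≤ |c|/n`, `|e^{ix} - e^{iy}| ≤ |x - y|`. -/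
def S_WT : Prop := ∀ (c : ℝ) (N : ℕ), 1 ≤ N →
  ‖(N : ℂ) ^ ((c : ℂ) * Complex.I)‖ + ∑ n ∈ Ico 1 N, ‖((n + 1 : ℕ) : ℂ) ^ ((c : ℂ) * Complex.I) - (n : ℂ) ^ ((c : ℂ) * Complex.I)‖ ≤
    1 + |c| * HH N

/-- the weight `∏_j v_j^{-i a_j}` (left), `∏_j v_j^{+i a_j}` (right) -/
noncomputable def wt {k : ℕ} (a : Fin k ⊕ Fin k → ℝ) (j : Fin k ⊕ Fin k) (n : ℕ) : ℂ :=
  (n : ℂ) ^ (((Sum.elim (fun i => -a (Sum.inl i)) (fun i => a (Sum.inr i)) j : ℝ) : ℂ) * Complex.I)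

/-- the diagonal sum -/
noncomputable def dgN {k : ℕ} (a : Fin k ⊕ Fin k → ℝ) (N : Tu k) : ℂ :=
  ∑ v ∈ (box 0 N).filter (fun v => pl v = pr v), (∏ j, wt a j (v j)) / (pl v : ℂ)

/-- the product with the lengths `N` and the shifts `a` -/
noncomputable def PN {k : ℕ} (a : Fin k ⊕ Fin k → ℝ) (θ : ℕ → ℝ) (N : Tu k) (t : ℝ) : ℂ :=
  (∏ j, S θ (N (Sum.inl j)) (t + a (Sum.inl j))) * (starRingEnd ℂ) (∏ j, S θ (N (Sum.inr j)) (t + a (Sum.inr j)))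

/-- EXPS (30 min, Deps: MUL). Multiply out (`Finset.prod_univ_sum`, `Fintype.piFinset` on `Fin k ⊕ Fin k`: `Fintype.prod_sum_type`): the
term of `v` is `∏ wt · f(pl v) conj f(pr v) (pl v · pr v)^{-1/2} e^{-it(log pl v - log pr v)}`, equal to `∏ wt / pl v` if
`pl v = pr v`. (`Icc 1 N = Ioc 0 N`; see ST/EXPN.lean.) -/
def S_EXPS : Prop := ∀ (k : ℕ) (a : Fin k ⊕ Fin k → ℝ) (θ : ℕ → ℝ) (N : Tu k) (t : ℝ),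
  PN a θ N t - dgN a N = ∑ v ∈ box 0 N, (∏ j, wt a j (v j)) * ev θ v t

/-- FINS (30 min, Deps: FIN2, ABEL, WT, EXPS, ME2, HAR). If some `N_j = 0` both sides are `0` (the box is empty). Else EXPS, ABEL with
`g v = ∫_0^T ev θ v t dt`, `M = K T^{1/2+ε'}` (FIN2 for `v' ≤ N`), WT: `∏ (1 + |a_j| HH N_j) ≤ ∏ (1+|a_j|) · (C T^{ε''})^{2k}`. -/
def S_FINS : Prop := ∀ᵐ θ ∂P, ∀ k : ℕ, 1 ≤ k → ∀ (B : ℕ) (ε : ℝ), 0 < ε → ∃ K : ℝ, 0 < K ∧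
  ∀ (T : ℝ) (N : Tu k) (a : Fin k ⊕ Fin k → ℝ), 1 ≤ T → (∀ j, (N j : ℝ) ≤ T ^ B) →
    ‖(∫ t in (0:ℝ)..T, PN a θ N t) - T * dgN a N‖ ≤ K * (∏ j, (1 + |a j|)) * T ^ (1 / 2 + ε)

end Pool.Agent.T2H58.ST
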