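import Pool.Agent.T2H58.ST.Stm2
import Pool.Agent.T2H58.ST.VARPT

/-! Project ST, package V1P -/

set_option autoImplicit false

open MeasureTheory Filter Topology Finset

namespace Pool.Agent.T2H58.ST

open Pool.Agent.T2H98.RT (P tw S A quads gam S_MUL S_OR S_KAP S_DIV)

namespace V1P

/-- the coefficient of the tuple -/
noncomputable def co {k : ℕ} (t : ℝ) (v : Tu k) : ℂ :=
  if pl v = pr v then 0 else
    (Real.sqrt ((pl v : ℝ) * pr v) : ℂ)⁻¹ *
      Complex.exp (-(t * ((Real.log (pl v) - Real.log (pr v) : ℝ) : ℂ) * Complex.I))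

lemma ev_eq {k : ℕ} (θ : ℕ → ℝ) (v : Tu k) (t : ℝ) :
    ev θ v t = co t v * VARPT.ff θ (pl v, pr v) := by
  unfold ev co VARPT.ff
  split_ifs with h
  · rw [zero_mul]
  · simp only
    rw [div_eq_mul_inv]
    ring

lemma co_norm {k : ℕ} (t : ℝ) (v : Tu k) :
    ‖co t v‖ = if pl v = pr v then 0 else 1 / Real.sqrt ((pl v : ℝ) * pr v) := by
  unfold co
  split_ifs with h
  · exact norm_zero
  · have h1 : ‖Complex.exp (-(t * ((Real.log (pl v) - Real.log (pr v) : ℝ) : ℂ) * Complex.I))‖ = 1 := by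
      have := Complex.norm_exp_ofReal_mul_I (-(t * (Real.log (pl v) - Real.log (pr v))))
      rw [← this]
      congr 2
      push_cast
      ring
    rw [norm_mul, h1, mul_one, norm_inv, Complex.norm_real, Real.norm_of_nonneg (Real.sqrt_nonneg _),
      one_div]

lemma expand {k : ℕ} (hM : S_MUL) (U : Finset (Tu k)) (t : ℝ) :
    ((∫ θ, ‖FB θ U t‖ ^ 2 ∂P : ℝ) : ℂ) =
      ∑ w ∈ U ×ˢ U, co t w.1 * (starRingEnd ℂ) (co t w.2) *
        ∫ θ, VARPT.ff θ (pl w.1, pr w.1) * (starRingEnd ℂ) (VARPT.ff θ (pl w.2, pr w.2)) ∂P := by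
  rw [← integral_complex_ofReal]
  have h1 : (fun θ : ℕ → ℝ => ((‖FB θ U t‖ ^ 2 : ℝ) : ℂ)) =
      fun θ => ∑ w ∈ U ×ˢ U, (co t w.1 * (starRingEnd ℂ) (co t w.2)) *
        (VARPT.ff θ (pl w.1, pr w.1) * (starRingEnd ℂ) (VARPT.ff θ (pl w.2, pr w.2))) := by
    funext θ
    have h2 : FB θ U t = ∑ v ∈ U, co t v * VARPT.ff θ (pl v, pr v) := by
      unfold FB
      exact sum_congr rfl fun v _ => ev_eq θ v t
    rw [← Complex.normSq_eq_norm_sq, ← Complex.mul_conj, h2, map_sum, sum_mul_sum,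
      ← sum_product']
    refine sum_congr rfl fun w _ => ?_
    rw [map_mul]
    ring
  rw [h1, integral_finsetSum]
  · refine sum_congr rfl fun w _ => ?_
    exact integral_const_mul _ _
  · intro w _
    exact VARPT.term_integrable hM _ _ _

lemma pl_ne {k : ℕ} {v : Tu k} (h : ∀ j, 1 ≤ v j) : pl v ≠ 0 := by
  unfold pl
  exact Finset.prod_ne_zero_iff.2 fun j _ => by have := h (Sum.inl j); omega

lemma pr_ne {k : ℕ} {v : Tu k} (h : ∀ j, 1 ≤ v j) : pr v ≠ 0 := by
  unfold pr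
  exact Finset.prod_ne_zero_iff.2 fun j _ => by have := h (Sum.inr j); omega

end V1P

open V1P in
theorem pV1P (h1 : S_MUL) (h2 : S_OR) : S_V1P := by
  intro k U t hU
  set L := ∫ θ, ‖FB θ U t‖ ^ 2 ∂P with hL
  have hL0 : 0 ≤ L := integral_nonneg fun θ => sq_nonneg _
  have h3 : L = ‖(L : ℂ)‖ := by
    rw [Complex.norm_real, Real.norm_of_nonneg hL0]
  rw [h3, hL, expand h1 U t]
  refine (norm_sum_le _ _).trans ?_
  unfold DW
  rw [← sum_product']
  refine sum_le_sum ?_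
  rintro ⟨v, v'⟩ hw
  rw [mem_product] at hw
  have hv := hU v hw.1
  have hv' := hU v' hw.2
  simp only
  rw [VARPT.ff_int h1 h2 _ _ (pl_ne hv) (pr_ne hv) (pl_ne hv') (pr_ne hv')]
  simp only
  rw [norm_mul, norm_mul, RCLike.norm_conj, co_norm, co_norm]
  by_cases ha : pl v = pr v
  · rw [if_pos ha, zero_mul, zero_mul]
    split_ifs <;> positivity
  · rw [if_neg ha]
    by_cases hb : pl v * pr v' = pl v' * pr v
    · rw [if_pos (c := pl v * pr v' = pl v' * pr v) hb,
        if_pos (c := pl v ≠ pr v ∧ pl v * pr v' = pl v' * pr v) ⟨ha, hb⟩, norm_one, mul_one]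
      by_cases hc : pl v' = pr v'
      · rw [if_pos hc, mul_zero]
        positivity
      · rw [if_neg hc, Real.sqrt_mul (by positivity : (0:ℝ) ≤ (pl v : ℝ) * pr v), one_div_mul_one_div]
    · rw [if_neg (c := pl v * pr v' = pl v' * pr v) hb, norm_zero, mul_zero]
      split_ifs <;> positivity

end Pool.Agent.T2H58.ST
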